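import Pool.Agent.MP_eddcad_an.Defs

set_option autoImplicit false

namespace Pool.Agent.MP_eddcad_an

/-- The closed Euclidean unit ball of `ℂ^m`. -/
def closedUnitBall (m : ℕ) : Set (Fin m → ℂ) := {z | ∑ i, ‖z i‖ ^ 2 ≤ 1}

/-- `f` and `g` are joined by a family of proper rational maps of degree at most `d` that is
jointly continuous up to the sphere. -/
def StrongHomotopic {n N : ℕ} (d : ℕ) (f g : (Fin n → ℂ) → (Fin N → ℂ)) : Prop :=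
  ∃ H : ℝ → (Fin n → ℂ) → (Fin N → ℂ),
    ContinuousOn (fun x : ℝ × (Fin n → ℂ) => H x.1 x.2) (Set.Icc (0 : ℝ) 1 ×ˢ closedUnitBall n) ∧
    (∀ t ∈ Set.Icc (0 : ℝ) 1, IsProperHol (H t) ∧ RatDegLE (H t) d) ∧
    ∀ z ∈ unitBall n, H 0 z = f z ∧ H 1 z = g z

/-- The kernel `(1 - ⟨f z, f w⟩) / (1 - ⟨z, w⟩)` is positive semidefinite on the ball. -/
def KernelPSD {n N : ℕ} (f : (Fin n → ℂ) → (Fin N → ℂ)) : Prop :=
  ∀ (m : ℕ) (z : Fin m → Fin n → ℂ) (c : Fin m → ℂ), (∀ a, z a ∈ unitBall n) →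
    0 ≤ (∑ a, ∑ b, c a * starRingEnd ℂ (c b) *
      ((1 - ∑ j, f (z a) j * starRingEnd ℂ (f (z b) j)) /
        (1 - ∑ i, z a i * starRingEnd ℂ (z b i)))).re

end Pool.Agent.MP_eddcad_an
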