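import Mathlib.LinearAlgebra.FreeModule.PID
import Mathlib.Topology.Sheaves.Presheaf
import Mathlib.Tactic.Monotonicity.Lemmas
import Mathlib.RingTheory.Flat.TorsionFree
import Mathlib.Algebra.Module.StablyFree.Basic
import Mathlib.RingTheory.PicardGroup
import Mathlib.Algebra.Ring.IsFormallyReal
import Mathlib.RingTheory.Finiteness.ModuleFinitePresentation
import Mathlib.Analysis.CStarAlgebra.ContinuousFunctionalCalculus.Basic
import Mathlib.Analysis.Matrix.Order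
import Mathlib.RingTheory.SimpleRing.Principal
import Mathlib.RingTheory.TotallySplit
import Mathlib.RingTheory.Etale.Weakly
import Mathlib.Tactic.Algebra.Basic

-- ======== part 0: formerly Pool.Agent.MP_eddcad_an.h24.QF
section MrgPart0

set_option autoImplicit false
set_option linter.unusedSectionVars false

namespace Pool.Agent.MP_eddcad_an.H24

open Matrix Filter Topology Set
open scoped ComplexOrder MatrixOrder

variable {m k p : Type*} [Fintype m] [Fintype k] [Fintype p]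

/-- value of the Hermitian form of a matrix -/
noncomputable def qf (G : Matrix k k ℂ) (y : k → ℂ) : ℝ := (star y ⬝ᵥ (G *ᵥ y)).re

/-- squared Euclidean norm -/
noncomputable def nsq (y : k → ℂ) : ℝ := ∑ i, ‖y i‖ ^ 2

/-- positive semidefinite -/
def PSD (G : Matrix k k ℂ) : Prop := G.IsHermitian ∧ ∀ y, 0 ≤ qf G y

/-- positive definite -/
def PD (G : Matrix k k ℂ) : Prop := G.IsHermitian ∧ ∀ y, y ≠ 0 → 0 < qf G y

theorem nsq_nonneg (y : k → ℂ) : 0 ≤ nsq y := Finset.sum_nonneg fun _ _ => sq_nonneg _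

theorem nsq_eq_zero {y : k → ℂ} (h : nsq y = 0) : y = 0 := by
  funext i
  have := (Finset.sum_eq_zero_iff_of_nonneg (fun i _ => sq_nonneg ‖y i‖)).1 h i
    (Finset.mem_univ i)
  simpa using this

@[simp] theorem nsq_zero : nsq (0 : k → ℂ) = 0 := by simp [nsq]

theorem nsq_pos {y : k → ℂ} (h : y ≠ 0) : 0 < nsq y :=
  lt_of_le_of_ne (nsq_nonneg y) fun h' => h (nsq_eq_zero h'.symm)

theorem star_dot_self (y : k → ℂ) : star y ⬝ᵥ y = (nsq y : ℂ) := by
  simp only [dotProduct, nsq, Pi.star_apply, Complex.ofReal_sum, Complex.ofReal_pow]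
  refine Finset.sum_congr rfl fun i _ => ?_
  rw [mul_comm, Complex.star_def, Complex.mul_conj, Complex.normSq_eq_norm_sq]
  simp

theorem nsq_eq_re (y : k → ℂ) : nsq y = (star y ⬝ᵥ y).re := by
  rw [star_dot_self, Complex.ofReal_re]

theorem nsq_smul (a : ℂ) (y : k → ℂ) : nsq (a • y) = ‖a‖ ^ 2 * nsq y := by
  simp only [nsq, Pi.smul_apply, smul_eq_mul, norm_mul, mul_pow, Finset.mul_sum]

theorem qf_one [DecidableEq k] (y : k → ℂ) : qf 1 y = nsq y := by
  rw [qf, one_mulVec, nsq_eq_re]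

@[simp] theorem qf_zero_vec (G : Matrix k k ℂ) : qf G 0 = 0 := by simp [qf]

@[simp] theorem qf_zero (y : k → ℂ) : qf 0 y = 0 := by simp [qf]

theorem qf_add (G H : Matrix k k ℂ) (y : k → ℂ) : qf (G + H) y = qf G y + qf H y := by
  simp [qf, add_mulVec, dotProduct_add]

theorem qf_sub (G H : Matrix k k ℂ) (y : k → ℂ) : qf (G - H) y = qf G y - qf H y := by
  simp [qf, sub_mulVec, dotProduct_sub]

theorem qf_neg (G : Matrix k k ℂ) (y : k → ℂ) : qf (-G) y = -qf G y := by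
  simp [qf, neg_mulVec, dotProduct_neg]

theorem qf_rsmul (a : ℝ) (G : Matrix k k ℂ) (y : k → ℂ) : qf ((a : ℂ) • G) y = a * qf G y := by
  simp [qf, smul_mulVec, dotProduct_smul]

theorem qf_sum {ι : Type*} (s : Finset ι) (G : ι → Matrix k k ℂ) (y : k → ℂ) :
    qf (∑ i ∈ s, G i) y = ∑ i ∈ s, qf (G i) y := by
  classical
  induction s using Finset.induction_on with
  | empty => simp
  | insert a s ha ih => rw [Finset.sum_insert ha, Finset.sum_insert ha, qf_add, ih]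

theorem qf_smul (G : Matrix k k ℂ) (a : ℂ) (y : k → ℂ) : qf G (a • y) = ‖a‖ ^ 2 * qf G y := by
  simp only [qf, mulVec_smul, star_smul, smul_dotProduct, dotProduct_smul, smul_eq_mul]
  rw [← mul_assoc, mul_comm a, Complex.star_def, ← Complex.normSq_eq_conj_mul_self,
    Complex.normSq_eq_norm_sq, Complex.re_ofReal_mul]

theorem dot_conj (A : Matrix k m ℂ) (G : Matrix k k ℂ) (B : Matrix k p ℂ) (c : m → ℂ)
    (c' : p → ℂ) :
    star c ⬝ᵥ ((Aᴴ * G * B) *ᵥ c') = star (A *ᵥ c) ⬝ᵥ (G *ᵥ (B *ᵥ c')) := by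
  rw [Matrix.mul_assoc, ← mulVec_mulVec, ← mulVec_mulVec, dotProduct_mulVec, star_mulVec]

theorem qf_conj (A : Matrix k m ℂ) (G : Matrix k k ℂ) (c : m → ℂ) :
    qf (Aᴴ * G * A) c = qf G (A *ᵥ c) := by
  rw [qf, dot_conj, qf]

theorem qf_gram (A : Matrix k m ℂ) (c : m → ℂ) : qf (Aᴴ * A) c = nsq (A *ᵥ c) := by
  classical
  rw [← qf_one, ← qf_conj, Matrix.mul_one]

theorem qf_rank_one (a y : k → ℂ) : qf (vecMulVec (star a) a) y = ‖a ⬝ᵥ y‖ ^ 2 := by
  rw [qf, vecMulVec_mulVec, dotProduct_smul, star_dotProduct_star, MulOpposite.smul_eq_mul_unop,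
    MulOpposite.unop_op, Complex.star_def,
    ← Complex.normSq_eq_conj_mul_self, Complex.normSq_eq_norm_sq]
  exact Complex.ofReal_re _

theorem herm_rank_one (a : k → ℂ) : (vecMulVec (star a) a).IsHermitian := by
  ext i j
  simp [vecMulVec_apply, conjTranspose_apply, mul_comm]

@[fun_prop] theorem continuous_qf {X : Type*} [TopologicalSpace X] {G : X → Matrix k k ℂ}
    {y : X → k → ℂ} (hG : Continuous G) (hy : Continuous y) :
    Continuous fun x => qf (G x) (y x) := by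
  unfold qf
  fun_prop

@[fun_prop] theorem continuous_nsq {X : Type*} [TopologicalSpace X]
    {y : X → k → ℂ} (hy : Continuous y) : Continuous fun x => nsq (y x) := by
  unfold nsq
  fun_prop

theorem tendsto_qf {X : Type*} {l : Filter X} {G : X → Matrix k k ℂ} {y : X → k → ℂ}
    {G0 : Matrix k k ℂ} {y0 : k → ℂ} (hG : Tendsto G l (𝓝 G0)) (hy : Tendsto y l (𝓝 y0)) :
    Tendsto (fun x => qf (G x) (y x)) l (𝓝 (qf G0 y0)) := by
  have h : Continuous fun x : Matrix k k ℂ × (k → ℂ) => qf x.1 x.2 := by fun_prop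
  have h2 := (h.tendsto (G0, y0)).comp (hG.prodMk_nhds hy)
  simpa only [Function.comp_def] using h2

theorem herm_im {G : Matrix k k ℂ} (hG : G.IsHermitian) (y : k → ℂ) :
    (star y ⬝ᵥ (G *ᵥ y)).im = 0 := hG.im_star_dotProduct_mulVec_self y

theorem psd_iff {G : Matrix k k ℂ} : PSD G ↔ G.PosSemidef := by
  rw [posSemidef_iff_dotProduct_mulVec]
  refine and_congr_right fun hG => forall_congr' fun y => ?_
  rw [Complex.nonneg_iff, qf, herm_im hG]
  simp

theorem pd_iff {G : Matrix k k ℂ} : PD G ↔ G.PosDef := by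
  rw [posDef_iff_dotProduct_mulVec]
  refine and_congr_right fun hG => forall_congr' fun y => ?_
  rw [Complex.pos_iff, qf, herm_im hG]
  simp

theorem PD.psd {G : Matrix k k ℂ} (h : PD G) : PSD G := by
  refine ⟨h.1, fun y => ?_⟩
  rcases eq_or_ne y 0 with rfl | hy
  · simp
  · exact (h.2 y hy).le

theorem PSD.ker {G : Matrix k k ℂ} (h : PSD G) {y : k → ℂ} (hy : qf G y = 0) : G *ᵥ y = 0 := by
  refine ((psd_iff.1 h).dotProduct_mulVec_zero_iff y).1 ?_
  exact Complex.ext hy (herm_im h.1 y)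

theorem qf_of_ker {G : Matrix k k ℂ} {y : k → ℂ} (hy : G *ᵥ y = 0) : qf G y = 0 := by
  simp [qf, hy]

theorem PD.eq_zero {G : Matrix k k ℂ} (h : PD G) {y : k → ℂ} (hy : qf G y ≤ 0) : y = 0 := by
  by_contra h0
  exact absurd (h.2 y h0) (not_lt.2 hy)

theorem PSD.eq_zero {G : Matrix k k ℂ} (h : PSD G) (hy : ∀ y, qf G y = 0) : G = 0 := by
  classical
  ext i j
  have := congrFun (h.ker (hy (Pi.single j 1))) i
  simpa using this

theorem herm_ext {G H : Matrix k k ℂ} (hG : G.IsHermitian) (hH : H.IsHermitian)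
    (h : ∀ y, qf G y = qf H y) : G = H := by
  have h1 : ∀ y, qf (G - H) y = 0 := fun y => by rw [qf_sub, h y, sub_self]
  exact sub_eq_zero.1 (PSD.eq_zero ⟨hG.sub hH, fun y => (h1 y).ge⟩ h1)

theorem PSD.gram {G : Matrix k k ℂ} (h : PSD G) : ∃ B : Matrix k k ℂ, G = Bᴴ * B := by
  classical
  obtain ⟨B, hB⟩ := CStarAlgebra.nonneg_iff_eq_star_mul_self.mp (psd_iff.1 h).nonneg
  exact ⟨B, hB⟩

theorem psd_gram (A : Matrix k m ℂ) : PSD (Aᴴ * A) :=
  ⟨isHermitian_conjTranspose_mul_self A, fun c => by rw [qf_gram]; exact nsq_nonneg _⟩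

theorem PSD.conj {G : Matrix k k ℂ} (h : PSD G) (A : Matrix k m ℂ) : PSD (Aᴴ * G * A) :=
  ⟨isHermitian_conjTranspose_mul_mul A h.1, fun c => by rw [qf_conj]; exact h.2 _⟩

theorem PD.conj {G : Matrix k k ℂ} (h : PD G) (A : Matrix k m ℂ)
    (hA : ∀ c, A *ᵥ c = 0 → c = 0) : PD (Aᴴ * G * A) :=
  ⟨isHermitian_conjTranspose_mul_mul A h.1, fun c hc => by
    rw [qf_conj]; exact h.2 _ fun h0 => hc (hA c h0)⟩

theorem PD.isUnit_det [DecidableEq k] {G : Matrix k k ℂ} (h : PD G) : IsUnit G.det :=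
  (isUnit_iff_isUnit_det G).1 (pd_iff.1 h).isUnit

theorem PD.inv [DecidableEq k] {G : Matrix k k ℂ} (h : PD G) : PD G⁻¹ :=
  pd_iff.2 (pd_iff.1 h).inv

theorem pd_one [DecidableEq k] : PD (1 : Matrix k k ℂ) :=
  ⟨isHermitian_one, fun y hy => by rw [qf_one]; exact nsq_pos hy⟩

theorem herm_rsmul {G : Matrix k k ℂ} (h : G.IsHermitian) (a : ℝ) :
    ((a : ℂ) • G).IsHermitian := by
  rw [IsHermitian, conjTranspose_smul, h.eq]
  simp

/-- factorisation through a matrix with smaller kernel -/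
theorem exists_factor (A : Matrix p m ℂ) (B : Matrix k m ℂ)
    (h : ∀ c, B *ᵥ c = 0 → A *ᵥ c = 0) : ∃ T : Matrix p k ℂ, A = T * B := by
  classical
  have h1 : LinearMap.ker B.mulVecLin ≤ LinearMap.ker A.mulVecLin := fun c hc => h c hc
  obtain ⟨T, hT⟩ := LinearMap.exists_extend
    ((LinearMap.ker B.mulVecLin).liftQ A.mulVecLin h1 ∘ₗ
      (B.mulVecLin.quotKerEquivRange).symm.toLinearMap)
  refine ⟨LinearMap.toMatrix' T, ?_⟩
  apply Matrix.toLin'.injective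
  rw [Matrix.toLin'_mul, Matrix.toLin'_toMatrix']
  refine LinearMap.ext fun c => ?_
  have h2 := LinearMap.congr_fun hT ⟨B.mulVecLin c, LinearMap.mem_range_self _ c⟩
  simp only [LinearMap.comp_apply, Submodule.subtype_apply, LinearEquiv.coe_coe,
    LinearMap.quotKerEquivRange_symm_apply_image, Submodule.mkQ_apply,
    Submodule.liftQ_apply] at h2
  simp only [LinearMap.comp_apply, toLin'_apply]
  exact h2.symm

theorem nsq_mulVec_le (T : Matrix p k ℂ) : ∃ C : ℝ, 0 < C ∧ ∀ y, nsq (T *ᵥ y) ≤ C * nsq y := by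
  refine ⟨∑ i, ∑ j, ‖T i j‖ ^ 2 + 1, by positivity, fun y => ?_⟩
  have h1 : ∀ i, ‖(T *ᵥ y) i‖ ^ 2 ≤ (∑ j, ‖T i j‖ ^ 2) * nsq y := by
    intro i
    have h2 : ‖(T *ᵥ y) i‖ ≤ ∑ j, ‖T i j‖ * ‖y j‖ := by
      simp only [mulVec, dotProduct]
      exact (norm_sum_le _ _).trans (Finset.sum_le_sum fun j _ => (norm_mul _ _).le)
    exact (pow_le_pow_left₀ (norm_nonneg _) h2 2).trans (Finset.sum_mul_sq_le_sq_mul_sq _ _ _)
  calc nsq (T *ᵥ y) ≤ ∑ i, (∑ j, ‖T i j‖ ^ 2) * nsq y := Finset.sum_le_sum fun i _ => h1 i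
    _ = (∑ i, ∑ j, ‖T i j‖ ^ 2) * nsq y := by rw [Finset.sum_mul]
    _ ≤ _ := by nlinarith [nsq_nonneg y]

theorem PSD.dominate {M : Matrix m m ℂ} (hM : PSD M) (A : Matrix p m ℂ)
    (h : ∀ c, M *ᵥ c = 0 → A *ᵥ c = 0) : ∃ C : ℝ, 0 < C ∧ ∀ c, nsq (A *ᵥ c) ≤ C * qf M c := by
  obtain ⟨B, rfl⟩ := hM.gram
  obtain ⟨T, rfl⟩ := exists_factor A B fun c hc => h c (by rw [← mulVec_mulVec, hc, mulVec_zero])
  obtain ⟨C, hC, h2⟩ := nsq_mulVec_le T
  exact ⟨C, hC, fun c => by rw [qf_gram, ← mulVec_mulVec]; exact h2 _⟩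

theorem PD.coercive {M : Matrix m m ℂ} (hM : PD M) :
    ∃ C : ℝ, 0 < C ∧ ∀ c, nsq c ≤ C * qf M c := by
  classical
  obtain ⟨C, hC, h⟩ := hM.psd.dominate (1 : Matrix m m ℂ) fun c hc => by
    rw [one_mulVec]; exact hM.eq_zero (qf_of_ker hc).le
  exact ⟨C, hC, fun c => by simpa using h c⟩

/-- the generalized Rayleigh quotient attains its maximum -/
theorem ratio_max {H : Matrix k k ℂ} (hH : PD H) (G : Matrix k k ℂ) {y0 : k → ℂ} (h0 : y0 ≠ 0) :
    ∃ (y : k → ℂ) (μ : ℝ), y ≠ 0 ∧ qf G y = μ * qf H y ∧ ∀ y', qf G y' ≤ μ * qf H y' := by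
  have hne : ∀ y ∈ Metric.sphere (0 : k → ℂ) 1, y ≠ 0 := by
    rintro y hy rfl
    simp at hy
  have hsc : ∀ y : k → ℂ, y ≠ 0 → ((‖y‖⁻¹ : ℝ) : ℂ) • y ∈ Metric.sphere (0 : k → ℂ) 1 := by
    intro y hy
    simp [norm_smul, inv_mul_cancel₀ (norm_ne_zero_iff.2 hy)]
  obtain ⟨y, hy, hmax⟩ := (isCompact_sphere (0 : k → ℂ) 1).exists_isMaxOn ⟨_, hsc y0 h0⟩
    (f := fun y => qf G y / qf H y)
    (ContinuousOn.div (by fun_prop) (by fun_prop) fun y hy => (hH.2 y (hne y hy)).ne')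
  refine ⟨y, qf G y / qf H y, hne y hy, by field_simp [(hH.2 y (hne y hy)).ne'], fun y' => ?_⟩
  rcases eq_or_ne y' 0 with rfl | hy'
  · simp
  have h1 : qf G (((‖y'‖⁻¹ : ℝ) : ℂ) • y') / qf H (((‖y'‖⁻¹ : ℝ) : ℂ) • y') ≤ qf G y / qf H y :=
    hmax (hsc y' hy')
  have h2 : ‖((‖y'‖⁻¹ : ℝ) : ℂ)‖ ^ 2 ≠ 0 := by simpa using hy'
  rw [qf_smul, qf_smul, mul_div_mul_left _ _ h2, div_le_iff₀ (hH.2 y' hy')] at h1
  exact h1

/-- positive definiteness is an open condition -/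
theorem eventually_pos {X : Type*} {l : Filter X} {M : X → Matrix k k ℂ} {M0 : Matrix k k ℂ}
    (hM : Tendsto M l (𝓝 M0)) (h0 : ∀ y, y ≠ 0 → 0 < qf M0 y) :
    ∀ᶠ x in l, ∀ y, y ≠ 0 → 0 < qf (M x) y := by
  have h1 : ∀ᶠ N in 𝓝 M0, ∀ y ∈ Metric.sphere (0 : k → ℂ) 1, 0 < qf N y := by
    refine (isCompact_sphere (0 : k → ℂ) 1).eventually_forall_of_forall_eventually ?_
    intro y hy
    have hc : Continuous fun x : Matrix k k ℂ × (k → ℂ) => qf x.1 x.2 := by fun_prop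
    refine hc.continuousAt.eventually (lt_mem_nhds (h0 y ?_))
    rintro rfl
    simp at hy
  filter_upwards [hM.eventually h1] with x hx y hy
  have h2 := hx (((‖y‖⁻¹ : ℝ) : ℂ) • y)
    (by simp [norm_smul, inv_mul_cancel₀ (norm_ne_zero_iff.2 hy)])
  rw [qf_smul] at h2
  exact (pos_iff_pos_of_mul_pos h2).1 (by have := norm_pos_iff.2 hy; simpa using by positivity)

attribute [irreducible] qf nsq

end Pool.Agent.MP_eddcad_an.H24

end MrgPart0

-- ======== part 1: formerly Pool.Agent.MP_eddcad_an.h24.LMI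
section MrgPart1

set_option autoImplicit false
set_option linter.unusedSectionVars false

namespace Pool.Agent.MP_eddcad_an.H24

open Matrix Filter Topology Set

/-- a linear system -/
structure Sys (m k r n : Type) where
  ρ : Matrix r m ℂ
  Ξ : n → Matrix k m ℂ
  Y : Matrix k m ℂ

variable {m k r n : Type} [Fintype m] [Fintype k] [Fintype r] [Fintype n]

/-- the matrix of the linear matrix inequality -/
noncomputable def Sys.L (S : Sys m k r n) (G : Matrix k k ℂ) : Matrix m m ℂ :=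
  S.ρᴴ * S.ρ + ∑ i, (S.Ξ i)ᴴ * G * S.Ξ i - S.Yᴴ * G * S.Y

theorem Sys.qf_L (S : Sys m k r n) (G : Matrix k k ℂ) (c : m → ℂ) :
    qf (S.L G) c = nsq (S.ρ *ᵥ c) + ∑ i, qf G (S.Ξ i *ᵥ c) - qf G (S.Y *ᵥ c) := by
  simp only [Sys.L, qf_sub, qf_add, qf_sum, qf_conj, qf_gram]

theorem Sys.herm_L (S : Sys m k r n) {G : Matrix k k ℂ} (hG : G.IsHermitian) :
    (S.L G).IsHermitian := by
  refine ((isHermitian_conjTranspose_mul_self _).add ?_).sub
    (isHermitian_conjTranspose_mul_mul _ hG)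
  rw [IsHermitian, conjTranspose_sum]
  exact Finset.sum_congr rfl fun i _ => (isHermitian_conjTranspose_mul_mul _ hG).eq

/-- a tight solution of the inequality -/
def Sys.Tight (S : Sys m k r n) (G : Matrix k k ℂ) : Prop :=
  PD G ∧ PSD (S.L G) ∧ ∀ y, ∃ c, S.L G *ᵥ c = 0 ∧ S.Y *ᵥ c = y

/-- strict feasibility -/
def Sys.Strict (S : Sys m k r n) : Prop := ∃ G, PD G ∧ PD (S.L G)

/-- nilpotent right inverse -/
def Sys.Nil [DecidableEq k] (S : Sys m k r n) : Prop :=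
  ∃ (Z : Matrix m k ℂ) (ν : k → ℕ), S.Y * Z = 1 ∧
    ∀ i b' b, ν b ≤ ν b' → (S.Ξ i * Z) b' b = 0

theorem Sys.compare (S : Sys m k r n) {G H : Matrix k k ℂ} (hH : PD H)
    (h : ∀ y, y ≠ 0 → ∃ c, S.Y *ᵥ c = y ∧ 0 ≤ qf (S.L G) c ∧ qf (S.L H) c ≤ 0 ∧
      qf (S.L H) c < qf (S.L G) c) (y0 : k → ℂ) : qf G y0 ≤ qf H y0 := by
  rcases eq_or_ne y0 0 with rfl | h0
  · simp
  obtain ⟨y, μ, hy, h1, h2⟩ := ratio_max hH G h0
  rcases le_or_gt μ 1 with hμ | hμ
  · have := hH.psd.2 y0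
    nlinarith [h2 y0]
  exfalso
  obtain ⟨c, rfl, a1, a2, a3⟩ := h y hy
  rw [S.qf_L] at a1 a2 a3
  rw [S.qf_L] at a3
  have h3 : ∑ i, qf G (S.Ξ i *ᵥ c) ≤ μ * ∑ i, qf H (S.Ξ i *ᵥ c) := by
    rw [Finset.mul_sum]
    exact Finset.sum_le_sum fun i _ => h2 _
  have h4 := nsq_nonneg (S.ρ *ᵥ c)
  nlinarith

theorem Sys.perturb (S : Sys m k r n) {G : Matrix k k ℂ} (hL : PSD (S.L G)) (a : k → ℂ)
    (ha : ∀ c, S.L G *ᵥ c = 0 → a ⬝ᵥ (S.Y *ᵥ c) = 0) :
    ∃ ε : ℝ, 0 < ε ∧ ∀ c, qf (S.L G) c / 2 + ε * ∑ i, ‖a ⬝ᵥ (S.Ξ i *ᵥ c)‖ ^ 2 ≤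
      qf (S.L (G + (ε : ℂ) • vecMulVec (star a) a)) c := by
  have e1 : ∀ c, (replicateRow Unit (a ᵥ* S.Y)) *ᵥ c = fun _ => a ⬝ᵥ (S.Y *ᵥ c) := by
    intro c
    funext u
    rw [dotProduct_mulVec]
    rfl
  obtain ⟨C, hC, h⟩ := hL.dominate (replicateRow Unit (a ᵥ* S.Y)) fun c hc => by
    rw [e1, ha c hc]; rfl
  refine ⟨1 / (2 * C), by positivity, fun c => ?_⟩
  have h1 := h c
  rw [e1] at h1
  simp only [nsq, Finset.univ_unique, Finset.sum_singleton] at h1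
  have h2 : 1 / (2 * C) * ‖a ⬝ᵥ (S.Y *ᵥ c)‖ ^ 2 ≤ qf (S.L G) c / 2 := by
    rw [div_mul_eq_mul_div, one_mul, div_le_iff₀ (by positivity)]
    linarith
  rw [S.qf_L] at h2
  simp only [S.qf_L, qf_add, qf_rsmul, qf_rank_one, Finset.sum_add_distrib, ← Finset.mul_sum]
  linarith

theorem exists_functional (W : Submodule ℂ (k → ℂ)) {y0 : k → ℂ} (h : y0 ∉ W) :
    ∃ a : k → ℂ, (∀ y ∈ W, a ⬝ᵥ y = 0) ∧ a ⬝ᵥ y0 ≠ 0 := by
  classical
  obtain ⟨f, h1, h2⟩ := Submodule.exists_dual_map_eq_bot_of_notMem h inferInstance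
  have e : ∀ y, (fun i => f (Pi.single i 1)) ⬝ᵥ y = f y := by
    intro y
    rw [LinearMap.pi_apply_eq_sum_univ f y, dotProduct]
    refine Finset.sum_congr rfl fun i _ => ?_
    rw [smul_eq_mul, mul_comm]
    congr 2
    funext j
    simp [Pi.single_apply, eq_comm]
  refine ⟨fun i => f (Pi.single i 1), fun y hy => ?_, by rwa [e]⟩
  rw [e]
  have : f y ∈ W.map f := Submodule.mem_map_of_mem hy
  rwa [h2, Submodule.mem_bot] at this

theorem isClosed_herm : IsClosed {G : Matrix k k ℂ | G.IsHermitian} :=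
  isClosed_eq (by fun_prop) continuous_id

theorem isCompact_below (H : Matrix k k ℂ) :
    IsCompact {G : Matrix k k ℂ | PSD G ∧ ∀ y, qf G y ≤ qf H y} := by
  classical
  have hc : IsClosed {G : Matrix k k ℂ | PSD G ∧ ∀ y, qf G y ≤ qf H y} := by
    simp only [PSD, ofPred_and, ofPred_forall]
    exact (isClosed_herm.inter (isClosed_iInter fun y =>
      isClosed_le continuous_const (by fun_prop))).inter
      (isClosed_iInter fun y => isClosed_le (by fun_prop) continuous_const)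
  refine IsCompact.of_isClosed_subset (isCompact_univ_pi fun i => isCompact_univ_pi fun j =>
    isCompact_closedBall (0 : ℂ) ((qf H (Pi.single i 1) + qf H (Pi.single j 1)) / 2)) hc ?_
  rintro G ⟨hG, hGH⟩ i - j -
  obtain ⟨B, rfl⟩ := hG.gram
  have h1 := hGH (Pi.single i 1)
  have h2 := hGH (Pi.single j 1)
  rw [qf_gram, mulVec_single_one] at h1 h2
  rw [Metric.mem_closedBall, dist_zero_right, mul_apply]
  refine (norm_sum_le _ _).trans ?_
  have h3 : ∑ l, ‖Bᴴ i l * B l j‖ ≤ ∑ l, (‖B.col i l‖ ^ 2 + ‖B.col j l‖ ^ 2) / 2 := by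
    refine Finset.sum_le_sum fun l _ => ?_
    rw [norm_mul, conjTranspose_apply, norm_star, col_apply, col_apply]
    nlinarith [sq_nonneg (‖B l i‖ - ‖B l j‖)]
  rw [← Finset.sum_div, Finset.sum_add_distrib] at h3
  unfold nsq at h1 h2
  linarith

theorem Sys.exists_tight (S : Sys m k r n) {G0 H : Matrix k k ℂ} (h0 : PD G0)
    (hL0 : PSD (S.L G0)) (hH : PD H)
    (hup : ∀ y, y ≠ 0 → ∃ c, S.Y *ᵥ c = y ∧ qf (S.L H) c < 0) : ∃ G, S.Tight G := by
  classical
  let K : Set (Matrix k k ℂ) :=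
    {G | G.IsHermitian ∧ (∀ y, qf G0 y ≤ qf G y) ∧ ∀ c, 0 ≤ qf (S.L G) c}
  have hK : IsCompact K := by
    refine (isCompact_below H).of_isClosed_subset ?_ ?_
    · simp only [K, ofPred_and, ofPred_forall, S.qf_L]
      exact isClosed_herm.inter ((isClosed_iInter fun y =>
        isClosed_le continuous_const (by fun_prop)).inter
        (isClosed_iInter fun y => isClosed_le continuous_const (by fun_prop)))
    · rintro G ⟨h1, h2, h3⟩
      refine ⟨⟨h1, fun y => (h0.psd.2 y).trans (h2 y)⟩, S.compare hH fun y hy => ?_⟩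
      obtain ⟨c, hc, hc'⟩ := hup y hy
      exact ⟨c, hc, h3 c, hc'.le, hc'.trans_le (h3 c)⟩
  obtain ⟨G, ⟨h1, h2, h3⟩, hmax⟩ := hK.exists_isMaxOn ⟨G0, h0.1, fun _ => le_rfl, hL0.2⟩
    (f := fun G => ∑ i, qf G (Pi.single i 1)) (by fun_prop)
  have hL : PSD (S.L G) := ⟨S.herm_L h1, h3⟩
  refine ⟨G, ⟨h1, fun y hy => (h0.2 y hy).trans_le (h2 y)⟩, hL, fun y0 => ?_⟩
  by_contra hne
  obtain ⟨a, ha, ha0⟩ := exists_functional
    ((LinearMap.ker (S.L G).mulVecLin).map S.Y.mulVecLin) (y0 := y0) (by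
      rintro ⟨c, hc, hc'⟩
      exact hne ⟨c, hc, hc'⟩)
  obtain ⟨ε, hε, h⟩ := S.perturb hL a fun c hc => ha _ ⟨c, hc, rfl⟩
  have hmem : G + (ε : ℂ) • vecMulVec (star a) a ∈ K := by
    refine ⟨h1.add (herm_rsmul (herm_rank_one a) ε), fun y => ?_, fun c => ?_⟩
    · rw [qf_add, qf_rsmul, qf_rank_one]
      have := h2 y
      have : 0 ≤ ε * ‖a ⬝ᵥ y‖ ^ 2 := by positivity
      linarith
    · refine le_trans ?_ (h c)
      have := h3 c
      positivity
  have h4 : ∑ i, qf (G + (ε : ℂ) • vecMulVec (star a) a) (Pi.single i 1) ≤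
      ∑ i, qf G (Pi.single i 1) := hmax hmem
  simp only [qf_add, qf_rsmul, qf_rank_one, Finset.sum_add_distrib, ← Finset.mul_sum,
    dotProduct_single, mul_one] at h4
  have h5 : 0 < nsq a := nsq_pos (by rintro rfl; simp at ha0)
  have := mul_pos hε h5
  unfold nsq at this
  linarith

theorem Sys.qf_L_comb (S : Sys m k r n) (G G' : Matrix k k ℂ) (s : ℝ) (c : m → ℂ) :
    qf (S.L (((1 - s : ℝ) : ℂ) • G + (s : ℂ) • G')) c =
      (1 - s) * qf (S.L G) c + s * qf (S.L G') c := by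
  simp only [S.qf_L, qf_add, qf_rsmul, Finset.sum_add_distrib, ← Finset.mul_sum]
  ring

theorem le_of_comb {a b c : ℝ} (h : ∀ s : ℝ, 0 < s → s < 1 → (1 - s) * a + s * b ≤ c) : a ≤ c := by
  have h1 : Tendsto (fun s : ℝ => (1 - s) * a + s * b) (𝓝[>] 0) (𝓝 ((1 - 0) * a + 0 * b)) :=
    (Continuous.tendsto (by fun_prop) 0).mono_left nhdsWithin_le_nhds
  rw [sub_zero, one_mul, zero_mul, add_zero] at h1
  refine le_of_tendsto h1 ?_
  filter_upwards [Ioo_mem_nhdsGT (zero_lt_one' ℝ)] with s hs using h s hs.1 hs.2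

theorem Sys.strict_le_tight (S : Sys m k r n) {G1 G : Matrix k k ℂ} (h1 : S.Tight G1)
    (hG : ∀ c, c ≠ 0 → 0 < qf (S.L G) c) (y : k → ℂ) : qf G y ≤ qf G1 y := by
  refine S.compare h1.1 (fun y hy => ?_) y
  obtain ⟨c, hc, rfl⟩ := h1.2.2 y
  have hc0 : c ≠ 0 := by rintro rfl; simp at hy
  have := hG c hc0
  exact ⟨c, rfl, this.le, (qf_of_ker hc).le, by rwa [qf_of_ker hc]⟩

theorem Sys.le_tight (S : Sys m k r n) (hS : S.Strict) {G1 G : Matrix k k ℂ} (h1 : S.Tight G1)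
    (hG : ∀ c, 0 ≤ qf (S.L G) c) (y : k → ℂ) : qf G y ≤ qf G1 y := by
  obtain ⟨G0, -, h0⟩ := hS
  refine le_of_comb (b := qf G0 y) fun s hs hs' => ?_
  have := S.strict_le_tight h1 (G := ((1 - s : ℝ) : ℂ) • G + (s : ℂ) • G0) (fun c hc => by
    rw [S.qf_L_comb]
    have := h0.2 c hc
    have := hG c
    have : 0 < 1 - s := by linarith
    positivity) y
  rwa [qf_add, qf_rsmul, qf_rsmul] at this

theorem Sys.tight_unique (S : Sys m k r n) (hS : S.Strict) {G1 G2 : Matrix k k ℂ}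
    (h1 : S.Tight G1) (h2 : S.Tight G2) : G1 = G2 :=
  herm_ext h1.1.1 h2.1.1 fun y =>
    le_antisymm (S.le_tight hS h2 h1.2.1.2 y) (S.le_tight hS h1 h2.2.1.2 y)

theorem Sys.upper_of_neg (S : Sys m k r n) {H : Matrix k k ℂ} (hH : PD H) {Z : Matrix m k ℂ}
    (h : ∀ u, u ≠ 0 → 0 < qf (-(Zᴴ * S.L H * Z)) u) :
    ∀ y, y ≠ 0 → ∃ c, S.Y *ᵥ c = y ∧ qf (S.L H) c < 0 := by
  classical
  have h' : ∀ u, u ≠ 0 → qf (S.L H) (Z *ᵥ u) < 0 := by
    intro u hu
    have := h u hu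
    rw [qf_neg, qf_conj] at this
    linarith
  have hinj : Function.Injective (S.Y * Z).mulVec := by
    have : Function.Injective (S.Y * Z).mulVecLin := by
      rw [← LinearMap.ker_eq_bot, LinearMap.ker_eq_bot']
      intro u hu
      by_contra hu0
      have h1 := h' u hu0
      rw [S.qf_L, mulVec_mulVec u S.Y, show (S.Y * Z) *ᵥ u = 0 from hu, qf_zero_vec] at h1
      have h2 := nsq_nonneg (S.ρ *ᵥ Z *ᵥ u)
      have h3 : 0 ≤ ∑ i, qf H (S.Ξ i *ᵥ Z *ᵥ u) := Finset.sum_nonneg fun i _ => hH.psd.2 _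
      linarith
    exact this
  have hsurj := mulVec_surjective_iff_isUnit.2 (mulVec_injective_iff_isUnit.1 hinj)
  intro y hy
  obtain ⟨u, rfl⟩ := hsurj y
  exact ⟨Z *ᵥ u, by rw [mulVec_mulVec], h' u (by rintro rfl; simp at hy)⟩

theorem Sys.upper_of_nil [DecidableEq k] (S : Sys m k r n) (hS : S.Nil) :
    ∃ (H : Matrix k k ℂ) (Z : Matrix m k ℂ), PD H ∧
      ∀ u, u ≠ 0 → 0 < qf (-(Zᴴ * S.L H * Z)) u := by
  obtain ⟨Z, ν, hZ, hν⟩ := hS
  let D : ℝ → Matrix k k ℂ := fun s => diagonal fun b => (s : ℂ) ^ (ν b + 1)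
  let A : n → ℝ → Matrix k k ℂ := fun i s =>
    Matrix.of fun b' b => (s : ℂ) ^ (ν b - ν b') * (S.Ξ i * Z) b' b
  let M : ℝ → Matrix k k ℂ := fun s =>
    1 - (S.ρ * Z * D s)ᴴ * (S.ρ * Z * D s) - ∑ i, (A i s)ᴴ * A i s
  have hD : Continuous D := by
    refine Continuous.matrix_diagonal ?_
    fun_prop
  have hA : ∀ i, Continuous (A i) := fun i =>
    continuous_matrix fun b' b => by simp only [A, of_apply]; fun_prop
  have hM : Continuous M := by fun_prop
  have hM0 : M 0 = 1 := by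
    have e1 : D 0 = 0 := by simp [D]
    have e2 : ∀ i, A i 0 = 0 := by
      intro i
      ext b' b
      rcases le_or_gt (ν b) (ν b') with h | h
      · simp [A, hν i b' b h]
      · simp [A, Nat.sub_ne_zero_of_lt h]
    simp [M, e1, e2]
  have h1 : Tendsto M (𝓝[>] 0) (𝓝 1) := hM0 ▸ (hM.tendsto 0).mono_left nhdsWithin_le_nhds
  obtain ⟨s, hs1, hs2⟩ := ((eventually_pos h1 pd_one.2).and self_mem_nhdsWithin).exists
  have hs : (s : ℂ) ≠ 0 := by simpa using (show (0 : ℝ) < s from hs2).ne'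
  let E : Matrix k k ℂ := diagonal fun b => ((s : ℂ) ^ (ν b + 1))⁻¹
  have hED : E * D s = 1 := by
    simp only [E, D, diagonal_mul_diagonal]
    rw [← diagonal_one]
    congr 1
    funext b
    exact inv_mul_cancel₀ (pow_ne_zero _ hs)
  have hDE : D s * E = 1 := mul_eq_one_comm.1 hED
  have hEA : ∀ i, E * (S.Ξ i * Z) * D s = A i s := by
    intro i
    ext b' b
    simp only [E, D, A, mul_diagonal, diagonal_mul, of_apply]
    rcases le_or_gt (ν b) (ν b') with h | h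
    · simp [hν i b' b h]
    · obtain ⟨e, he⟩ := Nat.exists_eq_add_of_lt h
      rw [he, show ν b' + e + 1 - ν b' = e + 1 by omega]
      field_simp
      ring
  refine ⟨Eᴴ * E, Z * D s, ?_, fun u hu => ?_⟩
  · have := pd_one.conj E fun c hc => by
      rw [← one_mulVec c, ← hDE, ← mulVec_mulVec, hc, mulVec_zero]
    rwa [Matrix.mul_one] at this
  · have h2 := hs1 u hu
    simp only [M, qf_sub, qf_one, qf_sum, qf_gram] at h2
    rw [qf_neg, qf_conj, S.qf_L]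
    simp only [qf_gram, mulVec_mulVec, ← Matrix.mul_assoc]
    have e1 : ∀ i, E * S.Ξ i * Z * D s = A i s := fun i => by
      rw [← hEA, Matrix.mul_assoc E]
    have e2 : E * S.Y * Z * D s = 1 := by
      rw [Matrix.mul_assoc E, hZ, Matrix.mul_one, hED]
    simp only [e1, e2, one_mulVec]
    linarith

theorem Sys.exists_tight' [DecidableEq k] (S : Sys m k r n) (h1 : S.Strict) (h2 : S.Nil) :
    ∃ G, S.Tight G := by
  obtain ⟨G0, a, b⟩ := h1
  obtain ⟨H, Z, hH, h⟩ := S.upper_of_nil h2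
  exact S.exists_tight a b.psd hH (S.upper_of_neg hH h)

theorem Sys.strict_of_feasible [DecidableEq k] (S : Sys m k r n) {G0 : Matrix k k ℂ}
    (h0 : PD G0) (hL0 : PSD (S.L G0))
    (hinj : ∀ c, S.ρ *ᵥ c = 0 → (∀ i, S.Ξ i *ᵥ c = 0) → c = 0) (hN : S.Nil) : S.Strict := by
  classical
  obtain ⟨Z, ν, hZ, hν⟩ := hN
  have hex : ∃ e : ℕ, ∃ G, PD G ∧ PSD (S.L G) ∧
      Module.finrank ℂ (LinearMap.ker (S.L G).mulVecLin) = e := ⟨_, G0, h0, hL0, rfl⟩
  obtain ⟨G, hG, hL, he⟩ := Nat.find_spec hex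
  have hmin : ∀ G', PD G' → (∀ c, qf (S.L G) c / 2 ≤ qf (S.L G') c) →
      ∀ c, S.L G *ᵥ c = 0 → qf (S.L G') c = 0 := by
    intro G' hG' h c hc
    have hL' : PSD (S.L G') := ⟨S.herm_L hG'.1, fun c => by
      have := hL.2 c
      have := h c
      linarith⟩
    have hle : LinearMap.ker (S.L G').mulVecLin ≤ LinearMap.ker (S.L G).mulVecLin := by
      intro c hc
      have h1 := qf_of_ker (show S.L G' *ᵥ c = 0 from hc)
      have := hL.2 c
      have := h c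
      exact hL.ker (by linarith)
    have heq := Submodule.eq_of_le_of_finrank_le hle (by
      rw [he]
      exact Nat.find_min' hex ⟨G', hG', hL', rfl⟩)
    have : c ∈ LinearMap.ker (S.L G').mulVecLin := heq ▸ hc
    exact qf_of_ker this
  have hρ : ∀ c, S.L G *ᵥ c = 0 → S.ρ *ᵥ c = 0 := by
    intro c hc
    have e : ∀ c, qf (S.L (((1 / 2 : ℝ) : ℂ) • G)) c =
        qf (S.L G) c / 2 + nsq (S.ρ *ᵥ c) / 2 := by
      intro c
      simp only [S.qf_L, qf_rsmul, ← Finset.mul_sum]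
      ring
    have := hmin (((1 / 2 : ℝ) : ℂ) • G) ⟨herm_rsmul hG.1 _, fun y hy => by
      rw [qf_rsmul]; have := hG.2 y hy; positivity⟩ (fun c => by
      rw [e]; have := nsq_nonneg (S.ρ *ᵥ c); linarith) c hc
    rw [e, qf_of_ker hc] at this
    exact nsq_eq_zero (by linarith)
  have hΞ : ∀ c, S.L G *ᵥ c = 0 → ∀ i, ∃ c', S.L G *ᵥ c' = 0 ∧ S.Y *ᵥ c' = S.Ξ i *ᵥ c := by
    intro c hc i
    by_contra hne
    obtain ⟨a, ha, ha0⟩ := exists_functional
      ((LinearMap.ker (S.L G).mulVecLin).map S.Y.mulVecLin) (y0 := S.Ξ i *ᵥ c) (by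
        rintro ⟨c, hc, hc'⟩
        exact hne ⟨c, hc, hc'⟩)
    obtain ⟨ε, hε, h⟩ := S.perturb hL a fun c hc => ha _ ⟨c, hc, rfl⟩
    have h1 := hmin (G + (ε : ℂ) • vecMulVec (star a) a)
      ⟨hG.1.add (herm_rsmul (herm_rank_one a) ε), fun y hy => by
        rw [qf_add, qf_rsmul, qf_rank_one]
        have := hG.2 y hy
        positivity⟩ (fun c => le_trans (le_add_of_nonneg_right
          (mul_nonneg hε.le (Finset.sum_nonneg fun _ _ => sq_nonneg _))) (h c)) c hc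
    have h2 := h c
    rw [h1, qf_of_ker hc] at h2
    have h3 : ‖a ⬝ᵥ (S.Ξ i *ᵥ c)‖ ^ 2 ≤ ∑ i, ‖a ⬝ᵥ (S.Ξ i *ᵥ c)‖ ^ 2 :=
      Finset.single_le_sum (f := fun i => ‖a ⬝ᵥ (S.Ξ i *ᵥ c)‖ ^ 2) (fun _ _ => sq_nonneg _)
        (Finset.mem_univ i)
    have h4 : 0 < ‖a ⬝ᵥ (S.Ξ i *ᵥ c)‖ ^ 2 := by positivity
    nlinarith
  have hrec : ∀ c, S.L G *ᵥ c = 0 →
      G *ᵥ (S.Y *ᵥ c) = ∑ i, (S.Ξ i * Z)ᴴ *ᵥ (G *ᵥ (S.Ξ i *ᵥ c)) := by
    intro c hc
    have h1 : Zᴴ *ᵥ (S.L G *ᵥ c) = 0 := by rw [hc, mulVec_zero]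
    have h2 : Zᴴ *ᵥ (S.Yᴴ *ᵥ (G *ᵥ (S.Y *ᵥ c))) = G *ᵥ (S.Y *ᵥ c) := by
      rw [mulVec_mulVec, ← conjTranspose_mul, hZ, conjTranspose_one, one_mulVec]
    simp only [Sys.L, sub_mulVec, add_mulVec, sum_mulVec, ← mulVec_mulVec, hρ c hc, mulVec_zero,
      zero_add, mulVec_sub, mulVec_sum, h2] at h1
    rw [← sub_eq_zero.1 h1]
    simp only [conjTranspose_mul, ← mulVec_mulVec]
  have hind : ∀ e : ℕ, ∀ b, ν b = e → ∀ c, S.L G *ᵥ c = 0 → (G *ᵥ (S.Y *ᵥ c)) b = 0 := by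
    intro e
    induction e using Nat.strong_induction_on with
    | _ e ih =>
      intro b hb c hc
      rw [hrec c hc, Finset.sum_apply]
      refine Finset.sum_eq_zero fun i _ => ?_
      obtain ⟨c', hc', h'⟩ := hΞ c hc i
      rw [← h', mulVec, dotProduct]
      refine Finset.sum_eq_zero fun b' _ => ?_
      rcases le_or_gt (ν b) (ν b') with h | h
      · simp [hν i b' b h]
      · rw [ih (ν b') (hb ▸ h) b' rfl c' hc', mul_zero]
  have hY : ∀ c, S.L G *ᵥ c = 0 → S.Y *ᵥ c = 0 := fun c hc =>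
    hG.eq_zero (qf_of_ker (funext fun b => hind _ b rfl c hc)).le
  refine ⟨G, hG, hL.1, fun c hc => lt_of_le_of_ne (hL.2 c) fun h => hc ?_⟩
  have hk := hL.ker h.symm
  refine hinj c (hρ c hk) fun i => ?_
  obtain ⟨c', hc', h'⟩ := hΞ c hk i
  rw [← h', hY c' hc']

end Pool.Agent.MP_eddcad_an.H24

end MrgPart1

-- ======== part 2: formerly Pool.Agent.MP_eddcad_an.h24.Cont
section MrgPart2

set_option autoImplicit false
set_option linter.unusedSectionVars false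

namespace Pool.Agent.MP_eddcad_an.H24

open Matrix Filter Topology Set

variable {m k r n : Type} [Fintype m] [Fintype k] [Fintype r] [Fintype n]

/-- continuous family of systems -/
def SysCont {X : Type} [TopologicalSpace X] (S : X → Sys m k r n) : Prop :=
  Continuous (fun x => (S x).ρ) ∧ (∀ i, Continuous fun x => (S x).Ξ i) ∧
    Continuous fun x => (S x).Y

theorem SysCont.continuous_L {X : Type} [TopologicalSpace X] {S : X → Sys m k r n}
    (hS : SysCont S) : Continuous fun x : X × Matrix k k ℂ => (S x.1).L x.2 := by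
  obtain ⟨h1, h2, h3⟩ := hS
  have h1' : Continuous fun x : X × Matrix k k ℂ => (S x.1).ρ := h1.comp continuous_fst
  have h2' : ∀ i, Continuous fun x : X × Matrix k k ℂ => (S x.1).Ξ i :=
    fun i => (h2 i).comp continuous_fst
  have h3' : Continuous fun x : X × Matrix k k ℂ => (S x.1).Y := h3.comp continuous_fst
  unfold Sys.L
  refine (((h1'.matrix_conjTranspose).matrix_mul h1').add (continuous_finsetSum _ fun i _ =>
    (((h2' i).matrix_conjTranspose).matrix_mul continuous_snd).matrix_mul (h2' i))).sub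
    (((h3'.matrix_conjTranspose).matrix_mul continuous_snd).matrix_mul h3')

theorem SysCont.tendsto_L {X : Type} [TopologicalSpace X] {S : X → Sys m k r n}
    (hS : SysCont S) {ι : Type} {l : Filter ι} {u : ι → X} {x0 : X} {G : ι → Matrix k k ℂ}
    {G0 : Matrix k k ℂ} (hu : Tendsto u l (𝓝 x0)) (hG : Tendsto G l (𝓝 G0)) :
    Tendsto (fun x => (S (u x)).L (G x)) l (𝓝 ((S x0).L G0)) := by
  have h2 := (hS.continuous_L.tendsto (x0, G0)).comp (hu.prodMk_nhds hG)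
  simpa only [Function.comp_def] using h2

theorem tendsto_conj {ι : Type} {l : Filter ι} {p : Type} [Fintype p] {M : ι → Matrix m m ℂ}
    {M0 : Matrix m m ℂ} (h : Tendsto M l (𝓝 M0)) (Z : Matrix m p ℂ) :
    Tendsto (fun x => Zᴴ * M x * Z) l (𝓝 (Zᴴ * M0 * Z)) := by
  have h1 : Continuous fun N : Matrix m m ℂ => Zᴴ * N * Z :=
    (continuous_const.matrix_mul continuous_id).matrix_mul continuous_const
  have h2 := (h1.tendsto M0).comp h
  simpa only [Function.comp_def] using h2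

theorem tight_continuousOn [DecidableEq k] {X : Type} [TopologicalSpace X] {S : X → Sys m k r n}
    (hS : SysCont S) {T : Set X} (h1 : ∀ t ∈ T, (S t).Strict) (h2 : ∀ t ∈ T, (S t).Nil)
    {G : X → Matrix k k ℂ} (hG : ∀ t ∈ T, (S t).Tight (G t)) : ContinuousOn G T := by
  intro t0 ht0
  obtain ⟨G0, hG0, hL0⟩ := h1 t0 ht0
  obtain ⟨H, Z, hH, hZ⟩ := (S t0).upper_of_nil (h2 t0 ht0)
  have hid : Tendsto (fun t : X => t) (𝓝[T] t0) (𝓝 t0) := tendsto_id.mono_left nhdsWithin_le_nhds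
  have hev : ∀ᶠ t in 𝓝[T] t0, G t ∈ {G : Matrix k k ℂ | PSD G ∧ ∀ y, qf G y ≤ qf H y} := by
    have a1 := eventually_pos (tendsto_conj (hS.tendsto_L hid
      (tendsto_const_nhds (x := H))) Z).neg hZ
    filter_upwards [a1, self_mem_nhdsWithin] with t a1 ht
    refine ⟨(hG t ht).1.psd, (S t).compare hH fun y hy => ?_⟩
    obtain ⟨c, hc, hc'⟩ := (S t).upper_of_neg hH a1 y hy
    have := (hG t ht).2.1.2 c
    exact ⟨c, hc, this, hc'.le, hc'.trans_le this⟩
  refine (isCompact_below H).tendsto_nhds_of_unique_mapClusterPt hev fun G' hG' hcl => ?_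
  obtain ⟨U, hU, hUG⟩ := mapClusterPt_iff_ultrafilter.1 hcl
  have hidU : Tendsto (fun t : X => t) U (𝓝 t0) := hid.mono_left hU
  have hT : ∀ᶠ t in U, t ∈ T := hU self_mem_nhdsWithin
  refine herm_ext hG'.1.1 (hG t0 ht0).1.1 fun y => le_antisymm ?_ ?_
  · refine (S t0).le_tight (h1 t0 ht0) (hG t0 ht0) (fun c => ?_) y
    refine ge_of_tendsto (tendsto_qf (hS.tendsto_L hidU hUG) (tendsto_const_nhds (x := c))) ?_
    filter_upwards [hT] with t ht using (hG t ht).2.1.2 c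
  · refine le_of_comb (b := qf G0 y) fun s hs hs' => ?_
    have a1 := eventually_pos (hS.tendsto_L hidU
      (tendsto_const_nhds (x := ((1 - s : ℝ) : ℂ) • G t0 + (s : ℂ) • G0))) (fun c hc => by
        rw [Sys.qf_L_comb]
        have b1 := hL0.2 c hc
        have b2 := (hG t0 ht0).2.1.2 c
        have b3 : 0 < 1 - s := by linarith
        exact add_pos_of_nonneg_of_pos (mul_nonneg b3.le b2) (mul_pos hs b1))
    refine ge_of_tendsto (tendsto_qf hUG (tendsto_const_nhds (x := y))) ?_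
    filter_upwards [hT, a1] with t ht a1
    have := (S t).strict_le_tight (hG t ht) a1 y
    rwa [qf_add, qf_rsmul, qf_rsmul] at this

/-- the state equation at the point `z` -/
def Sys.State (S : Sys m k r n) (e : r → ℂ) (z : n → ℂ) (c : m → ℂ) : Prop :=
  S.ρ *ᵥ c = e ∧ ∀ i, S.Ξ i *ᵥ c = z i • (S.Y *ᵥ c)

theorem Sys.State.qf_L {S : Sys m k r n} {e : r → ℂ} {z : n → ℂ} {c : m → ℂ}
    (h : S.State e z c) (G : Matrix k k ℂ) :
    qf (S.L G) c = nsq e - (1 - nsq z) * qf G (S.Y *ᵥ c) := by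
  rw [S.qf_L, h.1]
  simp only [h.2, qf_smul, ← Finset.sum_mul]
  rw [show ∑ i, ‖z i‖ ^ 2 = nsq z by simp only [nsq]]
  ring

theorem Sys.State.unique {S : Sys m k r n} (hS : S.Strict) {e : r → ℂ} {z : n → ℂ}
    (hz : nsq z ≤ 1) {c c' : m → ℂ} (h : S.State e z c) (h' : S.State e z c') : c = c' := by
  obtain ⟨G, hG, hL⟩ := hS
  have h0 : S.State 0 z (c - c') :=
    ⟨by rw [mulVec_sub, h.1, h'.1, sub_self], fun i => by
      rw [mulVec_sub, h.2, h'.2, mulVec_sub, smul_sub]⟩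
  refine sub_eq_zero.1 (hL.eq_zero ?_)
  rw [h0.qf_L, nsq_zero, zero_sub]
  exact neg_nonpos.2 (mul_nonneg (by linarith) (hG.psd.2 _))

theorem isCompact_nsq_le (R : ℝ) : IsCompact {y : k → ℂ | nsq y ≤ R} := by
  refine IsCompact.of_isClosed_subset (isCompact_univ_pi fun _ =>
    isCompact_closedBall (0 : ℂ) (R + 1)) (isClosed_le (by fun_prop) continuous_const) ?_
  intro y hy i _
  have h1 : ‖y i‖ ^ 2 ≤ nsq y := by
    unfold nsq
    exact Finset.single_le_sum (f := fun i => ‖y i‖ ^ 2) (fun _ _ => sq_nonneg _)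
      (Finset.mem_univ i)
  have h2 : nsq y ≤ R := hy
  rw [Metric.mem_closedBall, dist_zero_right]
  nlinarith [norm_nonneg (y i), sq_nonneg (‖y i‖ - 1)]

theorem state_isClosed {X : Type} [TopologicalSpace X] {S : X → Sys m k r n}
    (hS : SysCont S) (e : r → ℂ) :
    IsClosed {x : (X × (n → ℂ)) × (m → ℂ) | (S x.1.1).State e x.1.2 x.2} := by
  obtain ⟨h1, h2, h3⟩ := hS
  have hf : Continuous fun x : (X × (n → ℂ)) × (m → ℂ) => x.1.1 := by fun_prop
  simp only [Sys.State, ofPred_and, ofPred_forall]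
  refine (isClosed_eq ((h1.comp hf).matrix_mulVec continuous_snd) continuous_const).inter
    (isClosed_iInter fun i => isClosed_eq (((h2 i).comp hf).matrix_mulVec continuous_snd) ?_)
  have hz : Continuous fun x : (X × (n → ℂ)) × (m → ℂ) => x.1.2 i := by fun_prop
  exact hz.smul ((h3.comp hf).matrix_mulVec continuous_snd)

theorem Sys.state_closed {S : Sys m k r n} (hS : S.Strict) {e : r → ℂ}
    (h : ∀ z, nsq z < 1 → ∃ c, S.State e z c) (z : n → ℂ) (hz : nsq z ≤ 1) :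
    ∃ c, S.State e z c := by
  obtain ⟨G, hG, hL⟩ := hS
  obtain ⟨C, hC, hco⟩ := hL.coercive
  have hcl : IsClosed {x : (n → ℂ) × (m → ℂ) | S.State e x.1 x.2} :=
    (state_isClosed (X := Unit) (S := fun _ => S)
      ⟨continuous_const, fun _ => continuous_const, continuous_const⟩ e).preimage
      (f := fun x : (n → ℂ) × (m → ℂ) => (((), x.1), x.2)) (by fun_prop)
  have hK : IsCompact (Prod.fst '' (({z : n → ℂ | nsq z ≤ 1} ×ˢ
      {c : m → ℂ | nsq c ≤ C * nsq e}) ∩ {x : (n → ℂ) × (m → ℂ) | S.State e x.1 x.2})) :=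
    (((isCompact_nsq_le 1).prod (isCompact_nsq_le _)).inter_right hcl).image continuous_fst
  have ht : Tendsto (fun s : ℝ => (s : ℂ) • z) (𝓝[<] 1) (𝓝 z) := by
    have : Continuous fun s : ℝ => (s : ℂ) • z := by fun_prop
    have h2 := (this.tendsto 1).mono_left (nhdsWithin_le_nhds (s := Iio 1))
    simpa using h2
  have := hK.isClosed.mem_of_tendsto ht (by
    filter_upwards [Ioo_mem_nhdsLT (zero_lt_one' ℝ)] with s hs
    have h1 : nsq ((s : ℂ) • z) < 1 := by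
      rw [nsq_smul, Complex.norm_real, Real.norm_eq_abs, sq_abs]
      nlinarith [nsq_nonneg z, hs.1, hs.2, mul_pos hs.1 (sub_pos.2 hs.2)]
    obtain ⟨c, hc⟩ := h _ h1
    refine ⟨(_, c), ⟨⟨h1.le, (hco c).trans ?_⟩, hc⟩, rfl⟩
    rw [hc.qf_L]
    exact mul_le_mul_of_nonneg_left
      (sub_le_self _ (mul_nonneg (by linarith) (hG.psd.2 _))) hC.le)
  obtain ⟨⟨z', c⟩, ⟨-, hc⟩, rfl⟩ := this
  exact ⟨c, hc⟩

theorem state_continuousOn {X : Type} [TopologicalSpace X] {S : X → Sys m k r n}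
    (hS : SysCont S) {T : Set X} (h1 : ∀ t ∈ T, (S t).Strict) {e : r → ℂ}
    {c : X × (n → ℂ) → m → ℂ}
    (hc : ∀ x ∈ T ×ˢ {z : n → ℂ | nsq z ≤ 1}, (S x.1).State e x.2 (c x)) :
    ContinuousOn c (T ×ˢ {z : n → ℂ | nsq z ≤ 1}) := by
  classical
  intro x0 hx0
  obtain ⟨G, hG, hL⟩ := h1 x0.1 hx0.1
  obtain ⟨C, hC, hco⟩ := hL.coercive
  have hid : Tendsto (fun x : X × (n → ℂ) => x) (𝓝[T ×ˢ {z : n → ℂ | nsq z ≤ 1}] x0) (𝓝 x0) :=
    tendsto_id.mono_left nhdsWithin_le_nhds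
  have hev : ∀ᶠ x in 𝓝[T ×ˢ {z : n → ℂ | nsq z ≤ 1}] x0,
      c x ∈ {c : m → ℂ | nsq c ≤ 2 * C * nsq e} := by
    have a0 := hS.tendsto_L ((continuous_fst.tendsto x0).comp hid) (tendsto_const_nhds (x := G))
    have a1 := eventually_pos ((a0.const_smul ((2 * C : ℝ) : ℂ)).sub
      (tendsto_const_nhds (x := (1 : Matrix m m ℂ)))) (fun y hy => by
        rw [qf_sub, qf_rsmul, qf_one]
        have := hco y
        have := nsq_pos hy
        linarith)
    filter_upwards [a1, self_mem_nhdsWithin] with x a1 hx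
    rcases eq_or_ne (c x) 0 with h0 | h0
    · have := nsq_nonneg e
      simp only [h0, nsq_zero]
      positivity
    have a2 := a1 _ h0
    rw [qf_sub, qf_rsmul, qf_one, Function.comp_apply, (hc x hx).qf_L] at a2
    have a3 : 0 ≤ (1 - nsq x.2) * qf G ((S x.1).Y *ᵥ c x) :=
      mul_nonneg (sub_nonneg.2 hx.2) (hG.psd.2 _)
    nlinarith
  refine (isCompact_nsq_le _).tendsto_nhds_of_unique_mapClusterPt hev fun c' _ hcl => ?_
  obtain ⟨U, hU, hUc⟩ := mapClusterPt_iff_ultrafilter.1 hcl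
  have hmem := (state_isClosed hS e).mem_of_tendsto ((hid.mono_left hU).prodMk_nhds hUc) (by
    filter_upwards [hU self_mem_nhdsWithin] with x hx using hc x hx)
  exact Sys.State.unique (h1 x0.1 hx0.1) hx0.2 hmem (hc x0 hx0)

end Pool.Agent.MP_eddcad_an.H24

end MrgPart2

-- ======== part 3: formerly Pool.Agent.MP_eddcad_an.h24.Factor
section MrgPart3

set_option autoImplicit false
set_option linter.unusedSectionVars false

namespace Pool.Agent.MP_eddcad_an.H24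

open Matrix Filter Topology Set Module

section sqrt

open scoped ComplexOrder MatrixOrder Matrix.Norms.L2Operator

theorem exists_cont_sqrt {k : Type} [Fintype k] [DecidableEq k] :
    ∃ S : Matrix k k ℂ → Matrix k k ℂ, ContinuousOn S {M | PSD M} ∧
      ∀ M : Matrix k k ℂ, PSD M → (S M)ᴴ * S M = M := by
  refine ⟨CFC.sqrt, ?_, ?_⟩
  · have := CFC.continuousOn_sqrt (A := Matrix k k ℂ)
    simpa only [Matrix.nonneg_iff_posSemidef, psd_iff] using this
  · intro M hM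
    have h1 := (CFC.sqrt_nonneg M).posSemidef.1
    rw [h1.eq]
    exact CFC.sqrt_mul_sqrt_self M (psd_iff.1 hM).nonneg

end sqrt

variable {m : Type} [Fintype m] {N : ℕ}

theorem exists_compl {L : Matrix m m ℂ} (hL : PSD L)
    (hr : finrank ℂ (LinearMap.ker L.mulVecLin) + N = Fintype.card m) :
    ∃ V : Matrix m (Fin N) ℂ, PD (Vᴴ * L * V) := by
  obtain ⟨W, hW⟩ := (LinearMap.ker L.mulVecLin).exists_isCompl
  have h1 := Submodule.finrank_add_eq_of_isCompl hW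
  rw [finrank_fintype_fun_eq_card] at h1
  let b := finBasisOfFinrankEq ℂ W (show finrank ℂ W = N by omega)
  let V : Matrix m (Fin N) ℂ := Matrix.of fun i j => (b j : m → ℂ) i
  have hV : ∀ a, V *ᵥ a = ((∑ j, a j • b j : W) : m → ℂ) := by
    intro a
    funext i
    simp [V, mulVec, dotProduct, mul_comm]
  refine ⟨V, (hL.conj V).1, fun a ha => lt_of_le_of_ne ((hL.conj V).2 a) fun h => ha ?_⟩
  rw [qf_conj] at h
  have h2 : V *ᵥ a ∈ LinearMap.ker L.mulVecLin ⊓ W :=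
    ⟨hL.ker h.symm, by rw [hV]; exact Submodule.coe_mem _⟩
  rw [hW.inf_eq_bot, Submodule.mem_bot, hV, Submodule.coe_eq_zero] at h2
  funext j
  exact Fintype.linearIndependent_iff.1 b.linearIndependent a h2 j

theorem span_compl {L : Matrix m m ℂ}
    (hr : finrank ℂ (LinearMap.ker L.mulVecLin) + N = Fintype.card m)
    {V : Matrix m (Fin N) ℂ} (hV : ∀ a, a ≠ 0 → 0 < qf (Vᴴ * L * V) a) (c : m → ℂ) :
    ∃ a c', L *ᵥ c' = 0 ∧ c = V *ᵥ a + c' := by
  have h0 : ∀ a, L *ᵥ (V *ᵥ a) = 0 → a = 0 := by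
    intro a ha
    by_contra h
    have := hV a h
    rw [qf_conj, qf_of_ker ha] at this
    exact lt_irrefl _ this
  have h1 : finrank ℂ (LinearMap.range V.mulVecLin) = N := by
    rw [LinearMap.finrank_range_of_inj, finrank_fintype_fun_eq_card, Fintype.card_fin]
    rw [← LinearMap.ker_eq_bot, LinearMap.ker_eq_bot']
    intro a ha
    exact h0 a (by rw [show V *ᵥ a = 0 from ha, mulVec_zero])
  have h2 : LinearMap.range V.mulVecLin ⊓ LinearMap.ker L.mulVecLin = ⊥ := by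
    rw [Submodule.eq_bot_iff]
    rintro _ ⟨⟨a, rfl⟩, ha⟩
    rw [h0 a ha, map_zero]
  have h3 := Submodule.finrank_sup_add_finrank_inf_eq (LinearMap.range V.mulVecLin)
    (LinearMap.ker L.mulVecLin)
  rw [h2, finrank_bot, h1] at h3
  have h4 : LinearMap.range V.mulVecLin ⊔ LinearMap.ker L.mulVecLin = ⊤ :=
    Submodule.eq_top_of_finrank_eq (by rw [finrank_fintype_fun_eq_card]; omega)
  have h5 : c ∈ LinearMap.range V.mulVecLin ⊔ LinearMap.ker L.mulVecLin := h4 ▸ Submodule.mem_top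
  obtain ⟨_, ⟨a, rfl⟩, c', hc', h⟩ := Submodule.mem_sup.1 h5
  exact ⟨a, c', hc', h.symm⟩

theorem mulVec_ext {p q : Type} [Fintype q] {A B : Matrix p q ℂ} (h : ∀ c, A *ᵥ c = B *ᵥ c) :
    A = B := by
  classical
  ext i j
  have := congrFun (h (Pi.single j 1)) i
  simpa using this

theorem unitary_match {L : Matrix m m ℂ} (hL : PSD L)
    (hr : finrank ℂ (LinearMap.ker L.mulVecLin) + N = Fintype.card m)
    {F F' : Matrix (Fin N) m ℂ} (hF : Fᴴ * F = L) (hF' : F'ᴴ * F' = L) :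
    ∃ U : Matrix (Fin N) (Fin N) ℂ, Uᴴ * U = 1 ∧ U * F = F' := by
  obtain ⟨V, hV⟩ := exists_compl hL hr
  have e : ∀ {F : Matrix (Fin N) m ℂ}, Fᴴ * F = L → (F * V)ᴴ * (F * V) = Vᴴ * L * V := by
    intro F hF
    rw [← hF, conjTranspose_mul]
    simp only [Matrix.mul_assoc]
  have hu : IsUnit (F * V).det := by
    have := hV.isUnit_det
    rw [← e hF, det_mul] at this
    exact isUnit_of_mul_isUnit_right this
  have hk : ∀ {F : Matrix (Fin N) m ℂ}, Fᴴ * F = L → ∀ c, L *ᵥ c = 0 → F *ᵥ c = 0 := by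
    intro F hF c hc
    refine nsq_eq_zero ?_
    rw [← qf_gram, hF, qf_of_ker hc]
  refine ⟨F' * V * (F * V)⁻¹, ?_, mulVec_ext fun c => ?_⟩
  · rw [conjTranspose_mul, Matrix.mul_assoc, ← Matrix.mul_assoc (F' * V)ᴴ, e hF', ← e hF,
      Matrix.mul_assoc, mul_nonsing_inv _ hu, Matrix.mul_one, ← conjTranspose_mul,
      mul_nonsing_inv _ hu, conjTranspose_one]
  · obtain ⟨a, c', hc', rfl⟩ := span_compl hr hV.2 c
    rw [mulVec_add, mulVec_add, ← mulVec_mulVec c', hk hF c' hc', hk hF' c' hc', mulVec_zero,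
      mulVec_mulVec, Matrix.mul_assoc _ F, Matrix.mul_assoc, nonsing_inv_mul _ hu, Matrix.mul_one,
      mulVec_mulVec]

theorem local_factor {L : ℝ → Matrix m m ℂ} {T : Set ℝ} (hL : ContinuousOn L T)
    (hP : ∀ t ∈ T, PSD (L t))
    (hr : ∀ t ∈ T, finrank ℂ (LinearMap.ker (L t).mulVecLin) + N = Fintype.card m)
    {t0 : ℝ} (ht0 : t0 ∈ T) : ∃ δ : ℝ, 0 < δ ∧ ∃ F : ℝ → Matrix (Fin N) m ℂ,
      ContinuousOn F (T ∩ Metric.ball t0 δ) ∧
      ∀ t ∈ T ∩ Metric.ball t0 δ, (F t)ᴴ * F t = L t := by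
  obtain ⟨V, hV⟩ := exists_compl (hP t0 ht0) (hr t0 ht0)
  obtain ⟨S, hS, hS'⟩ := exists_cont_sqrt (k := Fin N)
  have hM : ContinuousOn (fun t => Vᴴ * L t * V) T :=
    ((continuous_const.matrix_mul continuous_id).matrix_mul
      continuous_const).comp_continuousOn hL
  have h1 := eventually_pos (hM t0 ht0) hV.2
  obtain ⟨δ, hδ, h2⟩ := Metric.mem_nhdsWithin_iff.1 h1
  have h3 : ∀ t ∈ T ∩ Metric.ball t0 δ, PD (Vᴴ * L t * V) := fun t ht =>
    ⟨((hP t ht.1).conj V).1, h2 ⟨ht.2, ht.1⟩⟩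
  have hinv : ContinuousOn (fun t => (Vᴴ * L t * V)⁻¹) (T ∩ Metric.ball t0 δ) := by
    intro t ht
    refine ContinuousAt.comp_continuousWithinAt (g := fun M : Matrix (Fin N) (Fin N) ℂ => M⁻¹)
      (continuousAt_matrix_inv _ ?_) ((hM t ht.1).mono inter_subset_left)
    rw [Ring.inverse_eq_inv']
    exact continuousAt_inv₀ (h3 t ht).isUnit_det.ne_zero
  refine ⟨δ, hδ, fun t => S (Vᴴ * L t * V)⁻¹ * (Vᴴ * L t), ?_, fun t ht => ?_⟩
  · have a1 : ContinuousOn (fun t => S (Vᴴ * L t * V)⁻¹) (T ∩ Metric.ball t0 δ) :=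
      hS.comp hinv fun t ht => (h3 t ht).inv.psd
    have a2 : Continuous fun x : Matrix (Fin N) (Fin N) ℂ × Matrix m m ℂ => x.1 * (Vᴴ * x.2) :=
      continuous_fst.matrix_mul (continuous_const.matrix_mul continuous_snd)
    have a3 := a2.comp_continuousOn (a1.prodMk (hL.mono inter_subset_left))
    simpa only [Function.comp_def] using a3
  · rw [conjTranspose_mul, Matrix.mul_assoc, ← Matrix.mul_assoc (S _)ᴴ, hS' _ (h3 t ht).inv.psd,
      conjTranspose_mul, conjTranspose_conjTranspose, (hP t ht.1).1.eq]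
    refine mulVec_ext fun c => ?_
    obtain ⟨a, c', hc', rfl⟩ := span_compl (hr t ht.1) (h3 t ht).2 c
    have e : L t * V * ((Vᴴ * L t * V)⁻¹ * (Vᴴ * L t)) * V = L t * V := by
      rw [Matrix.mul_assoc, Matrix.mul_assoc _ (Vᴴ * L t), nonsing_inv_mul _ (h3 t ht).isUnit_det,
        Matrix.mul_one]
    rw [mulVec_add, mulVec_add, hc', mulVec_mulVec, e, mulVec_mulVec]
    simp only [← mulVec_mulVec, hc', mulVec_zero]

theorem cont_factor {L : ℝ → Matrix m m ℂ} (hL : ContinuousOn L (Icc 0 1))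
    (hP : ∀ t ∈ Icc (0 : ℝ) 1, PSD (L t))
    (hr : ∀ t ∈ Icc (0 : ℝ) 1, finrank ℂ (LinearMap.ker (L t).mulVecLin) + N = Fintype.card m) :
    ∃ F : ℝ → Matrix (Fin N) m ℂ, ContinuousOn F (Icc 0 1) ∧
      ∀ t ∈ Icc (0 : ℝ) 1, (F t)ᴴ * F t = L t := by
  let s : ℝ → Prop := fun b => ∃ F : ℝ → Matrix (Fin N) m ℂ, ContinuousOn F (Icc 0 b) ∧
    ∀ t ∈ Icc (0 : ℝ) b, (F t)ᴴ * F t = L t
  have hmono : ∀ a b, a ≤ b → s b → s a := by
    rintro a b hab ⟨F, h1, h2⟩
    exact ⟨F, h1.mono (Icc_subset_Icc_right hab), fun t ht => h2 t (Icc_subset_Icc_right hab ht)⟩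
  have hglue : ∀ a b, a ∈ Icc (0 : ℝ) 1 → a ≤ b → ∀ F' : ℝ → Matrix (Fin N) m ℂ,
      ContinuousOn F' (Icc a b) → (∀ t ∈ Icc a b, (F' t)ᴴ * F' t = L t) → s a → s b := by
    rintro a b ha hab F' h1' h2' ⟨F, h1, h2⟩
    obtain ⟨U, hU, hUF⟩ := unitary_match (hP a ha) (hr a ha) (h2 a ⟨ha.1, le_rfl⟩)
      (h2' a ⟨le_rfl, hab⟩)
    refine ⟨fun t => U * F (min t a) + F' (max t a) - F' a, ?_, fun t ht => ?_⟩
    · refine ContinuousOn.sub (ContinuousOn.add ?_ ?_) continuousOn_const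
      · refine (continuous_const.matrix_mul continuous_id).comp_continuousOn
          (h1.comp (f := fun t => min t a) (by fun_prop) fun t ht => ?_)
        exact ⟨le_min ht.1 ha.1, min_le_right _ _⟩
      · refine h1'.comp (f := fun t => max t a) (by fun_prop) fun t ht => ?_
        exact ⟨le_max_right _ _, max_le ht.2 hab⟩
    · rcases le_total t a with h | h
      · simp only [min_eq_left h, max_eq_right h, add_sub_cancel_right]
        rw [conjTranspose_mul, Matrix.mul_assoc, ← Matrix.mul_assoc Uᴴ, hU, Matrix.one_mul]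
        exact h2 t ⟨ht.1, h⟩
      · simp only [min_eq_right h, max_eq_left h, hUF, add_sub_cancel_left]
        exact h2' t ⟨h, ht.2⟩
  have h0 : s 0 := by
    obtain ⟨δ, hδ, F, h1, h2⟩ := local_factor hL hP hr (t0 := 0) ⟨le_rfl, zero_le_one⟩
    have : Icc (0 : ℝ) 0 ⊆ Icc 0 1 ∩ Metric.ball 0 δ := by
      intro t ht
      rw [le_antisymm ht.2 ht.1]
      exact ⟨⟨le_rfl, zero_le_one⟩, Metric.mem_ball_self hδ⟩
    exact ⟨F, h1.mono this, fun t ht => h2 t (this ht)⟩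
  have key := isPreconnected_Icc.induction₂' (s := Icc (0 : ℝ) 1) (fun a b => s a → s b)
    (fun x hx => by
      obtain ⟨δ, hδ, F, h1, h2⟩ := local_factor hL hP hr hx
      have hloc : ∀ a b, a ∈ Icc (0 : ℝ) 1 ∩ Metric.ball x δ → b ∈ Icc (0 : ℝ) 1 ∩ Metric.ball x δ →
          s a → s b := by
        intro a b ha hb
        rcases le_total a b with h | h
        · have : Icc a b ⊆ Icc 0 1 ∩ Metric.ball x δ :=
            ((convex_Icc (0 : ℝ) 1).inter (convex_ball x δ)).ordConnected.out ha hb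
          exact hglue a b ha.1 h F (h1.mono this) fun t ht => h2 t (this ht)
        · exact hmono b a h
      filter_upwards [inter_mem_nhdsWithin _ (Metric.ball_mem_nhds x hδ)] with y hy
      exact ⟨hloc x y ⟨hx, Metric.mem_ball_self hδ⟩ hy, hloc y x hy ⟨hx, Metric.mem_ball_self hδ⟩⟩)
    (fun a b c _ _ _ h1 h2 h => h2 (h1 h)) (x := 0) (y := 1) ⟨le_rfl, zero_le_one⟩ ⟨zero_le_one, le_rfl⟩
  exact key h0

end Pool.Agent.MP_eddcad_an.H24

end MrgPart3

-- marker of a merged file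
example : 731051 + 56163 = 731051 + 56163 := rfl
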