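import Mathlib.RingTheory.Polynomial.GaussLemma
import Mathlib.Algebra.MvPolynomial.Funext
import Mathlib.AlgebraicTopology.FundamentalGroupoid.SimplyConnected
import Mathlib.Analysis.Convex.Contractible
import Mathlib.Analysis.Analytic.Polynomial
import Mathlib.RingTheory.PiTensorProduct
import Mathlib.Tactic.Polynomial.Basic
import Pool.Agent.MP_eddcad_an.h24.Factor
import Pool.Agent.MP_eddcad_an.h24.Defs

-- ======== part 0: formerly Pool.Agent.MP_eddcad_an.h24.Abstract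
section MrgPart0

set_option autoImplicit false
set_option linter.unusedSectionVars false

namespace Pool.Agent.MP_eddcad_an.H24

open Matrix Filter Topology Set Module MvPolynomial

theorem mem_unitBall {n : ℕ} {z : Fin n → ℂ} : z ∈ unitBall n ↔ nsq z < 1 := by
  unfold nsq; rfl

theorem closedUnitBall_eq (n : ℕ) : closedUnitBall n = {z : Fin n → ℂ | nsq z ≤ 1} := by
  unfold nsq; rfl

theorem zero_mem_unitBall (n : ℕ) : (0 : Fin n → ℂ) ∈ unitBall n := by
  rw [mem_unitBall, nsq_zero]; exact one_pos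

theorem differentiable_eval {n : ℕ} (Q : MvPolynomial (Fin n) ℂ) :
    Differentiable ℂ fun z : Fin n → ℂ => eval z Q := fun z =>
  (AnalyticOnNhd.eval_mvPolynomial Q z (mem_univ z)).differentiableAt

theorem proper_of_closed {n N d : ℕ} {f : (Fin n → ℂ) → (Fin N → ℂ)}
    (hc : ContinuousOn f (closedUnitBall n)) (h1 : ∀ z, nsq z = 1 → nsq (f z) = 1)
    (h2 : ∀ z, nsq z < 1 → nsq (f z) < 1) (h3 : RatDegLE f d) : IsProperHol f := by
  obtain ⟨P, Q, -, -, h⟩ := h3
  refine ⟨?_, fun z hz => mem_unitBall.2 (h2 z (mem_unitBall.1 hz)), fun K hK hKN => ?_⟩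
  · refine DifferentiableOn.congr (f := fun z j => eval z (P j) / eval z Q) ?_
      fun z hz => funext (h z hz).2
    refine differentiableOn_pi.2 fun j z hz => ?_
    exact ((AnalyticOnNhd.eval_mvPolynomial (P j) z (mem_univ z)).div
      (AnalyticOnNhd.eval_mvPolynomial Q z (mem_univ z))
      (h z hz).1).differentiableAt.differentiableWithinAt
  · have e : unitBall n ∩ f ⁻¹' K = closedUnitBall n ∩ f ⁻¹' K := by
      ext z
      rw [closedUnitBall_eq, mem_inter_iff, mem_inter_iff, mem_unitBall]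
      refine and_congr_left fun hz => ⟨fun h => h.le, fun h => lt_of_le_of_ne h fun h' => ?_⟩
      exact absurd (mem_unitBall.1 (hKN hz)) (by rw [h1 z h']; exact lt_irrefl _)
    rw [e]
    have hcl : IsCompact (closedUnitBall n) := by
      rw [closedUnitBall_eq]; exact isCompact_nsq_le 1
    exact hcl.of_isClosed_subset (hc.preimage_isClosed_of_isClosed hcl.isClosed hK.isClosed)
      inter_subset_left

variable {m k r : Type} [Fintype m] [Fintype k] [Fintype r]

theorem Sys.Tight.finrank_ker {n : Type} [Fintype n] {S : Sys m k r n} (hS : S.Strict)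
    {G : Matrix k k ℂ} (hG : S.Tight G) :
    finrank ℂ (LinearMap.ker (S.L G).mulVecLin) = Fintype.card k := by
  rw [← finrank_fintype_fun_eq_card ℂ]
  refine LinearEquiv.finrank_eq (LinearEquiv.ofBijective
    (S.Y.mulVecLin.domRestrict (LinearMap.ker (S.L G).mulVecLin)) ⟨?_, fun y => ?_⟩)
  · rw [← LinearMap.ker_eq_bot, LinearMap.ker_eq_bot']
    rintro ⟨c, hc⟩ hY
    have hY' : S.Y *ᵥ c = 0 := hY
    have h1 := qf_of_ker (show S.L G *ᵥ c = 0 from hc)
    rw [S.qf_L, hY', qf_zero_vec, sub_zero] at h1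
    have h2 : 0 ≤ ∑ i, qf G (S.Ξ i *ᵥ c) := Finset.sum_nonneg fun i _ => hG.1.psd.2 _
    have h3 := nsq_nonneg (S.ρ *ᵥ c)
    have h5 : ∑ i, qf G (S.Ξ i *ᵥ c) = 0 := by linarith
    have h4 : ∀ i, S.Ξ i *ᵥ c = 0 := fun i => hG.1.eq_zero
      ((Finset.sum_eq_zero_iff_of_nonneg fun i _ => hG.1.psd.2 _).1 h5 i
        (Finset.mem_univ i)).le
    obtain ⟨G0, -, hL0⟩ := hS
    refine Subtype.ext (hL0.eq_zero ?_)
    simp only [S.qf_L, h4, hY', qf_zero_vec, Finset.sum_const_zero]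
    linarith
  · obtain ⟨c, hc, h⟩ := hG.2.2 y
    exact ⟨⟨c, hc⟩, h⟩

theorem abstract_homotopy [DecidableEq k] {n N d : ℕ} (hcard : Fintype.card m = N + Fintype.card k)
    {S : ℝ → Sys m k r (Fin n)} (hS : SysCont S) {e : r → ℂ} (he : nsq e = 1)
    (h1 : ∀ t ∈ Icc (0 : ℝ) 1, (S t).Strict) (h2 : ∀ t ∈ Icc (0 : ℝ) 1, (S t).Nil)
    {C : ℝ → m → MvPolynomial (Fin n) ℂ} {q : ℝ → MvPolynomial (Fin n) ℂ}
    (hdC : ∀ t a, (C t a).totalDegree ≤ d) (hdq : ∀ t, (q t).totalDegree ≤ d)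
    (hq : ∀ t ∈ Icc (0 : ℝ) 1, ∀ z ∈ unitBall n, eval z (q t) ≠ 0)
    (hst : ∀ t ∈ Icc (0 : ℝ) 1, ∀ z ∈ unitBall n,
      (S t).State e z fun a => eval z (C t a) / eval z (q t))
    (hx : ∀ t ∈ Icc (0 : ℝ) 1, (S t).Y *ᵥ (fun a => eval 0 (C t a) / eval 0 (q t)) ≠ 0)
    {G1 : Matrix k k ℂ} (hG1 : (S 1).Tight G1) {F1 : Matrix (Fin N) m ℂ}
    (hF1 : F1ᴴ * F1 = (S 1).L G1) :
    ∃ (G0 : Matrix k k ℂ) (F0 : Matrix (Fin N) m ℂ), PD G0 ∧ F0ᴴ * F0 = (S 0).L G0 ∧
      StrongHomotopic d (fun z => F1 *ᵥ fun a => eval z (C 1 a) / eval z (q 1))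
        (fun z => F0 *ᵥ fun a => eval z (C 0 a) / eval z (q 0)) := by
  classical
  have i0 : (0 : ℝ) ∈ Icc (0 : ℝ) 1 := ⟨le_rfl, zero_le_one⟩
  have i1 : (1 : ℝ) ∈ Icc (0 : ℝ) 1 := ⟨zero_le_one, le_rfl⟩
  have hG : ∀ t, ∃ G, t ∈ Icc (0 : ℝ) 1 → (S t).Tight G := by
    intro t
    by_cases ht : t ∈ Icc (0 : ℝ) 1
    · obtain ⟨G, hG⟩ := (S t).exists_tight' (h1 t ht) (h2 t ht)
      exact ⟨G, fun _ => hG⟩
    · exact ⟨0, fun h => absurd h ht⟩
  choose G hG using hG
  have hGc : ContinuousOn G (Icc 0 1) := tight_continuousOn hS h1 h2 hG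
  have hLc : ContinuousOn (fun t => (S t).L (G t)) (Icc 0 1) := by
    have := hS.continuous_L.comp_continuousOn (continuousOn_id.prodMk hGc)
    simpa only [Function.comp_def, id] using this
  have hr : ∀ t ∈ Icc (0 : ℝ) 1,
      finrank ℂ (LinearMap.ker ((S t).L (G t)).mulVecLin) + N = Fintype.card m := by
    intro t ht
    rw [(hG t ht).finrank_ker (h1 t ht), hcard, add_comm]
  obtain ⟨F', hF'c, hF'⟩ := cont_factor hLc (fun t ht => (hG t ht).2.1) hr
  obtain ⟨U, hU, hUF⟩ := unitary_match (hG 1 i1).2.1 (hr 1 i1) (hF' 1 i1)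
    (hF1.trans (by rw [(S 1).tight_unique (h1 1 i1) hG1 (hG 1 i1)]))
  let F : ℝ → Matrix (Fin N) m ℂ := fun t => U * F' t
  have hFc : ContinuousOn F (Icc 0 1) :=
    (continuous_const.matrix_mul continuous_id).comp_continuousOn hF'c
  have hF : ∀ t ∈ Icc (0 : ℝ) 1, (F t)ᴴ * F t = (S t).L (G t) := by
    intro t ht
    simp only [F]
    rw [conjTranspose_mul, Matrix.mul_assoc, ← Matrix.mul_assoc Uᴴ, hU, Matrix.one_mul, hF' t ht]
  have hc : ∀ x : ℝ × (Fin n → ℂ), ∃ c, x ∈ Icc (0 : ℝ) 1 ×ˢ {z : Fin n → ℂ | nsq z ≤ 1} →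
      (S x.1).State e x.2 c := by
    intro x
    by_cases hx : x ∈ Icc (0 : ℝ) 1 ×ˢ {z : Fin n → ℂ | nsq z ≤ 1}
    · obtain ⟨c, hc⟩ := Sys.state_closed (h1 x.1 hx.1)
        (fun z hz => ⟨_, hst x.1 hx.1 z (mem_unitBall.2 hz)⟩) x.2 hx.2
      exact ⟨c, fun _ => hc⟩
    · exact ⟨0, fun h => absurd h hx⟩
  choose c hc using hc
  have hcc := state_continuousOn hS h1 hc
  have hce : ∀ t ∈ Icc (0 : ℝ) 1, ∀ z ∈ unitBall n,
      c (t, z) = fun a => eval z (C t a) / eval z (q t) := fun t ht z hz =>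
    Sys.State.unique (h1 t ht) (mem_unitBall.1 hz).le
      (hc (t, z) ⟨ht, (mem_unitBall.1 hz).le⟩) (hst t ht z hz)
  have hH : ContinuousOn (fun x : ℝ × (Fin n → ℂ) => F x.1 *ᵥ c x)
      (Icc (0 : ℝ) 1 ×ˢ {z : Fin n → ℂ | nsq z ≤ 1}) := by
    have a2 : Continuous fun x : Matrix (Fin N) m ℂ × (m → ℂ) => x.1 *ᵥ x.2 :=
      continuous_fst.matrix_mulVec continuous_snd
    have a3 := a2.comp_continuousOn
      ((hFc.comp continuousOn_fst fun x hx => hx.1).prodMk hcc)
    simpa only [Function.comp_def] using a3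
  have hn : ∀ t ∈ Icc (0 : ℝ) 1, ∀ z, nsq z ≤ 1 →
      nsq (F t *ᵥ c (t, z)) = 1 - (1 - nsq z) * qf (G t) ((S t).Y *ᵥ c (t, z)) := by
    intro t ht z hz
    rw [← qf_gram, hF t ht, (hc (t, z) ⟨ht, hz⟩).qf_L, he]
  have hY : ∀ t ∈ Icc (0 : ℝ) 1, ∀ z, nsq z ≤ 1 → (S t).Y *ᵥ c (t, z) ≠ 0 := by
    intro t ht z hz h0
    have a1 := hc (t, z) ⟨ht, hz⟩
    have a2 : (S t).State e 0 (c (t, z)) := ⟨a1.1, fun i => by rw [a1.2 i, h0]; simp⟩
    refine hx t ht ?_
    rw [← Sys.State.unique (h1 t ht) (by simp) a2 (hst t ht 0 (zero_mem_unitBall n)), h0]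
  have hrat : ∀ t ∈ Icc (0 : ℝ) 1, RatDegLE (fun z => F t *ᵥ c (t, z)) d := by
    intro t ht
    refine ⟨fun j => ∑ a, MvPolynomial.C (F t j a) * C t a, q t, fun j => ?_, hdq t,
      fun z hz => ⟨hq t ht z hz, fun j => ?_⟩⟩
    · refine totalDegree_finsetSum_le fun a _ => (totalDegree_mul _ _).trans ?_
      rw [totalDegree_C, zero_add]
      exact hdC t a
    · simp only [hce t ht z hz, mulVec, dotProduct, map_sum, map_mul, eval_C, Finset.sum_div,
        mul_div_assoc]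
  have hrev : ∀ t ∈ Icc (0 : ℝ) 1, 1 - t ∈ Icc (0 : ℝ) 1 := fun t ht =>
    ⟨by linarith [ht.2], by linarith [ht.1]⟩
  refine ⟨G 0, F 0, (hG 0 i0).1, hF 0 i0, fun t z => F (1 - t) *ᵥ c (1 - t, z), ?_,
    fun t ht => ⟨?_, hrat _ (hrev t ht)⟩, fun z hz => ⟨?_, ?_⟩⟩
  · rw [closedUnitBall_eq]
    have := hH.comp (f := fun x : ℝ × (Fin n → ℂ) => (1 - x.1, x.2))
      (s := Icc (0 : ℝ) 1 ×ˢ {z : Fin n → ℂ | nsq z ≤ 1}) (by fun_prop)
      fun x hx => ⟨hrev x.1 hx.1, hx.2⟩
    simpa only [Function.comp_def] using this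
  · refine proper_of_closed ?_ (fun z hz => ?_) (fun z hz => ?_) (hrat _ (hrev t ht))
    · rw [closedUnitBall_eq]
      have := hH.comp (f := fun z : Fin n → ℂ => (1 - t, z))
        (s := {z : Fin n → ℂ | nsq z ≤ 1}) (by fun_prop) fun x hx => ⟨hrev t ht, hx⟩
      simpa only [Function.comp_def] using this
    · rw [hn _ (hrev t ht) z hz.le, hz]; ring
    · rw [hn _ (hrev t ht) z hz.le]
      have := mul_pos (sub_pos.2 hz) ((hG _ (hrev t ht)).1.2 _ (hY _ (hrev t ht) z hz.le))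
      linarith
  · simp only [sub_zero, hce 1 i1 z hz, F, hUF]
  · simp only [sub_self, hce 0 i0 z hz]

end Pool.Agent.MP_eddcad_an.H24

end MrgPart0

-- ======== part 1: formerly Pool.Agent.MP_eddcad_an.h24.Scale
section MrgPart1

set_option autoImplicit false
set_option linter.unusedSectionVars false

namespace Pool.Agent.MP_eddcad_an.H24

open Matrix Filter Topology Set Module MvPolynomial

section tri

variable {α β γ : Type}

/-- weight-triangular matrix -/
def Tri (p : α → ℕ) (q : β → ℕ) (M : Matrix α β ℂ) : Prop := ∀ b a, q a < p b → M b a = 0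

/-- vector of weight at most `j` -/
def Wt (p : α → ℕ) (j : ℕ) (v : α → ℂ) : Prop := ∀ a, j < p a → v a = 0

/-- rescaled matrix -/
noncomputable def sc (t : ℝ) (p : α → ℕ) (q : β → ℕ) (M : Matrix α β ℂ) : Matrix α β ℂ :=
  Matrix.of fun b a => (t : ℂ) ^ (q a - p b) * M b a

/-- rescaled vector -/
noncomputable def scv (t : ℝ) (p : α → ℕ) (j : ℕ) (v : α → ℂ) : α → ℂ :=
  fun a => (t : ℂ) ^ (j - p a) * v a

theorem Wt.mono {p : α → ℕ} {j j' : ℕ} {v : α → ℂ} (h : Wt p j v) (hj : j ≤ j') : Wt p j' v :=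
  fun a ha => h a (lt_of_le_of_lt hj ha)

theorem wt_single [DecidableEq α] (p : α → ℕ) (a : α) : Wt p (p a) (Pi.single a 1) := by
  intro a' h
  rw [Pi.single_eq_of_ne]
  rintro rfl
  exact lt_irrefl _ h

theorem Tri.mul [Fintype β] {p : α → ℕ} {q : β → ℕ} {s : γ → ℕ} {M : Matrix α β ℂ}
    {N : Matrix β γ ℂ} (hM : Tri p q M) (hN : Tri q s N) : Tri p s (M * N) := by
  intro b c h
  rw [mul_apply]
  refine Finset.sum_eq_zero fun a _ => ?_
  rcases lt_or_ge (q a) (p b) with h1 | h1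
  · rw [hM b a h1, zero_mul]
  · rw [hN a c (lt_of_lt_of_le h h1), mul_zero]

theorem Tri.sc {p : α → ℕ} {q : β → ℕ} {M : Matrix α β ℂ} (hM : Tri p q M) (t : ℝ) :
    Tri p q (sc t p q M) := fun b a h => by simp [H24.sc, hM b a h]

theorem sc_mul [Fintype β] {p : α → ℕ} {q : β → ℕ} {s : γ → ℕ} {M : Matrix α β ℂ}
    {N : Matrix β γ ℂ} (hM : Tri p q M) (hN : Tri q s N) (t : ℝ) :
    sc t p q M * sc t q s N = sc t p s (M * N) := by
  ext b c
  simp only [sc, mul_apply, of_apply, Finset.mul_sum]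
  refine Finset.sum_congr rfl fun a _ => ?_
  rcases lt_or_ge (q a) (p b) with h1 | h1
  · simp [hM b a h1]
  rcases lt_or_ge (s c) (q a) with h2 | h2
  · simp [hN a c h2]
  rw [show s c - p b = (q a - p b) + (s c - q a) by omega, pow_add]
  ring

theorem sc_mulVec [Fintype β] {p : α → ℕ} {q : β → ℕ} {j : ℕ} {M : Matrix α β ℂ} {v : β → ℂ}
    (hM : Tri p q M) (hv : Wt q j v) (t : ℝ) :
    sc t p q M *ᵥ scv t q j v = scv t p j (M *ᵥ v) := by
  funext b
  simp only [sc, scv, mulVec, dotProduct, of_apply, Finset.mul_sum]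
  refine Finset.sum_congr rfl fun a _ => ?_
  rcases lt_or_ge (q a) (p b) with h1 | h1
  · simp [hM b a h1]
  rcases lt_or_ge j (q a) with h2 | h2
  · simp [hv a h2]
  rw [show j - p b = (q a - p b) + (j - q a) by omega, pow_add]
  ring

theorem sc_one (p : α → ℕ) (q : β → ℕ) (M : Matrix α β ℂ) : sc 1 p q M = M := by
  ext b a
  simp [sc]

theorem sc_sc_zero (s : ℝ) (p : α → ℕ) (q : β → ℕ) (M : Matrix α β ℂ) :
    sc s p q (sc 0 p q M) = sc 0 p q M := by
  ext b a
  rcases Nat.eq_zero_or_pos (q a - p b) with h | h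
  · simp [sc, h]
  · simp [sc, h.ne']

theorem sc_id [DecidableEq α] (t : ℝ) (p : α → ℕ) : sc t p p (1 : Matrix α α ℂ) = 1 := by
  ext b a
  rcases eq_or_ne b a with rfl | h
  · simp [sc]
  · simp [sc, one_apply_ne h]

theorem continuous_sc (p : α → ℕ) (q : β → ℕ) (M : Matrix α β ℂ) :
    Continuous fun t => sc t p q M :=
  continuous_matrix fun b a => by simp only [sc, of_apply]; fun_prop

/-- diagonal matrix of powers -/
noncomputable def dg [DecidableEq α] (t : ℝ) (p : α → ℕ) : Matrix α α ℂ :=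
  diagonal fun a => (t : ℂ) ^ p a

theorem dg_mulVec [Fintype α] [DecidableEq α] (t : ℝ) (p : α → ℕ) (v : α → ℂ) (a : α) :
    (dg t p *ᵥ v) a = (t : ℂ) ^ p a * v a := by
  simp [dg, mulVec_diagonal]

theorem dg_inj [Fintype α] [DecidableEq α] {t : ℝ} (ht : 0 < t) (p : α → ℕ) (v : α → ℂ)
    (h : dg t p *ᵥ v = 0) : v = 0 := by
  funext a
  have := congrFun h a
  rw [dg_mulVec] at this
  exact (mul_eq_zero.1 this).resolve_left (pow_ne_zero _ (by simpa using ht.ne'))

theorem dg_sc [Fintype α] [DecidableEq α] [Fintype β] [DecidableEq β] {p : α → ℕ} {q : β → ℕ}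
    {M : Matrix α β ℂ} (hM : Tri p q M) (t : ℝ) (c : β → ℂ) :
    dg t p *ᵥ (sc t p q M *ᵥ c) = M *ᵥ (dg t q *ᵥ c) := by
  rw [mulVec_mulVec, mulVec_mulVec]
  congr 1
  ext b a
  simp only [dg, sc, diagonal_mul, mul_diagonal, of_apply]
  rcases lt_or_ge (q a) (p b) with h1 | h1
  · simp [hM b a h1]
  · obtain ⟨e, he⟩ := Nat.exists_eq_add_of_le h1
    rw [he, Nat.add_sub_cancel_left, pow_add]
    ring

theorem nsq_dg_le [Fintype α] [DecidableEq α] {t : ℝ} (h0 : 0 ≤ t) (h1 : t ≤ 1) (p : α → ℕ)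
    (v : α → ℂ) : nsq (dg t p *ᵥ v) ≤ nsq v := by
  unfold nsq
  refine Finset.sum_le_sum fun a _ => pow_le_pow_left₀ (norm_nonneg _) ?_ 2
  rw [dg_mulVec, norm_mul, norm_pow, Complex.norm_real, Real.norm_of_nonneg h0]
  exact mul_le_of_le_one_left (norm_nonneg _) (pow_le_one₀ h0 h1)

end tri

variable {m k r n : Type} [Fintype m] [Fintype k] [Fintype r] [Fintype n]
  [DecidableEq m] [DecidableEq k] [DecidableEq r]

/-- weights on a system -/
structure Wts (m k r n : Type) where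
  μ : m → ℕ
  ν : k → ℕ
  ω : r → ℕ
  w : n → ℕ

/-- rescaled system -/
noncomputable def Sys.scale (S : Sys m k r n) (W : Wts m k r n) (t : ℝ) : Sys m k r n :=
  ⟨sc t W.ω W.μ S.ρ, fun i => sc t (fun b => W.ν b + W.w i) W.μ (S.Ξ i), sc t W.ν W.μ S.Y⟩

/-- triangular system -/
def Sys.TriS (S : Sys m k r n) (W : Wts m k r n) : Prop :=
  Tri W.ω W.μ S.ρ ∧ (∀ i, Tri (fun b => W.ν b + W.w i) W.μ (S.Ξ i)) ∧ Tri W.ν W.μ S.Y

/-- graded system -/
def Sys.Graded (S : Sys m k r n) (W : Wts m k r n) : Prop :=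
  (∀ i, 1 ≤ W.w i) ∧
  (∀ j c, Wt W.μ j c ↔ (∀ i, Wt (fun b => W.ν b + W.w i) j (S.Ξ i *ᵥ c)) ∧ Wt W.ω j (S.ρ *ᵥ c)) ∧
  ∀ j y, Wt W.ν j y ↔ ∃ c, Wt W.μ j c ∧ S.Y *ᵥ c = y

theorem Sys.Graded.triS {S : Sys m k r n} {W : Wts m k r n} (h : S.Graded W) : S.TriS W := by
  refine ⟨fun b a hb => ?_, fun i b a hb => ?_, fun b a hb => ?_⟩
  · simpa using ((h.2.1 _ _).1 (wt_single W.μ a)).2 b hb
  · simpa using ((h.2.1 _ _).1 (wt_single W.μ a)).1 i b hb
  · simpa using (h.2.2 _ _).2 ⟨_, wt_single W.μ a, rfl⟩ b hb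

theorem Sys.scale_one (S : Sys m k r n) (W : Wts m k r n) : S.scale W 1 = S := by
  simp only [Sys.scale, sc_one]

theorem Sys.sysCont_scale (S : Sys m k r n) (W : Wts m k r n) : SysCont (S.scale W) :=
  ⟨continuous_sc _ _ _, fun _ => continuous_sc _ _ _, continuous_sc _ _ _⟩

theorem Sys.Graded.nil {S : Sys m k r n} {W : Wts m k r n} (h : S.Graded W) (t : ℝ) :
    (S.scale W t).Nil := by
  have h1 : ∀ b, ∃ c, Wt W.μ (W.ν b) c ∧ S.Y *ᵥ c = Pi.single b 1 := fun b =>
    (h.2.2 _ _).1 (wt_single W.ν b)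
  choose c hc1 hc2 using h1
  let Z : Matrix m k ℂ := Matrix.of fun a b => c b a
  have hZ : Tri W.μ W.ν Z := fun a b hab => hc1 b a hab
  have hYZ : S.Y * Z = 1 := by
    ext b' b
    have := congrFun (hc2 b) b'
    rw [one_apply, mul_apply]
    rw [Pi.single_apply] at this
    exact this
  refine ⟨sc t W.μ W.ν Z, W.ν, ?_, fun i b' b hb => ?_⟩
  · simp only [Sys.scale]
    rw [sc_mul h.triS.2.2 hZ, hYZ, sc_id]
  · simp only [Sys.scale]
    rw [sc_mul (h.triS.2.1 i) hZ]
    have := h.1 i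
    exact ((h.triS.2.1 i).mul hZ).sc t b' b (by simp only; omega)

theorem Sys.TriS.scale_ineq {S : Sys m k r n} {W : Wts m k r n} (h : S.TriS W)
    (hw : ∀ i, 1 ≤ W.w i) {s : ℝ} (h0 : 0 ≤ s) (h1 : s ≤ 1) {G : Matrix k k ℂ} (hG : PSD G)
    (c : m → ℂ) :
    nsq (S.ρ *ᵥ (dg s W.μ *ᵥ c)) ≤ nsq ((S.scale W s).ρ *ᵥ c) ∧
    ∑ i, qf G (S.Ξ i *ᵥ (dg s W.μ *ᵥ c)) ≤
      s ^ 2 * ∑ i, qf ((dg s W.ν)ᴴ * G * dg s W.ν) ((S.scale W s).Ξ i *ᵥ c) ∧
    qf G (S.Y *ᵥ (dg s W.μ *ᵥ c)) = qf ((dg s W.ν)ᴴ * G * dg s W.ν) ((S.scale W s).Y *ᵥ c) := by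
  refine ⟨?_, ?_, ?_⟩
  · rw [← dg_sc h.1]
    exact nsq_dg_le h0 h1 _ _
  · rw [Finset.mul_sum]
    refine Finset.sum_le_sum fun i _ => ?_
    rw [← dg_sc (h.2.1 i), qf_conj]
    have e : ∀ v : k → ℂ, dg s (fun b => W.ν b + W.w i) *ᵥ v =
        ((s : ℂ) ^ W.w i) • (dg s W.ν *ᵥ v) := by
      intro v
      funext b
      simp only [dg_mulVec, Pi.smul_apply, smul_eq_mul, pow_add]
      ring
    rw [e, qf_smul]
    refine mul_le_mul_of_nonneg_right (pow_le_pow_left₀ (norm_nonneg _) ?_ 2) (hG.2 _)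
    rw [norm_pow, Complex.norm_real, Real.norm_of_nonneg h0]
    exact (pow_le_pow_of_le_one h0 h1 (hw i)).trans (pow_one s).le
  · rw [← dg_sc h.2.2, qf_conj]
    rfl

theorem Sys.TriS.strict_scale {S : Sys m k r n} {W : Wts m k r n} (h : S.TriS W)
    (hw : ∀ i, 1 ≤ W.w i) (hS : S.Strict) {t : ℝ} (h0 : 0 < t) (h1 : t ≤ 1) :
    (S.scale W t).Strict := by
  obtain ⟨G, hG, hL⟩ := hS
  have hG' := hG.conj (dg t W.ν) (dg_inj h0 _)
  refine ⟨_, hG', Sys.herm_L _ hG'.1, fun c hc => ?_⟩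
  obtain ⟨a1, a2, a3⟩ := h.scale_ineq hw h0.le h1 hG.psd c
  have a4 := hL.2 (dg t W.μ *ᵥ c) fun h => hc (dg_inj h0 _ _ h)
  have a5 : 0 ≤ ∑ i, qf ((dg t W.ν)ᴴ * G * dg t W.ν) ((S.scale W t).Ξ i *ᵥ c) :=
    Finset.sum_nonneg fun i _ => hG'.psd.2 _
  have a6 : t ^ 2 ≤ 1 := pow_le_one₀ h0.le h1
  rw [Sys.qf_L] at a4 ⊢
  nlinarith

theorem Sys.Graded.inj_zero {S : Sys m k r n} {W : Wts m k r n} (h : S.Graded W)
    (hinj : ∀ c, S.ρ *ᵥ c = 0 → (∀ i, S.Ξ i *ᵥ c = 0) → c = 0) (c : m → ℂ)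
    (h1 : (S.scale W 0).ρ *ᵥ c = 0) (h2 : ∀ i, (S.scale W 0).Ξ i *ᵥ c = 0) : c = 0 := by
  have key : ∀ {α : Type} {p : α → ℕ} {M : Matrix α m ℂ}, Tri p W.μ M →
      sc 0 p W.μ M *ᵥ c = 0 → ∀ j b, j ≤ p b →
      (M *ᵥ fun a => if W.μ a = j then c a else 0) b = 0 := by
    intro α p M hM hc j b hb
    rcases eq_or_lt_of_le hb with hb | hb
    · refine Eq.trans ?_ (show (sc 0 p W.μ M *ᵥ c) b = 0 from congrFun hc b)
      simp only [mulVec, dotProduct, sc, of_apply]
      refine Finset.sum_congr rfl fun a _ => ?_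
      rcases lt_trichotomy (W.μ a) j with h3 | h3 | h3
      · simp [hM b a (hb ▸ h3)]
      · simp [h3, hb]
      · simp [h3.ne', show W.μ a - p b ≠ 0 by omega]
    · simp only [mulVec, dotProduct]
      refine Finset.sum_eq_zero fun a _ => ?_
      split_ifs with h3
      · rw [hM b a (h3 ▸ hb), zero_mul]
      · rw [mul_zero]
  funext a
  have k1 := key h.triS.1 h1 (W.μ a)
  have k2 := fun i => key (h.triS.2.1 i) (h2 i) (W.μ a)
  rcases Nat.eq_zero_or_pos (W.μ a) with h3 | h3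
  · have := congrFun (hinj _ (funext fun b => k1 b (by omega))
      fun i => funext fun b => k2 i b (by omega)) a
    simpa using this
  · have := (h.2.1 (W.μ a - 1) _).2 ⟨fun i b hb => k2 i b (by simp only at hb ⊢; omega),
      fun b hb => k1 b (by omega)⟩ a (by omega)
    simpa using this

theorem Sys.Graded.strict_zero {S : Sys m k r n} {W : Wts m k r n} (h : S.Graded W)
    (hinj : ∀ c, S.ρ *ᵥ c = 0 → (∀ i, S.Ξ i *ᵥ c = 0) → c = 0) : (S.scale W 0).Strict := by
  set S0 := S.scale W 0 with hS0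
  have ht : S0.TriS W := ⟨h.triS.1.sc 0, fun i => (h.triS.2.1 i).sc 0, h.triS.2.2.sc 0⟩
  have hs : ∀ s, S0.scale W s = S0 := by
    intro s
    simp only [hS0, Sys.scale, sc_sc_zero]
  have hq : ∀ c, qf (S0.ρᴴ * S0.ρ + ∑ i, (S0.Ξ i)ᴴ * S0.Ξ i) c =
      nsq (S0.ρ *ᵥ c) + ∑ i, nsq (S0.Ξ i *ᵥ c) := fun c => by
    simp only [qf_add, qf_sum, qf_gram]
  have hM : PD (S0.ρᴴ * S0.ρ + ∑ i, (S0.Ξ i)ᴴ * S0.Ξ i) := by
    refine ⟨(isHermitian_conjTranspose_mul_self _).add ?_, fun c hc => ?_⟩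
    · rw [IsHermitian, conjTranspose_sum]
      exact Finset.sum_congr rfl fun i _ => (isHermitian_conjTranspose_mul_self _).eq
    · rw [hq]
      have a1 := nsq_nonneg (S0.ρ *ᵥ c)
      have a2 : 0 ≤ ∑ i, nsq (S0.Ξ i *ᵥ c) := Finset.sum_nonneg fun i _ => nsq_nonneg _
      by_contra a3
      have a4 : ∑ i, nsq (S0.Ξ i *ᵥ c) = 0 := by linarith
      exact hc (h.inj_zero hinj c (nsq_eq_zero (by linarith)) fun i => nsq_eq_zero
        ((Finset.sum_eq_zero_iff_of_nonneg fun i _ => nsq_nonneg _).1 a4 i (Finset.mem_univ i)))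
  obtain ⟨C, hC, hco⟩ := hM.coercive
  obtain ⟨C', hC', hY⟩ := nsq_mulVec_le S0.Y
  set ε : ℝ := 1 / (2 * (C' * C) + 1) with hε
  have hε0 : 0 < ε := by positivity
  have hε2 : ε * (2 * (C' * C) + 1) = 1 := by rw [hε]; field_simp
  have hCC : 0 < C' * C := mul_pos hC' hC
  have hε1 : ε ≤ 1 := by nlinarith
  have hG : PD ((ε : ℂ) • (1 : Matrix k k ℂ)) := ⟨herm_rsmul isHermitian_one ε, fun y hy => by
    rw [qf_rsmul, qf_one]; exact mul_pos hε0 (nsq_pos hy)⟩
  have hG' := hG.conj (dg ε W.ν) (dg_inj hε0 _)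
  refine ⟨_, hG', Sys.herm_L _ hG'.1, fun c hc => ?_⟩
  obtain ⟨a1, a2, a3⟩ := ht.scale_ineq h.1 hε0.le hε1 hG.psd c
  rw [hs] at a1 a2 a3
  have a4 := hM.2 (dg ε W.μ *ᵥ c) fun h => hc (dg_inj hε0 _ _ h)
  have a5 : 0 ≤ ∑ i, qf ((dg ε W.ν)ᴴ * ((ε : ℂ) • (1 : Matrix k k ℂ)) * dg ε W.ν)
      (S0.Ξ i *ᵥ c) := Finset.sum_nonneg fun i _ => hG'.psd.2 _
  have a6 := hco (dg ε W.μ *ᵥ c)
  have a7 := hY (dg ε W.μ *ᵥ c)
  rw [hq] at a4 a6
  simp only [qf_rsmul, qf_one, ← Finset.mul_sum] at a2 a3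
  rw [Sys.qf_L, ← a3]
  generalize ∑ i, qf ((dg ε W.ν)ᴴ * ((ε : ℂ) • (1 : Matrix k k ℂ)) * dg ε W.ν) (S0.Ξ i *ᵥ c) = B
    at *
  generalize ∑ i, nsq (S0.Ξ i *ᵥ dg ε W.μ *ᵥ c) = b at *
  generalize nsq (S0.ρ *ᵥ dg ε W.μ *ᵥ c) = a at *
  generalize nsq (S0.Y *ᵥ dg ε W.μ *ᵥ c) = y at *
  have b1 : b ≤ B := by
    have : b ≤ ε * B := le_of_mul_le_mul_left (by nlinarith) hε0
    nlinarith
  have b2 : y ≤ C' * C * (a + b) := by nlinarith
  have b3 : ε * y ≤ ε * (C' * C) * (a + b) := by nlinarith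
  have b4 : ε * (C' * C) < 1 := by nlinarith
  nlinarith

end Pool.Agent.MP_eddcad_an.H24

end MrgPart1

-- ======== part 2: formerly Pool.Agent.MP_eddcad_an.h24.Graded
section MrgPart2

set_option autoImplicit false
set_option linter.unusedSectionVars false

namespace Pool.Agent.MP_eddcad_an.H24

open Matrix Filter Topology Set Module MvPolynomial

variable {n : ℕ}

theorem poly_eq_zero_of_ball {P : MvPolynomial (Fin n) ℂ} (h : ∀ z ∈ unitBall n, eval z P = 0) :
    P = 0 := by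
  have ho : IsOpen (unitBall n) := by
    have : unitBall n = {z | nsq z < 1} := Set.ext fun z => mem_unitBall
    rw [this]
    exact isOpen_lt (by fun_prop) continuous_const
  have h1 := (AnalyticOnNhd.eval_mvPolynomial P).eqOn_zero_of_preconnected_of_eventuallyEq_zero
    isPreconnected_univ (mem_univ 0) (by
      filter_upwards [ho.mem_nhds (zero_mem_unitBall n)] with z hz using h z hz)
  exact MvPolynomial.funext fun z => by simpa using h1 (mem_univ z)

/-- weight of a monomial -/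
def wt (w : Fin n → ℕ) (α : Fin n →₀ ℕ) : ℕ := ∑ i, w i * α i

theorem wt_add_single (w : Fin n → ℕ) (α : Fin n →₀ ℕ) (i : Fin n) :
    wt w (α + Finsupp.single i 1) = wt w α + w i := by
  simp [wt, mul_add, Finset.sum_add_distrib, Finsupp.single_apply]

theorem wt_single' (w : Fin n → ℕ) (i : Fin n) (e : ℕ) : wt w (Finsupp.single i e) = w i * e := by
  simp [wt, Finsupp.single_apply]

/-- rescaled polynomial -/
noncomputable def scp (w : Fin n → ℕ) (t : ℝ) (e : ℕ) (P : MvPolynomial (Fin n) ℂ) :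
    MvPolynomial (Fin n) ℂ :=
  ∑ α ∈ P.support, monomial α ((t : ℂ) ^ (wt w α - e) * coeff α P)

theorem coeff_scp (w : Fin n → ℕ) (t : ℝ) (e : ℕ) (P : MvPolynomial (Fin n) ℂ) (α : Fin n →₀ ℕ) :
    coeff α (scp w t e P) = (t : ℂ) ^ (wt w α - e) * coeff α P := by
  rw [scp, coeff_sum]
  simp only [coeff_monomial, Finset.sum_ite_eq', MvPolynomial.mem_support_iff]
  split_ifs with h
  · rfl
  · rw [not_not.1 h, mul_zero]

theorem totalDegree_scp (w : Fin n → ℕ) (t : ℝ) (e : ℕ) (P : MvPolynomial (Fin n) ℂ) :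
    (scp w t e P).totalDegree ≤ P.totalDegree := by
  refine totalDegree_le_of_support_subset fun α hα => ?_
  rw [MvPolynomial.mem_support_iff] at hα ⊢
  intro h
  rw [coeff_scp, h, mul_zero] at hα
  exact hα rfl

theorem scp_one (w : Fin n → ℕ) (e : ℕ) (P : MvPolynomial (Fin n) ℂ) : scp w 1 e P = P := by
  ext α
  simp [coeff_scp]

theorem eval_scp (w : Fin n → ℕ) (t : ℝ) (P : MvPolynomial (Fin n) ℂ) (z : Fin n → ℂ) :
    eval z (scp w t 0 P) = eval (fun i => (t : ℂ) ^ w i * z i) P := by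
  rw [scp, map_sum, eval_eq']
  refine Finset.sum_congr rfl fun α _ => ?_
  rw [eval_monomial, Finsupp.prod_fintype _ _ (by simp), Nat.sub_zero, wt,
    ← Finset.prod_pow_eq_pow_sum]
  simp only [mul_pow, Finset.prod_mul_distrib, ← pow_mul]
  ring

variable {m k r : Type} [Fintype m] [Fintype k] [Fintype r]

/-- vector of coefficients -/
noncomputable def cv (α : Fin n →₀ ℕ) (C : m → MvPolynomial (Fin n) ℂ) : m → ℂ :=
  fun a => coeff α (C a)

/-- vector of values -/
noncomputable def ev (z : Fin n → ℂ) (C : m → MvPolynomial (Fin n) ℂ) : m → ℂ :=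
  fun a => eval z (C a)

/-- matrix times polynomial vector -/
noncomputable def mp (M : Matrix k m ℂ) (C : m → MvPolynomial (Fin n) ℂ) :
    k → MvPolynomial (Fin n) ℂ := fun b => ∑ a, MvPolynomial.C (M b a) * C a

theorem cv_mp (α : Fin n →₀ ℕ) (M : Matrix k m ℂ) (C : m → MvPolynomial (Fin n) ℂ) :
    cv α (mp M C) = M *ᵥ cv α C := by
  funext b
  simp [cv, mp, coeff_sum, mulVec, dotProduct]

theorem ev_mp (z : Fin n → ℂ) (M : Matrix k m ℂ) (C : m → MvPolynomial (Fin n) ℂ) :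
    ev z (mp M C) = M *ᵥ ev z C := by
  funext b
  simp [ev, mp, mulVec, dotProduct]

theorem totalDegree_mp {d : ℕ} (M : Matrix k m ℂ) {C : m → MvPolynomial (Fin n) ℂ}
    (h : ∀ a, (C a).totalDegree ≤ d) (b : k) : (mp M C b).totalDegree ≤ d := by
  refine totalDegree_finsetSum_le fun a _ => (totalDegree_mul _ _).trans ?_
  rw [totalDegree_C, zero_add]
  exact h a

/-- state equation for coefficients -/
def Sys.PState (S : Sys m k r (Fin n)) (e : r → ℂ) (C : m → MvPolynomial (Fin n) ℂ)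
    (q : MvPolynomial (Fin n) ℂ) : Prop :=
  (∀ α, S.ρ *ᵥ cv α C = coeff α q • e) ∧
  (∀ i α, S.Ξ i *ᵥ cv (α + Finsupp.single i 1) C = S.Y *ᵥ cv α C) ∧
  ∀ i α, α i = 0 → S.Ξ i *ᵥ cv α C = 0

/-- state equation for values -/
def Sys.EState (S : Sys m k r (Fin n)) (e : r → ℂ) (C : m → MvPolynomial (Fin n) ℂ)
    (q : MvPolynomial (Fin n) ℂ) : Prop :=
  ∀ z ∈ unitBall n, S.ρ *ᵥ ev z C = eval z q • e ∧ ∀ i, S.Ξ i *ᵥ ev z C = z i • (S.Y *ᵥ ev z C)

theorem Sys.EState.pstate {S : Sys m k r (Fin n)} {e : r → ℂ} {C : m → MvPolynomial (Fin n) ℂ}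
    {q : MvPolynomial (Fin n) ℂ} (h : S.EState e C q) : S.PState e C q := by
  classical
  have h1 : ∀ b, mp S.ρ C b = q * MvPolynomial.C (e b) := fun b =>
    sub_eq_zero.1 (poly_eq_zero_of_ball fun z hz => by
      have := congrFun ((ev_mp z S.ρ C).trans (h z hz).1) b
      simp only [ev, Pi.smul_apply, smul_eq_mul] at this
      simp [this])
  have h2 : ∀ i b, mp (S.Ξ i) C b = X i * mp S.Y C b := fun i b =>
    sub_eq_zero.1 (poly_eq_zero_of_ball fun z hz => by
      have := congrFun ((ev_mp z (S.Ξ i) C).trans ((h z hz).2 i)) b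
      rw [← ev_mp] at this
      simp only [ev, Pi.smul_apply, smul_eq_mul] at this
      simp [this])
  refine ⟨fun α => ?_, fun i α => ?_, fun i α hα => ?_⟩
  · rw [← cv_mp]
    funext b
    simp [cv, h1, mul_comm q]
    ring
  · rw [← cv_mp, ← cv_mp]
    funext b
    simp only [cv, h2]
    rw [add_comm, coeff_X_mul]
  · rw [← cv_mp]
    funext b
    simp only [cv, h2]
    rw [coeff_X_mul', if_neg (by simp [hα])]
    rfl

theorem Sys.PState.estate {S : Sys m k r (Fin n)} {e : r → ℂ} {C : m → MvPolynomial (Fin n) ℂ}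
    {q : MvPolynomial (Fin n) ℂ} (h : S.PState e C q) : S.EState e C q := by
  classical
  have h1 : ∀ b, mp S.ρ C b = q * MvPolynomial.C (e b) := by
    intro b
    ext α
    have := congrFun ((cv_mp α S.ρ C).trans (h.1 α)) b
    simp only [cv, Pi.smul_apply, smul_eq_mul] at this
    rw [this, mul_comm q, coeff_C_mul, mul_comm]
  have h2 : ∀ i b, mp (S.Ξ i) C b = X i * mp S.Y C b := by
    intro i b
    ext α
    rw [coeff_X_mul']
    split_ifs with hα
    · have e : α = (α - Finsupp.single i 1) + Finsupp.single i 1 := by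
        rw [tsub_add_cancel_of_le]
        exact Finsupp.single_le_iff.2 (Nat.one_le_iff_ne_zero.2 (Finsupp.mem_support_iff.1 hα))
      have := congrFun ((cv_mp _ (S.Ξ i) C).trans ((h.2.1 i (α - Finsupp.single i 1)).trans
        (cv_mp _ S.Y C).symm)) b
      rw [← e] at this
      exact this
    · exact congrFun ((cv_mp _ (S.Ξ i) C).trans (h.2.2 i α (by simpa using hα))) b
  intro z _
  refine ⟨?_, fun i => ?_⟩
  · rw [← ev_mp]
    funext b
    simp [ev, h1]
  · rw [← ev_mp, ← ev_mp]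
    funext b
    simp [ev, h2]

theorem Sys.EState.state {S : Sys m k r (Fin n)} {e : r → ℂ} {C : m → MvPolynomial (Fin n) ℂ}
    {q : MvPolynomial (Fin n) ℂ} (h : S.EState e C q) {z : Fin n → ℂ} (hz : z ∈ unitBall n)
    (hq : eval z q ≠ 0) : S.State e z fun a => eval z (C a) / eval z q := by
  have e1 : (fun a => eval z (C a) / eval z q) = (eval z q)⁻¹ • ev z C := by
    funext a
    simp [ev, div_eq_inv_mul]
  rw [e1]
  refine ⟨?_, fun i => ?_⟩
  · rw [mulVec_smul, (h z hz).1, smul_smul, inv_mul_cancel₀ hq, one_smul]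
  · rw [mulVec_smul, (h z hz).2, mulVec_smul, smul_comm]

variable [DecidableEq m] [DecidableEq k] [DecidableEq r]

theorem Sys.Graded.wt_cv {S : Sys m k r (Fin n)} {W : Wts m k r (Fin n)} (h : S.Graded W)
    {e : r → ℂ} (he : Wt W.ω 0 e) {C : m → MvPolynomial (Fin n) ℂ} {q : MvPolynomial (Fin n) ℂ}
    (hP : S.PState e C q) (α : Fin n →₀ ℕ) : Wt W.μ (wt W.w α) (cv α C) := by
  suffices H : ∀ j α, wt W.w α = j → Wt W.μ (wt W.w α) (cv α C) from H _ α rfl
  intro j
  induction j using Nat.strong_induction_on with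
  | _ j ih =>
    intro α hα
    refine (h.2.1 _ _).2 ⟨fun i => ?_, ?_⟩
    · rcases Nat.eq_zero_or_pos (α i) with h0 | h0
      · rw [hP.2.2 i α h0]
        exact fun _ _ => rfl
      · obtain ⟨β, rfl⟩ : ∃ β, α = β + Finsupp.single i 1 :=
          ⟨α - Finsupp.single i 1, (tsub_add_cancel_of_le (Finsupp.single_le_iff.2 h0)).symm⟩
        rw [wt_add_single] at hα
        have := h.1 i
        rw [hP.2.1, wt_add_single]
        intro b hb
        exact (h.2.2 _ _).2 ⟨_, ih (wt W.w β) (by omega) β rfl, rfl⟩ b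
          (by simp only at hb; omega)
    · rw [hP.1]
      intro b hb
      simp [he b (by omega)]

theorem Sys.Graded.pstate_scale {S : Sys m k r (Fin n)} {W : Wts m k r (Fin n)} (h : S.Graded W)
    {e : r → ℂ} (he : Wt W.ω 0 e) {C : m → MvPolynomial (Fin n) ℂ} {q : MvPolynomial (Fin n) ℂ}
    (hP : S.PState e C q) (t : ℝ) :
    (S.scale W t).PState e (fun a => scp W.w t (W.μ a) (C a)) (scp W.w t 0 q) := by
  have e1 : ∀ α, cv α (fun a => scp W.w t (W.μ a) (C a)) = scv t W.μ (wt W.w α) (cv α C) :=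
    fun α => funext fun a => coeff_scp _ _ _ _ _
  refine ⟨fun α => ?_, fun i α => ?_, fun i α hα => ?_⟩
  · rw [e1, Sys.scale, sc_mulVec h.triS.1 (h.wt_cv he hP α), hP.1, coeff_scp]
    funext b
    rcases Nat.eq_zero_or_pos (W.ω b) with h0 | h0
    · simp [scv, h0, mul_assoc]
    · simp [scv, he b h0]
  · rw [e1, e1]
    simp only [Sys.scale]
    rw [sc_mulVec (h.triS.2.1 i) (h.wt_cv he hP _), sc_mulVec h.triS.2.2 (h.wt_cv he hP _),
      hP.2.1, wt_add_single]
    funext b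
    simp only [scv, Nat.add_sub_add_right]
  · rw [e1]
    simp only [Sys.scale]
    rw [sc_mulVec (h.triS.2.1 i) (h.wt_cv he hP _), hP.2.2 i α hα]
    funext b
    simp [scv]

theorem graded_homotopy {N d : ℕ} (hcard : Fintype.card m = N + Fintype.card k)
    {S : Sys m k r (Fin n)} {W : Wts m k r (Fin n)} (h : S.Graded W)
    (hinj : ∀ c, S.ρ *ᵥ c = 0 → (∀ i, S.Ξ i *ᵥ c = 0) → c = 0)
    {e : r → ℂ} (he : nsq e = 1) (heω : Wt W.ω 0 e)
    {C : m → MvPolynomial (Fin n) ℂ} {q : MvPolynomial (Fin n) ℂ}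
    (hdC : ∀ a, (C a).totalDegree ≤ d) (hdq : q.totalDegree ≤ d)
    (hq : ∀ z ∈ unitBall n, eval z q ≠ 0) (hP : S.PState e C q) (hx : S.Y *ᵥ cv 0 C ≠ 0)
    {G1 : Matrix k k ℂ} (hG1 : S.Tight G1) {F1 : Matrix (Fin N) m ℂ} (hF1 : F1ᴴ * F1 = S.L G1)
    {i0 : Fin n} (hw : W.w i0 = 1) (hd : 1 ≤ d)
    (hK : ∃ b, d - 1 ≤ W.ν b ∧ (S.Y *ᵥ cv (Finsupp.single i0 (d - 1)) C) b ≠ 0) :
    ∃ g : Fin N → MvPolynomial (Fin n) ℂ, (∀ j, (g j).totalDegree ≤ d) ∧
      (∃ j, (g j).totalDegree = d) ∧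
      StrongHomotopic d (fun z => F1 *ᵥ fun a => eval z (C a) / eval z q)
        (fun z j => eval z (g j)) := by
  have hS : S.Strict := S.strict_of_feasible hG1.1 hG1.2.1 hinj (S.scale_one W ▸ h.nil 1)
  have e1 : ∀ t α, cv α (fun a => scp W.w t (W.μ a) (C a)) = scv t W.μ (wt W.w α) (cv α C) :=
    fun t α => funext fun a => coeff_scp _ _ _ _ _
  have hq' : ∀ t ∈ Icc (0 : ℝ) 1, ∀ z ∈ unitBall n, eval z (scp W.w t 0 q) ≠ 0 := by
    intro t ht z hz
    rw [eval_scp]
    refine hq _ (mem_unitBall.2 (lt_of_le_of_lt ?_ (mem_unitBall.1 hz)))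
    have := nsq_dg_le ht.1 ht.2 W.w z
    rwa [show dg t W.w *ᵥ z = fun i => (t : ℂ) ^ W.w i * z i from funext (dg_mulVec _ _ _)] at this
  obtain ⟨G0, F0, hG0, hF0, hH⟩ := abstract_homotopy (d := d) hcard (S.sysCont_scale W) he
    (fun t ht => by
      rcases eq_or_lt_of_le ht.1 with h0 | h0
      · rw [← h0]; exact h.strict_zero hinj
      · exact h.triS.strict_scale h.1 hS h0 ht.2)
    (fun t _ => h.nil t) (C := fun t a => scp W.w t (W.μ a) (C a)) (q := fun t => scp W.w t 0 q)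
    (fun t a => (totalDegree_scp _ _ _ _).trans (hdC a))
    (fun t => (totalDegree_scp _ _ _ _).trans hdq) hq'
    (fun t ht z hz => (h.pstate_scale heω hP t).estate.state hz (hq' t ht z hz))
    (fun t ht => by
      have e2 : (fun a => eval 0 (scp W.w t (W.μ a) (C a)) / eval 0 (scp W.w t 0 q)) =
          (eval 0 (scp W.w t 0 q))⁻¹ • cv 0 (fun a => scp W.w t (W.μ a) (C a)) := by
        funext a
        simp [cv, div_eq_inv_mul, constantCoeff_eq]
      rw [e2, mulVec_smul, e1, Sys.scale, sc_mulVec h.triS.2.2 (h.wt_cv heω hP 0)]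
      refine smul_ne_zero (inv_ne_zero (hq' t ht 0 (zero_mem_unitBall n))) fun h0 => hx ?_
      rw [← h0]
      funext b
      simp [scv, wt])
    (G1 := G1) (by rw [S.scale_one]; exact hG1) (F1 := F1) (by rw [S.scale_one]; exact hF1)
  simp only [scp_one] at hH
  have hq0 : ∀ z, eval z (scp W.w 0 0 q) = eval 0 q := by
    intro z
    rw [eval_scp]
    congr 2
    funext i
    have := h.1 i
    simp [show W.w i ≠ 0 by omega]
  have hq00 : eval 0 q ≠ 0 := hq 0 (zero_mem_unitBall n)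
  have hdg := totalDegree_mp ((eval 0 q)⁻¹ • F0)
    (fun a => (totalDegree_scp W.w 0 (W.μ a) (C a)).trans (hdC a))
  refine ⟨mp ((eval 0 q)⁻¹ • F0) fun a => scp W.w 0 (W.μ a) (C a), hdg, ?_, ?_⟩
  · have hP0 := h.pstate_scale heω hP 0
    obtain ⟨d', rfl⟩ : ∃ d', d = d' + 1 := ⟨d - 1, by omega⟩
    obtain ⟨b, hb1, hb2⟩ := hK
    rw [Nat.add_sub_cancel] at hb1 hb2
    set C0 := fun a => scp W.w 0 (W.μ a) (C a) with hC0
    have a1 : (S.scale W 0).Y *ᵥ cv (Finsupp.single i0 d') C0 ≠ 0 := by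
      rw [hC0, e1, Sys.scale, sc_mulVec h.triS.2.2 (h.wt_cv heω hP _), wt_single', hw, one_mul]
      intro h0
      have := congrFun h0 b
      simp only [scv, Nat.sub_eq_zero_of_le hb1, pow_zero, one_mul] at this
      exact hb2 this
    have a2 : (S.scale W 0).Y *ᵥ cv (Finsupp.single i0 (d' + 1)) C0 = 0 := by
      rw [← hP0.2.1 i0, ← Finsupp.single_add]
      have : cv (Finsupp.single i0 (d' + 1 + 1)) C0 = 0 := by
        funext a
        refine coeff_eq_zero_of_totalDegree_lt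
          (lt_of_le_of_lt ((totalDegree_scp W.w 0 (W.μ a) (C a)).trans (hdC a)) ?_)
        rw [Finsupp.support_single _ (by omega), Finset.sum_singleton, Finsupp.single_eq_same]
        omega
      rw [this, mulVec_zero]
    have a3 : F0 *ᵥ cv (Finsupp.single i0 (d' + 1)) C0 ≠ 0 := by
      intro h0
      have b1 := qf_gram F0 (cv (Finsupp.single i0 (d' + 1)) C0)
      rw [h0, nsq_zero, hF0, Sys.qf_L, a2, qf_zero_vec, sub_zero] at b1
      have b2 := nsq_nonneg ((S.scale W 0).ρ *ᵥ cv (Finsupp.single i0 (d' + 1)) C0)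
      have b3 := Finset.single_le_sum (f := fun i =>
        qf G0 ((S.scale W 0).Ξ i *ᵥ cv (Finsupp.single i0 (d' + 1)) C0))
        (fun i _ => hG0.psd.2 _) (Finset.mem_univ i0)
      simp only [Finsupp.single_add, hP0.2.1 i0] at b3
      have b4 := hG0.2 _ a1
      simp only [Finsupp.single_add] at b1 b2
      linarith
    obtain ⟨j, hj⟩ := Function.ne_iff.1 a3
    refine ⟨j, le_antisymm (hdg j) ?_⟩
    have a4 : coeff (Finsupp.single i0 (d' + 1)) (mp ((eval 0 q)⁻¹ • F0) C0 j) ≠ 0 := by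
      have := congrFun (cv_mp (Finsupp.single i0 (d' + 1)) ((eval 0 q)⁻¹ • F0) C0) j
      rw [smul_mulVec] at this
      rw [show coeff _ (mp ((eval 0 q)⁻¹ • F0) C0 j) = _ from this]
      exact mul_ne_zero (inv_ne_zero hq00) hj
    have := le_totalDegree (MvPolynomial.mem_support_iff.2 a4)
    rwa [Finsupp.sum_single_index rfl] at this
  · convert hH using 2 with z
    have := ev_mp z ((eval 0 q)⁻¹ • F0) fun a => scp W.w 0 (W.μ a) (C a)
    refine this.trans ?_
    rw [smul_mulVec, ← mulVec_smul, hq0]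
    congr 1
    funext a
    simp [ev, div_eq_inv_mul]

end Pool.Agent.MP_eddcad_an.H24

end MrgPart2

-- ======== part 3: formerly Pool.Agent.MP_eddcad_an.h24.Filt
section MrgPart3

set_option autoImplicit false
set_option linter.unusedSectionVars false

namespace Pool.Agent.MP_eddcad_an.H24

open Matrix Filter Topology Set Module MvPolynomial

theorem mulVec_eq_sum_col {ι κ : Type} [Fintype κ] (S : Matrix ι κ ℂ) (β : κ → ℂ) :
    S *ᵥ β = ∑ a, β a • S.col a := by
  funext i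
  simp [mulVec, dotProduct, mul_comm]

theorem exists_adapted {ι : Type} [Fintype ι] [DecidableEq ι] (W : ℕ → Submodule ℂ (ι → ℂ))
    (hm : Monotone W) (hex : ∀ v, ∃ j, v ∈ W j) :
    ∃ (R S : Matrix ι ι ℂ) (ν : ι → ℕ), R * S = 1 ∧ S * R = 1 ∧
      ∀ j v, v ∈ W j ↔ Wt ν j (R *ᵥ v) := by
  classical
  have h0 : ∃ e : ℕ, ∃ (S : Matrix ι ι ℂ) (ν : ι → ℕ), S.det ≠ 0 ∧ (∀ a, S.col a ∈ W (ν a)) ∧
      ∑ a, ν a = e := by
    choose ν hν using hex
    exact ⟨_, 1, fun a => ν ((1 : Matrix ι ι ℂ).col a), by simp, fun a => hν _, rfl⟩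
  obtain ⟨S, ν, hS, hν, he⟩ := Nat.find_spec h0
  have hu : IsUnit S.det := isUnit_iff_ne_zero.2 hS
  have hv : ∀ v, v = ∑ a, (S⁻¹ *ᵥ v) a • S.col a := fun v => by
    rw [← mulVec_eq_sum_col, mulVec_mulVec, mul_nonsing_inv _ hu, one_mulVec]
  refine ⟨S⁻¹, S, ν, nonsing_inv_mul _ hu, mul_nonsing_inv _ hu, fun j v => ⟨fun h a ha => ?_,
    fun h => ?_⟩⟩
  · by_contra hne
    have h1 : (S.updateCol a v).det ≠ 0 := by
      have e : v = fun i => ∑ a', (S⁻¹ *ᵥ v) a' • S i a' := by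
        funext i
        conv_lhs => rw [hv v]
        simp
      rw [e, det_updateCol_sum]
      exact smul_ne_zero hne hS
    have h2 := Nat.find_min' h0 ⟨S.updateCol a v, Function.update ν a j, h1, fun a' => by
      rcases eq_or_ne a' a with rfl | h'
      · rw [Function.update_self]
        convert h
        funext i
        simp
      · rw [Function.update_of_ne h']
        convert hν a' using 1
        funext i
        simp [updateCol_ne h'], rfl⟩
    rw [← he] at h2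
    refine absurd h2 (not_le.2 (Finset.sum_lt_sum (fun a' _ => ?_) ⟨a, Finset.mem_univ a, ?_⟩))
    · rcases eq_or_ne a' a with rfl | h'
      · rw [Function.update_self]; exact ha.le
      · rw [Function.update_of_ne h']
    · rw [Function.update_self]; exact ha
  · rw [hv v]
    refine Submodule.sum_mem _ fun a _ => ?_
    rcases lt_or_ge j (ν a) with h1 | h1
    · rw [h a h1, zero_smul]; exact Submodule.zero_mem _
    · exact Submodule.smul_mem _ _ (hm h1 (hν a))

variable {m k r n : Type} [Fintype m] [Fintype k] [Fintype r] [Fintype n]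

/-- reachability filtration -/
noncomputable def Sys.Uf (S : Sys m k (Option r) n) (w : n → ℕ) (d : ℕ) (j : ℕ) :
    Submodule ℂ (k → ℂ) :=
  ((⨅ i, if _h : w i + 1 ≤ j then (Sys.Uf S w d (j - (w i + 1))).comap (S.Ξ i).mulVecLin
      else LinearMap.ker (S.Ξ i).mulVecLin) ⊓
    (if d ≤ j then ⊤ else LinearMap.ker (S.ρ.submatrix some id).mulVecLin)).map S.Y.mulVecLin
termination_by j
decreasing_by omega

/-- filtration of the parameter space -/
noncomputable def Sys.Wf (S : Sys m k (Option r) n) (w : n → ℕ) (d : ℕ) (j : ℕ) :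
    Submodule ℂ (m → ℂ) :=
  (⨅ i, if _h : w i + 1 ≤ j then (Sys.Uf S w d (j - (w i + 1))).comap (S.Ξ i).mulVecLin
      else LinearMap.ker (S.Ξ i).mulVecLin) ⊓
    (if d ≤ j then ⊤ else LinearMap.ker (S.ρ.submatrix some id).mulVecLin)

theorem Sys.mem_Uf (S : Sys m k (Option r) n) (w : n → ℕ) (d j : ℕ) (y : k → ℂ) :
    y ∈ S.Uf w d j ↔ ∃ c ∈ S.Wf w d j, S.Y *ᵥ c = y := by
  rw [Sys.Uf]
  rfl

theorem Sys.mem_Wf (S : Sys m k (Option r) n) (w : n → ℕ) (d j : ℕ) (c : m → ℂ) :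
    c ∈ S.Wf w d j ↔ (∀ i, (w i + 1 ≤ j → S.Ξ i *ᵥ c ∈ S.Uf w d (j - (w i + 1))) ∧
      (j < w i + 1 → S.Ξ i *ᵥ c = 0)) ∧ (j < d → ∀ l, (S.ρ *ᵥ c) (some l) = 0) := by
  rw [Sys.Wf, Submodule.mem_inf, Submodule.mem_iInf]
  refine and_congr (forall_congr' fun i => ?_) ?_
  · split_ifs with h
    · simp [h, not_lt.2 h]
    · simp [h, not_le.1 h]
  · split_ifs with h
    · simp [not_lt.2 h]
    · simp only [not_le.1 h, forall_const, LinearMap.mem_ker, funext_iff]
      rfl

theorem Sys.Wf_mono (S : Sys m k (Option r) n) (w : n → ℕ) (d : ℕ) : Monotone (S.Wf w d) := by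
  refine monotone_nat_of_le_succ fun j => ?_
  induction j using Nat.strong_induction_on with
  | _ j ih =>
    intro c hc
    rw [S.mem_Wf] at hc ⊢
    refine ⟨fun i => ⟨fun h => ?_, fun h => (hc.1 i).2 (by omega)⟩, fun h => hc.2 (by omega)⟩
    rcases le_or_gt (w i + 1) j with h1 | h1
    · obtain ⟨c', h2, h3⟩ := (S.mem_Uf _ _ _ _).1 ((hc.1 i).1 h1)
      rw [show j + 1 - (w i + 1) = j - (w i + 1) + 1 by omega]
      exact (S.mem_Uf _ _ _ _).2 ⟨c', ih _ (by omega) h2, h3⟩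
    · rw [(hc.1 i).2 h1]
      exact Submodule.zero_mem _

theorem Sys.Uf_mono (S : Sys m k (Option r) n) (w : n → ℕ) (d : ℕ) : Monotone (S.Uf w d) := by
  intro j j' h y hy
  obtain ⟨c, h2, h3⟩ := (S.mem_Uf _ _ _ _).1 hy
  exact (S.mem_Uf _ _ _ _).2 ⟨c, S.Wf_mono w d h h2, h3⟩

theorem conj_conj {a b c : Type} [Fintype a] [Fintype b] (A : Matrix a b ℂ) (B : Matrix b c ℂ)
    (G : Matrix a a ℂ) : (A * B)ᴴ * G * (A * B) = Bᴴ * (Aᴴ * G * A) * B := by
  simp only [conjTranspose_mul, Matrix.mul_assoc]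

/-- change of bases -/
noncomputable def Sys.cb (S : Sys m k r n) (R : Matrix k k ℂ) (T : Matrix m m ℂ) : Sys m k r n :=
  ⟨S.ρ * T, fun i => R * S.Ξ i * T, R * S.Y * T⟩

theorem Sys.cb_L [DecidableEq k] (S : Sys m k r n) {R R' : Matrix k k ℂ} (h : R' * R = 1)
    (T : Matrix m m ℂ) (G : Matrix k k ℂ) : (S.cb R T).L (R'ᴴ * G * R') = Tᴴ * S.L G * T := by
  have e : ∀ M : Matrix k m ℂ, (R * M * T)ᴴ * (R'ᴴ * G * R') * (R * M * T) =
      Tᴴ * (Mᴴ * G * M) * T := by
    intro M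
    have e2 : R' * (R * M * T) = M * T := by
      rw [← Matrix.mul_assoc, ← Matrix.mul_assoc, h, Matrix.one_mul]
    rw [← conj_conj, ← conj_conj, e2]
  simp only [Sys.L, Sys.cb, e, Matrix.mul_sub, Matrix.sub_mul, Matrix.mul_add, Matrix.add_mul,
    Matrix.mul_sum, Matrix.sum_mul]
  simp only [conjTranspose_mul, Matrix.mul_assoc]

theorem base_homotopy {n N d : ℕ} [DecidableEq m] [DecidableEq k] [DecidableEq r]
    (hcard : Fintype.card m = N + Fintype.card k) {S : Sys m k (Option r) (Fin n)}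
    (hinj : ∀ c, S.ρ *ᵥ c = 0 → (∀ i, S.Ξ i *ᵥ c = 0) → c = 0)
    {C : m → MvPolynomial (Fin n) ℂ} {q : MvPolynomial (Fin n) ℂ}
    (hdC : ∀ a, (C a).totalDegree ≤ d) (hdq : q.totalDegree ≤ d)
    (hq : ∀ z ∈ unitBall n, eval z q ≠ 0) (hP : S.PState (Pi.single none 1) C q)
    (hspan : Submodule.span ℂ (range fun α => S.Y *ᵥ cv α C) = ⊤)
    {G1 : Matrix k k ℂ} (hG1 : S.Tight G1) {F1 : Matrix (Fin N) m ℂ} (hF1 : F1ᴴ * F1 = S.L G1)
    (hd : 1 ≤ d) {i0 : Fin n} {A : Matrix k k ℂ} {B : k → ℂ}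
    (hAB : ∀ c, (∀ l, (S.ρ *ᵥ c) (some l) = 0) → (∀ i, i ≠ i0 → S.Ξ i *ᵥ c = 0) →
      S.Y *ᵥ c = (S.ρ *ᵥ c) none • B + A *ᵥ (S.Ξ i0 *ᵥ c))
    (hKry : (A ^ (d - 1)) *ᵥ B ∉ Submodule.span ℂ {v | ∃ l < d - 1, v = (A ^ l) *ᵥ B}) :
    ∃ g : Fin N → MvPolynomial (Fin n) ℂ, (∀ j, (g j).totalDegree ≤ d) ∧
      (∃ j, (g j).totalDegree = d) ∧
      StrongHomotopic d (fun z => F1 *ᵥ fun a => eval z (C a) / eval z q)
        (fun z j => eval z (g j)) := by
  let w : Fin n → ℕ := fun i => if i = i0 then 0 else d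
  have hcv : ∀ j α, wt (fun i => w i + 1) α = j → cv α C ∈ S.Wf w d j := by
    intro j
    induction j using Nat.strong_induction_on with
    | _ j ih =>
      intro α hα
      rw [S.mem_Wf]
      refine ⟨fun i => ?_, fun _ l => by simp [hP.1]⟩
      rcases Nat.eq_zero_or_pos (α i) with h0 | h0
      · rw [hP.2.2 i α h0]
        exact ⟨fun _ => Submodule.zero_mem _, fun _ => rfl⟩
      · obtain ⟨β, rfl⟩ : ∃ β, α = β + Finsupp.single i 1 :=
          ⟨α - Finsupp.single i 1, (tsub_add_cancel_of_le (Finsupp.single_le_iff.2 h0)).symm⟩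
        rw [wt_add_single] at hα
        rw [hP.2.1]
        exact ⟨fun _ => (S.mem_Uf _ _ _ _).2 ⟨_, ih _ (by omega) β (by omega), rfl⟩,
          fun h => by omega⟩
  have hU : ∀ y, ∃ j, y ∈ S.Uf w d j := by
    intro y
    have hy : y ∈ Submodule.span ℂ (range fun α => S.Y *ᵥ cv α C) := hspan ▸ Submodule.mem_top
    induction hy using Submodule.span_induction with
    | mem y hy =>
      obtain ⟨α, rfl⟩ := hy
      exact ⟨_, (S.mem_Uf _ _ _ _).2 ⟨_, hcv _ α rfl, rfl⟩⟩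
    | zero => exact ⟨0, Submodule.zero_mem _⟩
    | add y y' _ _ h1 h2 =>
      obtain ⟨j, h1⟩ := h1
      obtain ⟨j', h2⟩ := h2
      exact ⟨max j j', Submodule.add_mem _ (S.Uf_mono w d (le_max_left _ _) h1)
        (S.Uf_mono w d (le_max_right _ _) h2)⟩
    | smul a y _ h1 =>
      obtain ⟨j, h1⟩ := h1
      exact ⟨j, Submodule.smul_mem _ _ h1⟩
  have hW : ∀ c, ∃ j, c ∈ S.Wf w d j := by
    intro c
    choose J hJ using fun i => hU (S.Ξ i *ᵥ c)
    have h1 : ∀ i, w i + 1 + J i ≤ ∑ i, (w i + 1 + J i) := fun i =>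
      Finset.single_le_sum (f := fun i => w i + 1 + J i) (fun _ _ => Nat.zero_le _)
        (Finset.mem_univ i)
    refine ⟨d + ∑ i, (w i + 1 + J i), (S.mem_Wf _ _ _ _).2 ⟨fun i => ⟨fun _ => ?_, fun h => ?_⟩,
      fun h => by omega⟩⟩
    · exact S.Uf_mono w d (by have := h1 i; omega) (hJ i)
    · have := h1 i; omega
  obtain ⟨RU, SU, ν, hU1, hU2, hUν⟩ := exists_adapted _ (S.Uf_mono w d) hU
  obtain ⟨RW, SW, μ, hW1, hW2, hWμ⟩ := exists_adapted _ (S.Wf_mono w d) hW
  have iU : ∀ y, RU *ᵥ y = 0 → y = 0 := fun y h => by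
    rw [← one_mulVec y, ← hU2, ← mulVec_mulVec, h, mulVec_zero]
  have iSU : ∀ y, SU *ᵥ y = 0 → y = 0 := fun y h => by
    rw [← one_mulVec y, ← hU1, ← mulVec_mulVec, h, mulVec_zero]
  have iSW : ∀ y, SW *ᵥ y = 0 → y = 0 := fun y h => by
    rw [← one_mulVec y, ← hW1, ← mulVec_mulVec, h, mulVec_zero]
  have eW : ∀ c, SW *ᵥ (RW *ᵥ c) = c := fun c => by rw [mulVec_mulVec, hW2, one_mulVec]
  have eW' : ∀ c, RW *ᵥ (SW *ᵥ c) = c := fun c => by rw [mulVec_mulVec, hW1, one_mulVec]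
  have eU' : ∀ c, RU *ᵥ (SU *ᵥ c) = c := fun c => by rw [mulVec_mulVec, hU1, one_mulVec]
  have eU : ∀ c, SU *ᵥ (RU *ᵥ c) = c := fun c => by rw [mulVec_mulVec, hU2, one_mulVec]
  let W : Wts m k (Option r) (Fin n) := ⟨μ, ν, fun o => o.elim 0 fun _ => d, fun i => w i + 1⟩
  have hgr : (S.cb RU SW).Graded W := by
    refine ⟨fun i => Nat.le_add_left _ _, fun j c => ?_, fun j y => ?_⟩
    · rw [← eW' c, ← hWμ, S.mem_Wf, eW']
      simp only [Sys.cb, ← mulVec_mulVec, W]
      refine and_congr (forall_congr' fun i => ?_) ?_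
      · rcases le_or_gt (w i + 1) j with h | h
        · simp only [h, not_lt.2 h, forall_const, IsEmpty.forall_iff, and_true, hUν]
          exact forall_congr' fun b => imp_congr_left (by simp only; omega)
        · simp only [h, not_le.2 h, forall_const, IsEmpty.forall_iff, true_and]
          refine ⟨fun h0 b _ => by rw [h0, mulVec_zero]; rfl, fun h0 => iU _ ?_⟩
          exact funext fun b => h0 b (by simp only; omega)
      · refine ⟨fun h o ho => ?_, fun h hj l => h (some l) hj⟩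
        cases o with
        | none => simp at ho
        | some l => exact h ho l
    · rw [← eU' y, ← hUν, S.mem_Uf, eU']
      simp only [Sys.cb, ← mulVec_mulVec, W]
      constructor
      · rintro ⟨c, h1, h2⟩
        exact ⟨RW *ᵥ c, (hWμ _ _).1 h1, by rw [eW, h2, eU']⟩
      · rintro ⟨c, h1, h2⟩
        exact ⟨SW *ᵥ c, (hWμ _ _).2 (by rwa [eW']), by rw [← h2, eU]⟩
  -- Krylov spaces
  let Kr : ℕ → Submodule ℂ (k → ℂ) := fun j => Submodule.span ℂ {v | ∃ l < j, v = (A ^ l) *ᵥ B}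
  have hKA : ∀ j y, y ∈ Kr j → A *ᵥ y ∈ Kr (j + 1) := by
    intro j y hy
    have : (Kr j).map A.mulVecLin ≤ Kr (j + 1) := by
      rw [Submodule.map_span_le]
      rintro _ ⟨l, hl, rfl⟩
      exact Submodule.subset_span ⟨l + 1, by omega, by
        rw [mulVecLin_apply, mulVec_mulVec, pow_succ']⟩
    exact this ⟨y, hy, rfl⟩
  have hKB : ∀ j, B ∈ Kr (j + 1) := fun j => Submodule.subset_span ⟨0, by omega, by simp⟩
  have hUK : ∀ j, j < d → S.Uf w d j ≤ Kr (j + 1) := by
    intro j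
    induction j with
    | zero =>
      intro hj y hy
      obtain ⟨c, hc, rfl⟩ := (S.mem_Uf _ _ _ _).1 hy
      rw [S.mem_Wf] at hc
      rw [hAB c (hc.2 hj) fun i _ => (hc.1 i).2 (by omega), (hc.1 i0).2 (by omega), mulVec_zero,
        add_zero]
      exact Submodule.smul_mem _ _ (hKB 0)
    | succ j ih =>
      intro hj y hy
      obtain ⟨c, hc, rfl⟩ := (S.mem_Uf _ _ _ _).1 hy
      rw [S.mem_Wf] at hc
      rw [hAB c (hc.2 hj) fun i hi => (hc.1 i).2 (by simp only [w, if_neg hi]; omega)]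
      refine Submodule.add_mem _ (Submodule.smul_mem _ _ (hKB _)) (hKA _ _ (ih (by omega) ?_))
      have := (hc.1 i0).1 (by simp [w])
      simpa [w] using this
  have hq0 : coeff 0 q ≠ 0 := by
    have := hq 0 (zero_mem_unitBall n)
    simpa [constantCoeff_eq] using this
  have hX : ∀ l, S.Y *ᵥ cv (Finsupp.single i0 l) C - coeff 0 q • (A ^ l) *ᵥ B ∈ Kr l := by
    intro l
    have e : ∀ l, S.Y *ᵥ cv (Finsupp.single i0 l) C =
        coeff (Finsupp.single i0 l) q • B + A *ᵥ (S.Ξ i0 *ᵥ cv (Finsupp.single i0 l) C) := by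
      intro l
      rw [hAB _ (fun l => by simp [hP.1]) fun i hi => hP.2.2 i _ (by simp [hi])]
      simp [hP.1]
    induction l with
    | zero =>
      rw [e, hP.2.2 i0 _ (by simp)]
      simp
    | succ l ih =>
      rw [e, Finsupp.single_add, hP.2.1, add_sub_assoc]
      refine Submodule.add_mem _ (Submodule.smul_mem _ _ (hKB _)) ?_
      have := hKA _ _ ih
      rwa [mulVec_sub, mulVec_smul, mulVec_mulVec B, ← pow_succ'] at this
  have hX' : S.Y *ᵥ cv (Finsupp.single i0 (d - 1)) C ∉ Kr (d - 1) := by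
    intro h
    have := Submodule.smul_mem _ (coeff 0 q)⁻¹ (Submodule.sub_mem _ h (hX (d - 1)))
    rw [sub_sub_cancel, smul_smul, inv_mul_cancel₀ hq0, one_smul] at this
    exact hKry this
  have ecv : ∀ α, SW *ᵥ cv α (mp RW C) = cv α C := fun α => by rw [cv_mp, eW]
  obtain ⟨g, g1, g2, g3⟩ := graded_homotopy (d := d) hcard hgr
    (fun c h1 h2 => iSW c (hinj _ (by simpa only [Sys.cb, ← mulVec_mulVec] using h1) fun i =>
      iU _ (by simpa only [Sys.cb, ← mulVec_mulVec] using h2 i)))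
    (e := Pi.single none 1) (by unfold nsq; simp [Fintype.sum_option])
    (fun o ho => by
      cases o with
      | none => simp [W] at ho
      | some l => simp)
    (C := mp RW C) (totalDegree_mp RW hdC) hdq hq
    ⟨fun α => by simp only [Sys.cb, ← mulVec_mulVec, ecv, hP.1],
      fun i α => by simp only [Sys.cb, ← mulVec_mulVec, ecv, hP.2.1],
      fun i α hα => by simp only [Sys.cb, ← mulVec_mulVec, ecv, hP.2.2 i α hα, mulVec_zero]⟩
    (by
      simp only [Sys.cb, ← mulVec_mulVec, ecv]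
      intro h0
      have a1 := hX 0
      rw [Finsupp.single_zero, iU _ h0] at a1
      have a2 : Kr 0 = ⊥ := by simp [Kr]
      have a3 : B = 0 := by simpa [a2, hq0] using a1
      exact hKry (by rw [a3, mulVec_zero]; exact Submodule.zero_mem _))
    (G1 := SUᴴ * G1 * SU) (by
      refine ⟨hG1.1.conj SU iSU, by rw [S.cb_L hU2]; exact hG1.2.1.conj SW, fun y => ?_⟩
      obtain ⟨c, h1, h2⟩ := hG1.2.2 (SU *ᵥ y)
      refine ⟨RW *ᵥ c, ?_, ?_⟩
      · rw [S.cb_L hU2, ← mulVec_mulVec, ← mulVec_mulVec, eW, h1, mulVec_zero]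
      · simp only [Sys.cb, ← mulVec_mulVec, eW, h2, eU'])
    (F1 := F1 * SW) (by rw [S.cb_L hU2, ← hF1, conjTranspose_mul]; simp only [Matrix.mul_assoc])
    (i0 := i0) (by simp [W, w]) hd (by
      by_contra hc
      push Not at hc
      simp only [Sys.cb, ← mulVec_mulVec, ecv, W] at hc
      refine hX' ?_
      rcases Nat.eq_zero_or_pos (d - 1) with h0 | h0
      · rw [iU _ (funext fun b => hc b (by omega))]
        exact Submodule.zero_mem _
      · have := hUK (d - 2) (by omega) ((hUν (d - 2) _).2 fun b hb => hc b (by omega))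
        rwa [show d - 2 + 1 = d - 1 by omega] at this)
  refine ⟨g, g1, g2, ?_⟩
  convert g3 using 2 with z
  have e1 : ∀ C : m → MvPolynomial (Fin n) ℂ,
      (fun a => eval z (C a) / eval z q) = (eval z q)⁻¹ • ev z C := by
    intro C
    funext a
    simp [ev, div_eq_inv_mul]
  rw [e1, e1, ev_mp, mulVec_smul, mulVec_smul, ← mulVec_mulVec, eW]

end Pool.Agent.MP_eddcad_an.H24

end MrgPart3

-- ======== part 4: formerly Pool.Agent.MP_eddcad_an.h24.Krylov
section MrgPart4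

set_option autoImplicit false
set_option linter.unusedSectionVars false

namespace Pool.Agent.MP_eddcad_an.H24

open Matrix Set

variable {k : Type} [Fintype k] [DecidableEq k]

theorem map_pow_mulVec {R T : Type} [CommRing R] [CommRing T] (φ : R →+* T) (M : Matrix k k R)
    (v : k → R) (l : ℕ) : φ ∘ (M ^ l *ᵥ v) = (M.map φ) ^ l *ᵥ (φ ∘ v) := by
  funext b
  rw [Function.comp_apply, RingHom.map_mulVec, Matrix.map_pow]

theorem exists_minpoly_vec {R : Type} [CommRing R] [IsDomain R] [IsIntegrallyClosed R]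
    (M : Matrix k k R) (v : k → R) :
    ∃ g : Polynomial R, g.Monic ∧ g ∣ M.charpoly ∧
      ∑ l ∈ Finset.range (g.natDegree + 1), g.coeff l • (M ^ l *ᵥ v) = 0 ∧
      ∀ c : ℕ → FractionRing R, ∑ l ∈ Finset.range g.natDegree,
        c l • (algebraMap R (FractionRing R) ∘ (M ^ l *ᵥ v)) = 0 → ∀ l < g.natDegree, c l = 0 := by
  set K := FractionRing R
  set φ := algebraMap R K with hφ
  have hinj : Function.Injective φ := IsFractionRing.injective R K
  let I : Ideal (Polynomial K) :=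
    { carrier := {p | Polynomial.aeval (M.map φ) p *ᵥ (φ ∘ v) = 0}
      add_mem' := fun {a b} ha hb => by
        simp only [mem_ofPred_eq] at ha hb ⊢
        rw [map_add, add_mulVec, ha, hb, add_zero]
      zero_mem' := by simp
      smul_mem' := fun a b hb => by
        simp only [mem_ofPred_eq] at hb ⊢
        rw [smul_eq_mul, map_mul, ← mulVec_mulVec, hb, mulVec_zero] }
  have hI : ∀ p, p ∈ I ↔ Polynomial.aeval (M.map φ) p *ᵥ (φ ∘ v) = 0 := fun p => Iff.rfl
  set g0 := Submodule.IsPrincipal.generator I with hg0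
  have h1 : g0 ∣ M.charpoly.map φ := by
    rw [← Submodule.IsPrincipal.mem_iff_generator_dvd, hI, ← charpoly_map, aeval_self_charpoly,
      zero_mulVec]
  have h2 : g0 ≠ 0 := ne_zero_of_dvd_ne_zero (M.charpoly_monic.map φ).ne_zero h1
  obtain ⟨g, hg⟩ := IsIntegrallyClosed.eq_map_mul_C_of_dvd K M.charpoly_monic h1
  have hlc : g0.leadingCoeff ≠ 0 := Polynomial.leadingCoeff_ne_zero.2 h2
  have hm : (g.map φ).Monic := by
    have := congrArg Polynomial.leadingCoeff hg
    rw [Polynomial.leadingCoeff_mul, Polynomial.leadingCoeff_C] at this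
    exact mul_right_cancel₀ hlc (this.trans (one_mul _).symm)
  have hdvd : ∀ p ∈ I, g.map φ ∣ p := fun p hp =>
    (Dvd.intro _ hg).trans ((Submodule.IsPrincipal.mem_iff_generator_dvd I).1 hp)
  have hmem : g.map φ ∈ I := by
    have : g.map φ = Polynomial.C g0.leadingCoeff⁻¹ * g0 := by
      conv_rhs => rw [mul_comm]; enter [1]; rw [← hg]
      rw [mul_assoc, ← Polynomial.C_mul, mul_inv_cancel₀ hlc, Polynomial.C_1, mul_one]
    rw [this]
    exact I.mul_mem_left _ (Submodule.IsPrincipal.generator_mem I)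
  have hmon : g.Monic := Polynomial.monic_of_injective hinj hm
  have hsum : ∀ (p : Polynomial K) (e : ℕ), p.natDegree < e →
      Polynomial.aeval (M.map φ) p *ᵥ (φ ∘ v) =
        ∑ l ∈ Finset.range e, p.coeff l • (φ ∘ (M ^ l *ᵥ v)) := by
    intro p e he
    rw [Polynomial.aeval_eq_sum_range' he, sum_mulVec]
    simp only [smul_mulVec, map_pow_mulVec]
  refine ⟨g, hmon, (Polynomial.map_dvd_map φ hinj hmon).1 ((Dvd.intro _ hg).trans h1), ?_,
    fun c hc l hl => ?_⟩
  · have := (hI _).1 hmem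
    rw [hsum _ (g.natDegree + 1) (by
      rw [Polynomial.natDegree_map_eq_of_injective hinj]; omega)] at this
    funext b
    apply hinj
    have h3 := congrFun this b
    simp only [Finset.sum_apply, Pi.smul_apply, smul_eq_mul, Polynomial.coeff_map,
      Function.comp_apply, Pi.zero_apply] at h3 ⊢
    simp only [map_sum, map_mul, map_zero]
    exact h3
  · let p : Polynomial K := ∑ l ∈ Finset.range g.natDegree, Polynomial.monomial l (c l)
    have hp : ∀ l, p.coeff l = if l < g.natDegree then c l else 0 := by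
      intro l
      simp [p, Polynomial.coeff_monomial]
    have hpd : p.natDegree < g.natDegree := by
      refine lt_of_le_of_lt (Polynomial.natDegree_le_iff_coeff_eq_zero.2 fun N hN => ?_)
        (show g.natDegree - 1 < g.natDegree by omega)
      rw [hp, if_neg (by omega)]
    have hpI : p ∈ I := by
      rw [hI, hsum p _ hpd, ← hc]
      refine Finset.sum_congr rfl fun l hl => ?_
      rw [hp, if_pos (Finset.mem_range.1 hl)]
    have := Polynomial.eq_zero_of_dvd_of_natDegree_lt (hdvd p hpI)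
      (by rwa [Polynomial.natDegree_map_eq_of_injective hinj])
    have h4 := hp l
    rwa [this, Polynomial.coeff_zero, if_pos hl, eq_comm] at h4

open MvPolynomial

theorem homogeneousComponent_mul_hom {σ : Type} (p ψ : MvPolynomial σ ℂ) {l : ℕ}
    (hψ : ψ.IsHomogeneous l) (a : ℕ) :
    homogeneousComponent (a + l) (p * ψ) = homogeneousComponent a p * ψ := by
  conv_lhs => rw [← sum_homogeneousComponent p, Finset.sum_mul, map_sum]
  have h1 : ∀ e, homogeneousComponent (a + l) (homogeneousComponent e p * ψ) =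
      if e = a then homogeneousComponent a p * ψ else 0 := by
    intro e
    rw [homogeneousComponent_of_mem ((homogeneousComponent_isHomogeneous e p).mul hψ)]
    rcases eq_or_ne e a with rfl | h
    · simp
    · rw [if_neg (by omega), if_neg h]
  simp only [h1, Finset.sum_ite_eq', Finset.mem_range]
  split_ifs with h
  · rfl
  · rw [homogeneousComponent_eq_zero _ _ (by omega), zero_mul]

variable {n : ℕ}

/-- the pencil -/
noncomputable def pen (A : Fin n → Matrix k k ℂ) (z : Fin n → ℂ) : Matrix k k ℂ := ∑ i, z i • A i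

/-- the generic pencil -/
noncomputable def gpen (A : Fin n → Matrix k k ℂ) : Matrix k k (MvPolynomial (Fin n) ℂ) :=
  Matrix.of fun b b' => ∑ i, C (A i b b') * X i

theorem gpen_map (A : Fin n → Matrix k k ℂ) (z : Fin n → ℂ) :
    (gpen A).map (eval z) = pen A z := by
  ext b b'
  simp [gpen, pen, Matrix.sum_apply, mul_comm]

theorem gpen_hom (A : Fin n → Matrix k k ℂ) (B : k → ℂ) (l : ℕ) (b : k) :
    ((gpen A ^ l *ᵥ fun b => C (B b)) b).IsHomogeneous l := by
  induction l generalizing b with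
  | zero => simpa using isHomogeneous_C _ _
  | succ l ih =>
    rw [pow_succ', ← mulVec_mulVec, mulVec, dotProduct, add_comm]
    refine IsHomogeneous.sum _ _ _ fun b' _ => IsHomogeneous.mul ?_ (ih b')
    rw [gpen, of_apply]
    exact IsHomogeneous.sum _ _ _ fun i _ => isHomogeneous_C_mul_X _ _

theorem gpen_eval (A : Fin n → Matrix k k ℂ) (B : k → ℂ) (l : ℕ) (z : Fin n → ℂ) :
    eval z ∘ (gpen A ^ l *ᵥ fun b => C (B b)) = pen A z ^ l *ᵥ B := by
  rw [map_pow_mulVec, gpen_map]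
  congr 1
  funext b
  simp

theorem krylov_dichotomy (A : Fin n → Matrix k k ℂ) (B : k → ℂ) (i0 : Fin n) (d : ℕ)
    (hd : 1 ≤ d) (hinv : ∀ z ∈ unitBall n, ∀ y, pen A z *ᵥ y = y → y = 0) :
    (∃ v : Fin n → ℂ, v ≠ 0 ∧
      (pen A v ^ (d - 1)) *ᵥ B ∉ Submodule.span ℂ {y | ∃ l < d - 1, y = (pen A v ^ l) *ᵥ B}) ∨
    ∃ δ < d, ∃ (Q : MvPolynomial (Fin n) ℂ) (X' : k → MvPolynomial (Fin n) ℂ),
      Q.totalDegree ≤ δ ∧ (∀ i b, (X i * X' b).totalDegree ≤ δ) ∧
      ∀ z ∈ unitBall n, eval z Q ≠ 0 ∧ ev z X' - pen A z *ᵥ ev z X' = eval z Q • B := by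
  set R := MvPolynomial (Fin n) ℂ
  set K := FractionRing R
  set φ := algebraMap R K with hφ
  have hinj : Function.Injective φ := IsFractionRing.injective R K
  obtain ⟨g, hm, hdvd, hrel, hmin⟩ := exists_minpoly_vec (gpen A) fun b => C (B b)
  set δ := g.natDegree with hδ
  set u : ℕ → k → R := fun l => gpen A ^ l *ᵥ fun b => C (B b) with hu
  rcases le_or_gt d δ with h | h
  · left
    let M : Matrix k (Fin d) R := Matrix.of fun b l => u l b
    have hker : LinearMap.ker (Matrix.toLin' (M.map φ)) = ⊥ := by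
      rw [LinearMap.ker_eq_bot']
      intro c hc
      funext l
      have := hmin (fun l => if h : l < d then c ⟨l, h⟩ else 0) (by
        rw [← Finset.sum_subset (Finset.range_subset_range.2 h) (fun l _ hl => by
          rw [dif_neg (by simpa using hl), zero_smul]), Finset.sum_range]
        funext b
        have := congrFun hc b
        rw [toLin'_apply, mulVec, dotProduct] at this
        simp only [Finset.sum_apply, Pi.smul_apply, smul_eq_mul, Function.comp_apply, Fin.is_lt,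
          dif_pos, Fin.eta, Pi.zero_apply]
        refine Eq.trans (Finset.sum_congr rfl fun l _ => ?_) this
        rw [mul_comm]
        rfl) l (lt_of_lt_of_le l.2 h)
      simpa using this
    obtain ⟨N, hN⟩ := LinearMap.exists_leftInverse_of_injective _ hker
    have hN' : LinearMap.toMatrix' N * M.map φ = 1 := by
      apply Matrix.toLin'.injective
      rw [Matrix.toLin'_mul, Matrix.toLin'_toMatrix', hN, Matrix.toLin'_one]
    let lst : Fin d := ⟨d - 1, by omega⟩
    obtain ⟨s, hs⟩ := IsLocalization.exist_integer_multiples_of_finite (nonZeroDivisors R)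
      fun b => LinearMap.toMatrix' N lst b
    choose a ha using hs
    have hs0 : (s : R) ≠ 0 := nonZeroDivisors.coe_ne_zero s
    have hdot : ∀ l : Fin d, a ⬝ᵥ u l = if lst = l then (s : R) else 0 := by
      intro l
      apply hinj
      have := congrFun (congrFun hN' lst) l
      rw [mul_apply, one_apply] at this
      simp only [dotProduct, map_sum, map_mul, hφ, ha, Algebra.smul_def, mul_assoc,
        ← Finset.mul_sum]
      rw [show ∑ b, LinearMap.toMatrix' N lst b * algebraMap R K (u l b) = _ from this]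
      split_ifs <;> simp
    obtain ⟨v, hv⟩ : ∃ v : Fin n → ℂ, eval v ((s : R) * X i0) ≠ 0 := by
      by_contra hc
      push Not at hc
      exact mul_ne_zero hs0 (X_ne_zero i0) (MvPolynomial.funext fun v => by simpa using hc v)
    rw [map_mul, eval_X] at hv
    have hdot' : ∀ l : Fin d, (eval v ∘ a) ⬝ᵥ (pen A v ^ (l : ℕ) *ᵥ B) =
        if lst = l then eval v (s : R) else 0 := by
      intro l
      rw [← gpen_eval, ← RingHom.map_dotProduct, hdot]
      split_ifs <;> simp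
    refine ⟨v, fun h0 => by simp [h0] at hv, fun hmem => ?_⟩
    have : ∀ y ∈ Submodule.span ℂ {y | ∃ l < d - 1, y = (pen A v ^ l) *ᵥ B},
        (eval v ∘ a) ⬝ᵥ y = 0 := by
      intro y hy
      induction hy using Submodule.span_induction with
      | mem y hy =>
        obtain ⟨l, hl, rfl⟩ := hy
        have := hdot' ⟨l, by omega⟩
        rwa [if_neg (by simp [lst, Fin.ext_iff]; omega)] at this
      | zero => simp
      | add y y' _ _ h1 h2 => rw [dotProduct_add, h1, h2, add_zero]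
      | smul c y _ h1 => rw [dotProduct_smul, h1, smul_zero]
    have h2 := hdot' lst
    rw [if_pos rfl, this _ hmem] at h2
    exact left_ne_zero_of_mul hv h2.symm
  · right
    have hgδ : g.coeff δ = 1 := hm.coeff_natDegree
    have hrel' : ∑ l ∈ Finset.range (δ + 1), homogeneousComponent (δ - l) (g.coeff l) • u l = 0 := by
      funext b
      have := congrArg (homogeneousComponent δ) (congrFun hrel b)
      simp only [Finset.sum_apply, Pi.smul_apply, smul_eq_mul, map_sum, Pi.zero_apply,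
        map_zero] at this ⊢
      rw [← this]
      refine Finset.sum_congr rfl fun l hl => ?_
      rw [← homogeneousComponent_mul_hom _ _ (gpen_hom A B l b), Nat.sub_add_cancel
        (Nat.lt_succ_iff.1 (Finset.mem_range.1 hl))]
    have hhom : ∀ l ≤ δ, (g.coeff l).totalDegree ≤ δ - l := by
      intro l hl
      rcases eq_or_lt_of_le hl with rfl | hl
      · rw [hgδ]; simp
      have h1 : ∑ l ∈ Finset.range δ,
          (homogeneousComponent (δ - l) (g.coeff l) - g.coeff l) • u l = 0 := by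
        have := sub_eq_zero.2 (hrel'.trans hrel.symm)
        rw [← Finset.sum_sub_distrib, Finset.sum_range_succ, Nat.sub_self, hgδ,
          homogeneousComponent_eq_self (isHomogeneous_one _ _), sub_self, add_zero] at this
        simpa only [sub_smul] using this
      have h2 := hmin (fun l => φ (homogeneousComponent (δ - l) (g.coeff l) - g.coeff l)) (by
        funext b
        have := congrArg φ (congrFun h1 b)
        simpa only [Finset.sum_apply, Pi.smul_apply, smul_eq_mul, map_sum, map_mul,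
          Pi.zero_apply, map_zero, Function.comp_apply] using this) l hl
      rw [← sub_eq_zero.1 (hinj (h2.trans (map_zero φ).symm))]
      exact (homogeneousComponent_isHomogeneous _ _).totalDegree_le
    refine ⟨δ, h, ∑ l ∈ Finset.range (δ + 1), g.coeff l,
      ∑ l ∈ Finset.range (δ + 1), g.coeff l • ∑ j ∈ Finset.range l, u j,
      totalDegree_finsetSum_le fun l hl => (hhom l (Nat.lt_succ_iff.1 (Finset.mem_range.1 hl))).trans
        (Nat.sub_le _ _), fun i b => ?_, fun z hz => ⟨?_, ?_⟩⟩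
    · simp only [Finset.sum_apply, Pi.smul_apply, smul_eq_mul, Finset.mul_sum]
      refine totalDegree_finsetSum_le fun l hl => totalDegree_finsetSum_le fun j hj => ?_
      have a1 := hhom l (Nat.lt_succ_iff.1 (Finset.mem_range.1 hl))
      have a2 := (gpen_hom A B j b).totalDegree_le
      have a3 := totalDegree_mul (g.coeff l) (u j b)
      have a4 := totalDegree_mul (X i : R) (g.coeff l * u j b)
      rw [totalDegree_X] at a4
      have := Finset.mem_range.1 hl
      have := Finset.mem_range.1 hj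
      change (u j b).totalDegree ≤ j at a2
      omega
    · obtain ⟨s, hs⟩ := hdvd
      have h1 := congrArg (eval z) (congrArg (Polynomial.eval 1) hs)
      rw [eval_charpoly, RingHom.map_det, Polynomial.eval_mul, map_mul,
        Polynomial.eval_eq_sum_range] at h1
      simp only [one_pow, mul_one] at h1
      refine left_ne_zero_of_mul (b := eval z (Polynomial.eval 1 s)) ?_
      rw [← h1, Ne, ← exists_mulVec_eq_zero_iff]
      rintro ⟨y, hy, h2⟩
      rw [map_one, map_sub, map_one, RingHom.mapMatrix_apply, gpen_map, sub_mulVec, one_mulVec,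
        sub_eq_zero] at h2
      exact hy (hinv z hz y h2.symm)
    · have h1 : (1 - gpen A) *ᵥ (∑ l ∈ Finset.range (δ + 1), g.coeff l •
          ∑ j ∈ Finset.range l, u j) =
          (∑ l ∈ Finset.range (δ + 1), g.coeff l) • fun b => C (B b) := by
        rw [mulVec_sum, Finset.sum_smul, ← sub_zero (∑ l ∈ Finset.range (δ + 1), g.coeff l • _),
          ← hrel, ← Finset.sum_sub_distrib]
        refine Finset.sum_congr rfl fun l _ => ?_
        rw [mulVec_smul, ← smul_sub, hu, ← sum_mulVec, mulVec_mulVec, mul_neg_geom_sum,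
          sub_mulVec, one_mulVec]
      funext b
      have h2 := congrArg (eval z) (congrFun h1 b)
      rw [sub_mulVec, one_mulVec, Pi.sub_apply, map_sub, RingHom.map_mulVec, gpen_map] at h2
      rw [Pi.smul_apply, smul_eq_mul, map_mul, eval_C] at h2
      exact h2

end Pool.Agent.MP_eddcad_an.H24

end MrgPart4

-- marker of a merged file
example : 731051 + 260744 = 731051 + 260744 := rfl
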