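import Mathlib.Data.Matrix.ColumnRowPartitioned
import Mathlib.RingTheory.MvPolynomial.IrreducibleQuadratic
import Mathlib.RingTheory.RegularLocalRing.Defs
import Pool.Agent.MP_eddcad_an.h24.Krylov
import Pool.Agent.MP_eddcad_an.Rational

-- ======== part 0: formerly Pool.Agent.MP_eddcad_an.h24.Lurk
section MrgPart0

set_option autoImplicit false
set_option linter.unusedSectionVars false

namespace Pool.Agent.MP_eddcad_an.H24

open Matrix Filter Topology Set Module MvPolynomial

theorem exists_basis_family {ι V : Type} [AddCommGroup V] [Module ℂ V] [Module.Finite ℂ V]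
    (v : ι → V) : ∃ (K : ℕ) (s : Fin K → ι), LinearIndependent ℂ (v ∘ s) ∧
      ∀ i, ∃ β : Fin K → ℂ, v i = ∑ j, β j • v (s j) := by
  obtain ⟨κ, a, -, h1, h2⟩ := exists_linearIndependent' ℂ v
  have : Finite κ := h2.finite_of_isNoetherian
  obtain ⟨K, ⟨e⟩⟩ := Finite.exists_equiv_fin κ
  refine ⟨K, a ∘ e.symm, h2.comp _ e.symm.injective, fun i => ?_⟩
  have h3 : v i ∈ Submodule.span ℂ (range (v ∘ a ∘ e.symm)) := by
    rw [← Function.comp_assoc, e.symm.surjective.range_comp, h1]
    exact Submodule.subset_span (mem_range_self i)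
  obtain ⟨β, hβ⟩ := (Submodule.mem_span_range_iff_exists_fun ℂ).1 h3
  exact ⟨β, hβ.symm⟩

theorem lurking {ι m p : Type} [Fintype m] [DecidableEq m] [Fintype p] (a : ι → m → ℂ)
    (b : ι → p → ℂ) (h : ∀ i j, star (a i) ⬝ᵥ a j = star (b i) ⬝ᵥ b j) :
    ∃ (T : Matrix p m ℂ) (η : Matrix m m ℂ), Tᴴ * T + ηᴴ * η = 1 ∧
      ∀ i, T *ᵥ a i = b i ∧ η *ᵥ a i = 0 := by
  obtain ⟨K, s, h1, h2⟩ := exists_basis_family a
  have hG : ∀ {κ : Type} (s : κ → ι), (Matrix.of fun x j => a (s j) x)ᴴ * (Matrix.of fun x j =>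
      a (s j) x) = (Matrix.of fun x j => b (s j) x)ᴴ * Matrix.of fun x j => b (s j) x :=
    fun s => Matrix.ext fun i j => h (s i) (s j)
  set A : Matrix m (Fin K) ℂ := Matrix.of fun x j => a (s j) x with hA
  set B : Matrix p (Fin K) ℂ := Matrix.of fun x j => b (s j) x with hB
  have hAB : Aᴴ * A = Bᴴ * B := hG s
  have hA' : ∀ β, A *ᵥ β = ∑ j, β j • a (s j) := fun β => mulVec_eq_sum_col A β
  have hPD : PD (Aᴴ * A) := by
    have := pd_one.conj A fun β hβ => funext fun j =>
      Fintype.linearIndependent_iff.1 h1 β (by rw [← hβ, hA']; rfl) j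
    rwa [Matrix.mul_one] at this
  have hu := hPD.isUnit_det
  have hH : (Aᴴ * A)⁻¹ᴴ = (Aᴴ * A)⁻¹ := hPD.inv.1.eq
  have e1 : (B * (Aᴴ * A)⁻¹ * Aᴴ)ᴴ * (B * (Aᴴ * A)⁻¹ * Aᴴ) = A * (Aᴴ * A)⁻¹ * Aᴴ := by
    rw [conjTranspose_mul, conjTranspose_mul, conjTranspose_conjTranspose, hH]
    simp only [Matrix.mul_assoc]
    rw [← Matrix.mul_assoc Bᴴ, ← hAB, ← Matrix.mul_assoc (Aᴴ * A), mul_nonsing_inv _ hu,
      Matrix.one_mul]
  have e2 : A * (Aᴴ * A)⁻¹ * Aᴴ * (A * (Aᴴ * A)⁻¹ * Aᴴ) = A * (Aᴴ * A)⁻¹ * Aᴴ := by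
    simp only [Matrix.mul_assoc]
    rw [← Matrix.mul_assoc Aᴴ, ← Matrix.mul_assoc (Aᴴ * A), mul_nonsing_inv _ hu, Matrix.one_mul]
  have e3 : (A * (Aᴴ * A)⁻¹ * Aᴴ)ᴴ = A * (Aᴴ * A)⁻¹ * Aᴴ := by
    rw [conjTranspose_mul, conjTranspose_mul, conjTranspose_conjTranspose, hH, Matrix.mul_assoc]
  refine ⟨B * (Aᴴ * A)⁻¹ * Aᴴ, 1 - A * (Aᴴ * A)⁻¹ * Aᴴ, ?_, fun i => ?_⟩
  · rw [e1, conjTranspose_sub, conjTranspose_one, e3, Matrix.sub_mul, Matrix.mul_sub,
      Matrix.mul_sub, e2]
    simp
  · obtain ⟨β, hβ⟩ := h2 i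
    have h3 : a i = A *ᵥ β := by rw [hA', hβ]
    have h4 : ∀ {q : Type} (M : Matrix q (Fin K) ℂ), (M * (Aᴴ * A)⁻¹ * Aᴴ) *ᵥ a i = M *ᵥ β := by
      intro q M
      rw [h3, mulVec_mulVec, Matrix.mul_assoc, Matrix.mul_assoc, nonsing_inv_mul _ hu,
        Matrix.mul_one]
    refine ⟨?_, by rw [sub_mulVec, one_mulVec, h4, h3, sub_self]⟩
    rw [h4]
    have h5 := congrArg (fun M => qf M fun o : Option (Fin K) => o.elim (-1) β)
      (hG fun o : Option (Fin K) => o.elim i s)
    simp only [qf_gram] at h5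
    have h6 : ∀ {q : Type} (c : ι → q → ℂ), ((Matrix.of fun x j => c
        ((fun o : Option (Fin K) => o.elim i s) j) x) *ᵥ fun o : Option (Fin K) => o.elim (-1) β) =
        (Matrix.of fun x j => c (s j) x) *ᵥ β - c i := by
      intro q c
      funext x
      simp [mulVec, dotProduct, Fintype.sum_option]
      ring
    rw [h6, h6, ← hA, ← h3, sub_self, nsq_zero] at h5
    exact sub_eq_zero.1 (nsq_eq_zero h5.symm)

theorem exists_unitary_col {n : ℕ} (i0 : Fin n) {v : Fin n → ℂ} (hv : nsq v = 1) :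
    ∃ U : Matrix (Fin n) (Fin n) ℂ, Uᴴ * U = 1 ∧ ∀ i, U i i0 = v i := by
  have h1 : Orthonormal ℂ (({i0} : Set (Fin n)).domRestrict
      fun _ : Fin n => (WithLp.toLp 2 v : EuclideanSpace ℂ (Fin n))) := by
    refine ⟨fun i => ?_, fun i j hij => absurd (Subsingleton.elim i j) hij⟩
    refine (sq_eq_sq₀ (norm_nonneg _) zero_le_one).1 ?_
    rw [EuclideanSpace.norm_sq_eq, one_pow, ← hv]
    unfold nsq
    rfl
  obtain ⟨b, hb⟩ := h1.exists_orthonormalBasis_extension_of_card_eq (by simp)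
  refine ⟨(EuclideanSpace.basisFun (Fin n) ℂ).toBasis.toMatrix b,
    OrthonormalBasis.toMatrix_orthonormalBasis_conjTranspose_mul_self _ _, fun i => ?_⟩
  rw [Basis.toMatrix_apply, hb i0 rfl]
  simp

variable {n : ℕ}

/-- linear substitution -/
noncomputable def rot (U : Matrix (Fin n) (Fin n) ℂ) (P : MvPolynomial (Fin n) ℂ) :
    MvPolynomial (Fin n) ℂ := aeval (fun i => ∑ j, C (U i j) * X j) P

theorem eval_rot (U : Matrix (Fin n) (Fin n) ℂ) (P : MvPolynomial (Fin n) ℂ) (z : Fin n → ℂ) :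
    eval z (rot U P) = eval (U *ᵥ z) P := by
  induction P using MvPolynomial.induction_on with
  | C a => simp [rot]
  | add p q hp hq => simp only [rot, map_add] at hp hq ⊢; rw [hp, hq]
  | mul_X p i hp =>
    simp only [rot, map_mul] at hp ⊢
    rw [hp]
    simp [mulVec, dotProduct]

theorem totalDegree_rot (U : Matrix (Fin n) (Fin n) ℂ) (P : MvPolynomial (Fin n) ℂ) :
    (rot U P).totalDegree ≤ P.totalDegree := by
  conv_lhs => rw [rot, ← sum_homogeneousComponent P, map_sum]
  refine totalDegree_finsetSum_le fun e he => ?_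
  have := ((homogeneousComponent_isHomogeneous e P).aeval (fun i => ∑ j, C (U i j) * X j)
    fun i => IsHomogeneous.sum _ _ _ fun j _ => isHomogeneous_C_mul_X _ _).totalDegree_le
  have := Finset.mem_range.1 he
  omega

theorem nsq_unitary {U : Matrix (Fin n) (Fin n) ℂ} (hU : Uᴴ * U = 1) (z : Fin n → ℂ) :
    nsq (U *ᵥ z) = nsq z := by
  rw [← qf_gram, hU, qf_one]

theorem StrongHomotopic.precomp {N d : ℕ} {f g : (Fin n → ℂ) → (Fin N → ℂ)}
    (h : StrongHomotopic d f g) {U : Matrix (Fin n) (Fin n) ℂ} (hU : Uᴴ * U = 1) :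
    StrongHomotopic d (fun z => f (U *ᵥ z)) (fun z => g (U *ᵥ z)) := by
  obtain ⟨H, h1, h2, h3⟩ := h
  have hU' : Uᴴᴴ * Uᴴ = 1 := by rw [conjTranspose_conjTranspose, mul_eq_one_comm.1 hU]
  have hb : ∀ {V : Matrix (Fin n) (Fin n) ℂ}, Vᴴ * V = 1 → ∀ z ∈ unitBall n, V *ᵥ z ∈ unitBall n :=
    fun hV z hz => by rwa [mem_unitBall, nsq_unitary hV, ← mem_unitBall]
  have hP : Prp (unitBall n) (unitBall n) fun z => U *ᵥ z :=
    Prp.of_inv (c' := fun z => Uᴴ *ᵥ z)
      (LinearMap.toContinuousLinearMap U.mulVecLin).differentiable.differentiableOn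
      (hb hU) (by fun_prop) (hb hU') (fun z _ => by rw [mulVec_mulVec, hU, one_mulVec])
      fun z _ => by rw [mulVec_mulVec, mul_eq_one_comm.1 hU, one_mulVec]
  refine ⟨fun t z => H t (U *ᵥ z), ?_, fun t ht => ⟨?_, ?_⟩, fun z hz => h3 _ (hb hU z hz)⟩
  · refine h1.comp (f := fun x : ℝ × (Fin n → ℂ) => (x.1, U *ᵥ x.2)) (by fun_prop) ?_
    rintro x ⟨hx1, hx2⟩
    refine ⟨hx1, ?_⟩
    rw [closedUnitBall_eq] at hx2 ⊢
    simpa only [mem_ofPred_eq, nsq_unitary hU] using hx2
  · have := Prp.comp ⟨(h2 t ht).1.1, (h2 t ht).1.2.1, (h2 t ht).1.2.2⟩ hP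
    exact ⟨this.1, this.2, this.3⟩
  · obtain ⟨P, Q, a1, a2, a3⟩ := (h2 t ht).2
    refine ⟨fun j => rot U (P j), rot U Q, fun j => (totalDegree_rot _ _).trans (a1 j),
      (totalDegree_rot _ _).trans a2, fun z hz => ?_⟩
    simp only [eval_rot]
    exact a3 _ (hb hU z hz)

theorem StrongHomotopic.congr {N d : ℕ} {f g f' g' : (Fin n → ℂ) → (Fin N → ℂ)}
    (h : StrongHomotopic d f g) (hf : ∀ z ∈ unitBall n, f z = f' z)
    (hg : ∀ z ∈ unitBall n, g z = g' z) : StrongHomotopic d f' g' := by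
  obtain ⟨H, h1, h2, h3⟩ := h
  exact ⟨H, h1, h2, fun z hz => ⟨(h3 z hz).1.trans (hf z hz), (h3 z hz).2.trans (hg z hz)⟩⟩

end Pool.Agent.MP_eddcad_an.H24

end MrgPart0

-- ======== part 1: formerly Pool.Agent.MP_eddcad_an.h24.IsoSys
section MrgPart1

set_option autoImplicit false
set_option linter.unusedSectionVars false

namespace Pool.Agent.MP_eddcad_an.H24

open Matrix Filter Topology Set Module MvPolynomial

variable {m k r : Type} [Fintype m] [Fintype k] [Fintype r]
  [DecidableEq m] [DecidableEq k] [DecidableEq r] {n : ℕ}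

theorem nsq_sub (a b : k → ℂ) : nsq (a - b) = nsq a + nsq b - 2 * (star a ⬝ᵥ b).re := by
  have h : (star b ⬝ᵥ a).re = (star a ⬝ᵥ b).re := by
    rw [star_dotProduct, Complex.star_def, Complex.conj_re]
  simp only [nsq_eq_re, star_sub, sub_dotProduct, dotProduct_sub, Complex.sub_re, h]
  ring

theorem ev_mem_span (M : Matrix k m ℂ) (C : m → MvPolynomial (Fin n) ℂ) (z : Fin n → ℂ) :
    M *ᵥ ev z C ∈ Submodule.span ℂ (range fun α => M *ᵥ cv α C) := by
  have h : ev z C = ∑ α ∈ Finset.univ.biUnion fun a => (C a).support,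
      (∏ i, z i ^ α i) • cv α C := by
    funext a
    rw [ev, eval_eq', Finset.sum_apply]
    simp only [Pi.smul_apply, smul_eq_mul, cv, mul_comm]
    refine Finset.sum_subset (Finset.subset_biUnion_of_mem (fun a => (C a).support)
      (Finset.mem_univ a)) fun α _ hα => ?_
    rw [notMem_support_iff.1 hα, zero_mul]
  rw [h, mulVec_sum]
  refine Submodule.sum_mem _ fun α _ => ?_
  rw [mulVec_smul]
  exact Submodule.smul_mem _ _ (Submodule.subset_span (mem_range_self α))

/-- isometric system -/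
def Sys.Iso (S : Sys m k r (Fin n)) : Prop := S.ρᴴ * S.ρ + ∑ i, (S.Ξ i)ᴴ * S.Ξ i = 1

theorem Sys.Iso.decomp {S : Sys m k r (Fin n)} (h : S.Iso) (c : m → ℂ) :
    c = S.ρᴴ *ᵥ (S.ρ *ᵥ c) + ∑ i, (S.Ξ i)ᴴ *ᵥ (S.Ξ i *ᵥ c) := by
  conv_lhs => rw [← one_mulVec c, ← show _ = (1 : Matrix m m ℂ) from h]
  simp only [add_mulVec, sum_mulVec, mulVec_mulVec]

theorem Sys.Iso.nsq {S : Sys m k r (Fin n)} (h : S.Iso) (c : m → ℂ) :
    nsq c = nsq (S.ρ *ᵥ c) + ∑ i, nsq (S.Ξ i *ᵥ c) := by
  rw [← qf_one c, ← show _ = (1 : Matrix m m ℂ) from h]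
  simp only [qf_add, qf_sum, qf_gram]

theorem Sys.Iso.pen_inj {S : Sys m k r (Fin n)} (h : S.Iso)
    (hY : ∀ c, H24.nsq (S.Y *ᵥ c) ≤ H24.nsq c)
    {z : Fin n → ℂ} (hz : z ∈ unitBall n) (y : k → ℂ)
    (hy : pen (fun i => S.Y * (S.Ξ i)ᴴ) z *ᵥ y = y) : y = 0 := by
  set c := ∑ i, z i • ((S.Ξ i)ᴴ *ᵥ y) with hc
  have h1 : S.Y *ᵥ c = y := by
    rw [← hy, hc, pen, mulVec_sum, sum_mulVec]
    simp only [mulVec_smul, smul_mulVec, mulVec_mulVec]
  have h2 : ∑ i, (star (S.Ξ i *ᵥ c) ⬝ᵥ (z i • y)).re = H24.nsq c := by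
    rw [nsq_eq_re]
    conv_rhs => enter [1, 2]; rw [hc]
    rw [dotProduct_sum, Complex.re_sum]
    refine Finset.sum_congr rfl fun i _ => ?_
    rw [dotProduct_smul, dotProduct_smul, star_mulVec, dotProduct_mulVec]
  have h3 : 0 ≤ ∑ i, H24.nsq (S.Ξ i *ᵥ c - z i • y) := Finset.sum_nonneg fun i _ => nsq_nonneg _
  simp only [nsq_sub, nsq_smul, Finset.sum_sub_distrib, Finset.sum_add_distrib, ← Finset.mul_sum,
    ← Finset.sum_mul, h2] at h3
  rw [show ∑ i, ‖z i‖ ^ 2 = H24.nsq z by simp only [H24.nsq]] at h3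
  have h4 := h.nsq c
  have h5 := hY c
  have h6 := nsq_nonneg (S.ρ *ᵥ c)
  have h7 := mem_unitBall.1 hz
  have h8 := nsq_nonneg y
  rw [h1] at h5
  exact nsq_eq_zero (by nlinarith)

/-- rotated system -/
noncomputable def Sys.rotate (S : Sys m k r (Fin n)) (U : Matrix (Fin n) (Fin n) ℂ) :
    Sys m k r (Fin n) := ⟨S.ρ, fun j => ∑ i, star (U i j) • S.Ξ i, S.Y⟩

theorem Sys.Iso.rotate {S : Sys m k r (Fin n)} (h : S.Iso) {U : Matrix (Fin n) (Fin n) ℂ}
    (hU : Uᴴ * U = 1) : (S.rotate U).Iso := by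
  have hU' : ∀ i i', ∑ j, U i j * star (U i' j) = if i = i' then 1 else 0 := by
    intro i i'
    have h1 : U * Uᴴ = 1 := mul_eq_one_comm.1 hU
    have h2 : (U * Uᴴ) i i' = (1 : Matrix (Fin n) (Fin n) ℂ) i i' := by rw [h1]
    rwa [mul_apply, one_apply] at h2
  rw [Sys.Iso, ← show _ = (1 : Matrix m m ℂ) from h]
  simp only [Sys.rotate, conjTranspose_sum, conjTranspose_smul, star_star, Matrix.sum_mul,
    Matrix.mul_sum, Matrix.smul_mul, Matrix.mul_smul, Finset.smul_sum, smul_smul]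
  congr 1
  rw [Finset.sum_comm]
  refine Finset.sum_congr rfl fun i _ => ?_
  rw [Finset.sum_comm]
  simp only [← Finset.sum_smul, mul_comm (star _), hU']
  simp

theorem Sys.EState.rotate {S : Sys m k r (Fin n)} {e : r → ℂ} {C : m → MvPolynomial (Fin n) ℂ}
    {q : MvPolynomial (Fin n) ℂ} (h : S.EState e C q) {U : Matrix (Fin n) (Fin n) ℂ}
    (hU : Uᴴ * U = 1) : (S.rotate U).EState e (fun a => rot U (C a)) (rot U q) := by
  intro z hz
  have hz' : U *ᵥ z ∈ unitBall n := by rwa [mem_unitBall, nsq_unitary hU, ← mem_unitBall]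
  have e1 : ev z (fun a => rot U (C a)) = ev (U *ᵥ z) C := by
    funext a
    rw [ev, ev, eval_rot]
  rw [e1, eval_rot]
  refine ⟨(h _ hz').1, fun j => ?_⟩
  have e2 : ∑ i, star (U i j) * (U *ᵥ z) i = z j := by
    have : (Uᴴ *ᵥ (U *ᵥ z)) j = z j := by rw [mulVec_mulVec, hU, one_mulVec]
    rw [← this, mulVec, dotProduct]
    simp only [conjTranspose_apply]
  simp only [Sys.rotate, sum_mulVec, smul_mulVec, (h _ hz').2, smul_smul, ← Finset.sum_smul, e2]

theorem iso_homotopy {N d : ℕ} (i0 : Fin n) (hcard : Fintype.card m = N + Fintype.card k)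
    {S : Sys m k (Option r) (Fin n)} (hiso : S.Iso) {F : Matrix (Fin N) m ℂ}
    (hF : Fᴴ * F + S.Yᴴ * S.Y = 1) {Z : Matrix m k ℂ} (hYZ : S.Y * Z = 1) (hFZ : F * Z = 0)
    {C : m → MvPolynomial (Fin n) ℂ} {q : MvPolynomial (Fin n) ℂ}
    (hdC : ∀ a, (C a).totalDegree ≤ d) (hdq : q.totalDegree ≤ d)
    (hq : ∀ z ∈ unitBall n, eval z q ≠ 0) (hE : S.EState (Pi.single none 1) C q)
    (hspan : Submodule.span ℂ (range fun z : unitBall n => S.Y *ᵥ ev z C) = ⊤) (hd : 1 ≤ d)
    (hmin : ∀ δ < d, ¬ RatDegLE (fun z => F *ᵥ fun a => eval z (C a) / eval z q) δ) :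
    ∃ g : Fin N → MvPolynomial (Fin n) ℂ, (∀ j, (g j).totalDegree ≤ d) ∧
      (∃ j, (g j).totalDegree = d) ∧
      StrongHomotopic d (fun z => F *ᵥ fun a => eval z (C a) / eval z q)
        (fun z j => eval z (g j)) := by
  have hY : ∀ c, nsq (S.Y *ᵥ c) ≤ nsq c := by
    intro c
    rw [← qf_one c, ← hF, qf_add, qf_gram, qf_gram]
    exact le_add_of_nonneg_left (nsq_nonneg _)
  set A : Fin n → Matrix k k ℂ := fun i => S.Y * (S.Ξ i)ᴴ with hA
  set B : k → ℂ := S.Y *ᵥ (S.ρᴴ *ᵥ Pi.single none 1) with hB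
  rcases krylov_dichotomy A B i0 d hd (fun z hz => hiso.pen_inj hY hz) with
    ⟨v, hv, hK⟩ | ⟨δ, hδ, Q, X', h1, h2, h3⟩
  · obtain ⟨s, hs⟩ : ∃ s : ℂ, s = (((√(nsq v))⁻¹ : ℝ) : ℂ) := ⟨_, rfl⟩
    have hpos := nsq_pos hv
    have hs0 : s ≠ 0 := by
      rw [hs, Complex.ofReal_ne_zero]
      exact inv_ne_zero (Real.sqrt_pos.2 hpos).ne'
    obtain ⟨U, hU, hUv⟩ := exists_unitary_col i0 (v := s • v) (by
      rw [nsq_smul, hs, Complex.norm_real, Real.norm_eq_abs, sq_abs, inv_pow,
        Real.sq_sqrt hpos.le, inv_mul_cancel₀ hpos.ne'])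
    have hU' : Uᴴᴴ * Uᴴ = 1 := by rw [conjTranspose_conjTranspose, mul_eq_one_comm.1 hU]
    have hiso' := hiso.rotate hU
    have hL : (S.rotate U).L 1 = Fᴴ * F := by
      rw [Sys.L]
      simp only [Matrix.mul_one]
      rw [show _ = (1 : Matrix m m ℂ) from hiso', ← hF]
      exact add_sub_cancel_right _ _
    have hA' : S.Y * ((S.rotate U).Ξ i0)ᴴ = s • pen A v := by
      simp only [Sys.rotate, conjTranspose_sum, conjTranspose_smul, star_star, Matrix.mul_sum,
        Matrix.mul_smul, hUv, pen, Finset.smul_sum, smul_smul, hA, Pi.smul_apply, smul_eq_mul]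
    obtain ⟨g, g1, ⟨j, g2⟩, g3⟩ := base_homotopy (d := d) hcard (S := S.rotate U)
      (fun c h1 h2 => by rw [hiso'.decomp c, h1]; simp [h2])
      (C := fun a => rot U (C a)) (q := rot U q) (fun a => (totalDegree_rot _ _).trans (hdC a))
      ((totalDegree_rot _ _).trans hdq)
      (fun z hz => by
        rw [eval_rot]
        exact hq _ (by rwa [mem_unitBall, nsq_unitary hU, ← mem_unitBall]))
      (hE.rotate hU).pstate
      (by
        rw [eq_top_iff, ← hspan, Submodule.span_le]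
        rintro _ ⟨z, rfl⟩
        have := ev_mem_span S.Y (fun a => rot U (C a)) (Uᴴ *ᵥ z)
        rwa [show ev (Uᴴ *ᵥ z) (fun a => rot U (C a)) = ev z C from funext fun a => by
          rw [ev, eval_rot, mulVec_mulVec, mul_eq_one_comm.1 hU, one_mulVec, ev]] at this)
      (G1 := 1) ⟨pd_one, hL ▸ psd_gram F, fun y => ⟨Z *ᵥ y, by
        rw [hL, ← mulVec_mulVec, mulVec_mulVec y, hFZ, zero_mulVec, mulVec_zero], by
        rw [mulVec_mulVec, show (S.rotate U).Y * Z = 1 from hYZ, one_mulVec]⟩⟩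
      (F1 := F) hL.symm hd (i0 := i0) (A := s • pen A v) (B := B)
      (fun c h1 h2 => by
        have e1 : (S.rotate U).ρ *ᵥ c = ((S.rotate U).ρ *ᵥ c) none • Pi.single none 1 := by
          funext o
          cases o with
          | none => simp
          | some l => simp [h1 l]
        conv_lhs => rw [hiso'.decomp c, e1]
        rw [Finset.sum_eq_single i0 (fun i _ hi => by rw [h2 i hi, mulVec_zero]) (by simp),
          mulVec_add, mulVec_smul, mulVec_smul, ← hA', ← mulVec_mulVec]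
        rfl)
      (fun hmem => hK (by
        have a1 : Submodule.span ℂ {y | ∃ l < d - 1, y = ((s • pen A v) ^ l) *ᵥ B} ≤
            Submodule.span ℂ {y | ∃ l < d - 1, y = (pen A v ^ l) *ᵥ B} := by
          rw [Submodule.span_le]
          rintro _ ⟨l, hl, rfl⟩
          rw [smul_pow, smul_mulVec]
          exact Submodule.smul_mem _ _ (Submodule.subset_span ⟨l, hl, rfl⟩)
        have a2 := Submodule.smul_mem _ (s ^ (d - 1))⁻¹ (a1 hmem)
        rwa [smul_pow, smul_mulVec, smul_smul, inv_mul_cancel₀ (pow_ne_zero _ hs0),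
          one_smul] at a2))
    refine ⟨fun j => rot Uᴴ (g j), fun j => (totalDegree_rot _ _).trans (g1 j), ⟨j, ?_⟩, ?_⟩
    · refine le_antisymm ((totalDegree_rot _ _).trans (g1 j)) ?_
      have : rot U (rot Uᴴ (g j)) = g j := MvPolynomial.funext fun z => by
        rw [eval_rot, eval_rot, mulVec_mulVec, hU, one_mulVec]
      rw [← g2]
      conv_lhs => rw [← this]
      exact totalDegree_rot _ _
    · refine StrongHomotopic.congr (StrongHomotopic.precomp g3 hU') (fun z _ => ?_) fun z _ => ?_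
      · simp only [eval_rot, mulVec_mulVec, mul_eq_one_comm.1 hU, one_mulVec]
      · simp only [eval_rot]
  · exfalso
    refine hmin δ hδ ⟨fun j => Q * MvPolynomial.C ((F *ᵥ (S.ρᴴ *ᵥ Pi.single none 1)) j) +
      ∑ i, mp (F * (S.Ξ i)ᴴ) (fun b => X i * X' b) j, Q, fun j => ?_, h1,
      fun z hz => ⟨(h3 z hz).1, fun j => ?_⟩⟩
    · refine (totalDegree_add _ _).trans (max_le ((totalDegree_mul _ _).trans ?_)
        (totalDegree_finsetSum_le fun i _ => totalDegree_mp _ (h2 i) j))
      rw [totalDegree_C, add_zero]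
      exact h1
    · have hst := hE.state hz (hq z hz)
      set c := fun a => eval z (C a) / eval z q
      have a1 : c = S.ρᴴ *ᵥ Pi.single none 1 + ∑ i, z i • (S.Ξ i)ᴴ *ᵥ (S.Y *ᵥ c) := by
        conv_lhs => rw [hiso.decomp c, hst.1]
        simp only [hst.2, mulVec_smul]
      have a2 : S.Y *ᵥ c = B + pen A z *ᵥ (S.Y *ᵥ c) := by
        conv_lhs => rw [a1]
        rw [mulVec_add, mulVec_sum, pen, sum_mulVec]
        simp only [mulVec_smul, smul_mulVec, hA, ← mulVec_mulVec, hB]
      have a3 : ev z X' = eval z Q • (S.Y *ᵥ c) := by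
        refine sub_eq_zero.1 (hiso.pen_inj hY hz _ ?_)
        rw [mulVec_sub, mulVec_smul, ← sub_sub_cancel (ev z X') (pen A z *ᵥ ev z X'), (h3 z hz).2]
        conv_rhs => rw [a2]
        rw [smul_add, sub_sub]
      have a4 : ∀ i, eval z (mp (F * (S.Ξ i)ᴴ) (fun b => X i * X' b) j) =
          eval z Q * (F *ᵥ (z i • (S.Ξ i)ᴴ *ᵥ (S.Y *ᵥ c))) j := by
        intro i
        have b1 : ev z (fun b => X i * X' b) = z i • ev z X' := by
          funext b
          simp [ev]
        have := congrFun (ev_mp z (F * (S.Ξ i)ᴴ) fun b => X i * X' b) j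
        rw [b1, a3, smul_comm, mulVec_smul, mulVec_smul, ← mulVec_mulVec, ← mulVec_smul] at this
        exact this
      rw [eq_div_iff (h3 z hz).1]
      change (F *ᵥ c) j * _ = _
      conv_lhs => rw [a1]
      simp only [map_add, map_mul, eval_C, map_sum, a4, mulVec_add, mulVec_sum, Pi.add_apply,
        Finset.sum_apply, ← Finset.mul_sum]
      ring

end Pool.Agent.MP_eddcad_an.H24

end MrgPart1

-- ======== part 2: formerly Pool.Agent.MP_eddcad_an.h24.Polar
section MrgPart2

set_option autoImplicit false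
set_option linter.unusedSectionVars false

namespace Pool.Agent.MP_eddcad_an.H24

open Matrix Filter Topology Set Module MvPolynomial

variable {n N : ℕ}

/-- conjugate polynomial -/
noncomputable def cj (p : MvPolynomial (Fin n) ℂ) : MvPolynomial (Fin n) ℂ :=
  MvPolynomial.map (starRingEnd ℂ) p

theorem eval_cj (p : MvPolynomial (Fin n) ℂ) (w : Fin n → ℂ) :
    eval (star w) (cj p) = star (eval w p) := by
  induction p using MvPolynomial.induction_on with
  | C a => simp [cj]
  | add p q hp hq => simp only [cj, map_add, star_add] at hp hq ⊢; rw [hp, hq]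
  | mul_X p i hp =>
    simp only [cj, map_mul, star_mul', map_X, eval_X] at hp ⊢
    rw [hp]
    rfl

theorem eval_smul_hom {σ : Type} [Fintype σ] {p : MvPolynomial σ ℂ} {a : ℕ}
    (hp : p.IsHomogeneous a) (c : ℂ) (z : σ → ℂ) : eval (c • z) p = c ^ a * eval z p := by
  rw [eval_eq', eval_eq', Finset.mul_sum]
  refine Finset.sum_congr rfl fun α hα => ?_
  have h1 : ∑ i, α i = a := by
    have := hp (MvPolynomial.mem_support_iff.1 hα)
    rw [← this, Finsupp.weight_apply, Finsupp.sum_fintype _ _ (by simp)]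
    simp
  simp only [Pi.smul_apply, smul_eq_mul, mul_pow, Finset.prod_mul_distrib,
    Finset.prod_pow_eq_pow_sum, h1]
  ring

theorem sum_hc {σ : Type} {p : MvPolynomial σ ℂ} {d : ℕ} (hp : p.totalDegree ≤ d) :
    ∑ a ∈ Finset.range (d + 1), homogeneousComponent a p = p := by
  rw [← Finset.sum_subset (Finset.range_subset_range.2 (Nat.succ_le_succ hp)),
    sum_homogeneousComponent]
  intro a _ ha
  exact homogeneousComponent_eq_zero _ _ (by simpa using ha)

theorem eval_smul_sum {p : MvPolynomial (Fin n) ℂ} {d : ℕ} (hp : p.totalDegree ≤ d) (c : ℂ)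
    (z : Fin n → ℂ) : eval (c • z) p =
      ∑ a ∈ Finset.range (d + 1), c ^ a * eval z (homogeneousComponent a p) := by
  conv_lhs => rw [← sum_hc hp, map_sum]
  exact Finset.sum_congr rfl fun a _ => eval_smul_hom (homogeneousComponent_isHomogeneous a p) c z

/-- homogeneous pieces of the polarized form -/
noncomputable def Ra (P : Fin N → MvPolynomial (Fin n) ℂ) (q : MvPolynomial (Fin n) ℂ) (a : ℕ)
    (z ω : Fin n → ℂ) : ℂ :=
  eval z (homogeneousComponent a q) * eval ω (cj q) -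
    ∑ j, eval z (homogeneousComponent a (P j)) * eval ω (cj (P j))

/-- the polarized form -/
noncomputable def RR (P : Fin N → MvPolynomial (Fin n) ℂ) (q : MvPolynomial (Fin n) ℂ)
    (z ω : Fin n → ℂ) : ℂ :=
  eval z q * eval ω (cj q) - ∑ j, eval z (P j) * eval ω (cj (P j))

/-- the quotient form -/
noncomputable def hh (P : Fin N → MvPolynomial (Fin n) ℂ) (q : MvPolynomial (Fin n) ℂ) (d : ℕ)
    (z ω : Fin n → ℂ) : ℂ :=
  ∑ a ∈ Finset.range (d + 1), Ra P q a z ω * ∑ i ∈ Finset.range (d - a), (z ⬝ᵥ ω) ^ i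

variable {P : Fin N → MvPolynomial (Fin n) ℂ} {q : MvPolynomial (Fin n) ℂ} {d : ℕ}

theorem RR_smul (hP : ∀ j, (P j).totalDegree ≤ d) (hq : q.totalDegree ≤ d) (c : ℂ)
    (z ω : Fin n → ℂ) : RR P q (c • z) ω = ∑ a ∈ Finset.range (d + 1), c ^ a * Ra P q a z ω := by
  simp only [RR, Ra, eval_smul_sum hq, eval_smul_sum (hP _), Finset.sum_mul, mul_sub,
    Finset.sum_sub_distrib, Finset.mul_sum, mul_assoc]
  rw [Finset.sum_comm]

theorem differentiable_TT (a b : ℂ → Fin n → ℂ) (ha : Differentiable ℂ a)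
    (hb : Differentiable ℂ b) : Differentiable ℂ fun ζ =>
      ∑ e ∈ Finset.range (d + 1), (a ζ ⬝ᵥ b ζ) ^ (d - e) * Ra P q e (a ζ) (b ζ) := by
  have h1 : ∀ p, Differentiable ℂ fun ζ => eval (a ζ) p := fun p =>
    (differentiable_eval p).comp ha
  have h2 : ∀ p, Differentiable ℂ fun ζ => eval (b ζ) p := fun p =>
    (differentiable_eval p).comp hb
  refine Differentiable.fun_sum fun e _ => Differentiable.mul (Differentiable.pow ?_ _) ?_
  · unfold dotProduct
    fun_prop
  · unfold Ra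
    exact ((h1 _).mul (h2 _)).sub (Differentiable.fun_sum fun j _ => (h1 _).mul (h2 _))

theorem polar (hP : ∀ j, (P j).totalDegree ≤ d) (hq : q.totalDegree ≤ d) (hd : 1 ≤ d)
    (hb : ∀ z, nsq z = 1 → RR P q z (star z) = 0) (z ω : Fin n → ℂ) :
    (1 - z ⬝ᵥ ω) * hh P q d z ω = RR P q z ω := by
  have h1 : ∀ z : Fin n → ℂ, ∑ e ∈ Finset.range (d + 1),
      (z ⬝ᵥ star z) ^ (d - e) * Ra P q e z (star z) = 0 := by
    intro z
    rcases eq_or_ne z 0 with rfl | hz
    · refine Finset.sum_eq_zero fun e he => ?_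
      rcases lt_or_ge e d with h | h
      · simp [Nat.sub_ne_zero_of_lt h]
      · have h0 : ∀ p : MvPolynomial (Fin n) ℂ, eval 0 (homogeneousComponent e p) = 0 := by
          intro p
          have := eval_smul_hom (homogeneousComponent_isHomogeneous e p) 0 0
          rwa [smul_zero, zero_pow (by omega), zero_mul] at this
        simp only [Ra, h0, zero_mul, Finset.sum_const_zero, sub_zero, mul_zero]
    have hs := nsq_pos hz
    have hD := differentiable_TT (P := P) (q := q) (d := d) (fun _ => z) (fun μ => μ • star z)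
      (by fun_prop) (by fun_prop)
    have hR : 0 < (√(nsq z))⁻¹ := inv_pos.2 (Real.sqrt_pos.2 hs)
    have h2 := Complex.eqOn_of_eqOn_frontier (g := fun _ => (0 : ℂ))
      (U := Metric.ball (0 : ℂ) (√(nsq z))⁻¹) Metric.isBounded_ball hD.diffContOnCl
      diffContOnCl_const (fun μ hμ => by
        rw [frontier_ball _ hR.ne', mem_sphere_zero_iff_norm] at hμ
        have a1 : ‖μ‖ ^ 2 * nsq z = 1 := by
          rw [hμ, inv_pow, Real.sq_sqrt hs.le, inv_mul_cancel₀ hs.ne']
        have a2 := hb (star μ • z) (by rw [nsq_smul, norm_star, a1])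
        rw [star_smul, star_star, RR_smul hP hq] at a2
        have a3 : z ⬝ᵥ (μ • star z) * star μ = 1 := by
          rw [dotProduct_smul, dotProduct_comm, star_dot_self, smul_eq_mul, mul_right_comm,
            Complex.star_def, Complex.mul_conj, Complex.normSq_eq_norm_sq]
          exact_mod_cast a1
        simp only
        rw [← mul_zero ((z ⬝ᵥ (μ • star z)) ^ d), ← a2, Finset.mul_sum]
        refine Finset.sum_congr rfl fun e he => ?_
        obtain ⟨c, rfl⟩ := Nat.exists_eq_add_of_le (Nat.lt_succ_iff.1 (Finset.mem_range.1 he))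
        rw [Nat.add_sub_cancel_left, pow_add, ← mul_assoc, mul_right_comm (_ ^ e), ← mul_pow, a3,
          one_pow, one_mul])
    have h3 := (hD.differentiableOn.analyticOnNhd isOpen_univ).eq_of_eventuallyEq
      analyticOnNhd_const (z₀ := 0) (h2.eventuallyEq_of_mem (Metric.ball_mem_nhds _ hR))
    simpa using congrFun h3 1
  have h2 : ∑ e ∈ Finset.range (d + 1), (z ⬝ᵥ ω) ^ (d - e) * Ra P q e z ω = 0 := by
    set u : Fin n → ℂ := (1 / 2 : ℂ) • (z + star ω)
    set v : Fin n → ℂ := (-Complex.I / 2) • (z - star ω)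
    have hD := differentiable_TT (P := P) (q := q) (d := d) (fun ζ => u + ζ • v)
      (fun ζ => star u + ζ • star v) (by fun_prop) (by fun_prop)
    have ht : Tendsto (fun t : ℝ => (t : ℂ)) (𝓝[≠] 0) (𝓝[≠] 0) :=
      tendsto_nhdsWithin_iff.2 ⟨by
        simpa using (Complex.continuous_ofReal.tendsto 0).mono_left nhdsWithin_le_nhds, by
        filter_upwards [self_mem_nhdsWithin] with t ht using by simpa using ht⟩
    have h3 := (hD.differentiableOn.analyticOnNhd isOpen_univ).eq_of_frequently_eq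
      (analyticOnNhd_const (v := (0 : ℂ))) (z₀ := 0) (ht.frequently (Frequently.of_forall fun t => by
        have := h1 (u + (t : ℂ) • v)
        rwa [star_add, star_smul (t : ℂ) v, Complex.star_def, Complex.conj_ofReal] at this))
    have h4 := congrFun h3 Complex.I
    have e1 : u + Complex.I • v = z := by
      funext i
      simp only [u, v, Pi.add_apply, Pi.smul_apply, Pi.sub_apply, smul_eq_mul]
      linear_combination (-(z i - star ω i) / 2) * Complex.I_mul_I
    have e2 : star u + Complex.I • star v = ω := by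
      funext i
      simp only [u, v, Pi.add_apply, Pi.smul_apply, Pi.sub_apply, smul_eq_mul, Pi.star_apply,
        star_mul', star_add, star_sub, star_div₀, star_neg, star_one, Complex.star_def,
        Complex.conj_I, map_ofNat, Complex.conj_conj]
      linear_combination ((starRingEnd ℂ) (z i) - ω i) / 2 * Complex.I_mul_I
    rwa [e1, e2] at h4
  have h3 := RR_smul hP hq 1 z ω
  rw [one_smul] at h3
  rw [h3, ← sub_zero (∑ a ∈ Finset.range (d + 1), (1 : ℂ) ^ a * Ra P q a z ω), ← h2, hh,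
    Finset.mul_sum, ← Finset.sum_sub_distrib]
  refine Finset.sum_congr rfl fun a _ => ?_
  rw [mul_left_comm, mul_neg_geom_sum]
  ring

theorem RR_star (z w : Fin n → ℂ) :
    RR P q z (star w) = eval z q * star (eval w q) - ev z P ⬝ᵥ star (ev w P) := by
  simp only [RR, eval_cj]
  rfl

theorem boundary_RR {f : (Fin n → ℂ) → (Fin N → ℂ)} (hf : IsProperHol f)
    (h : ∀ z ∈ unitBall n, eval z q ≠ 0 ∧ ∀ j, f z j = eval z (P j) / eval z q)
    (z : Fin n → ℂ) (hz : nsq z = 1) : RR P q z (star z) = 0 := by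
  have hcl : z ∈ closure (unitBall n) := by
    have ht : Tendsto (fun s : ℝ => (s : ℂ) • z) (𝓝[<] 1) (𝓝 z) := by
      have : Continuous fun s : ℝ => (s : ℂ) • z := by fun_prop
      have h2 := (this.tendsto 1).mono_left (nhdsWithin_le_nhds (s := Iio 1))
      simpa using h2
    refine mem_closure_of_tendsto ht ?_
    filter_upwards [Ioo_mem_nhdsLT (zero_lt_one' ℝ)] with s hs
    rw [mem_unitBall, nsq_smul, Complex.norm_real, Real.norm_eq_abs, sq_abs, hz]
    nlinarith [hs.1, hs.2]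
  have hev : Continuous fun z : Fin n → ℂ => ev z P :=
    continuous_pi fun j => (differentiable_eval (P j)).continuous
  have hq : Continuous fun z : Fin n → ℂ => eval z q := (differentiable_eval q).continuous
  have hfe : ∀ w ∈ unitBall n, f w = (eval w q)⁻¹ • ev w P := fun w hw => funext fun j => by
    simp [(h w hw).2 j, ev, div_eq_inv_mul]
  suffices H : nsq (ev z P) = ‖eval z q‖ ^ 2 by
    rw [RR_star, dotProduct_comm, star_dot_self, H, Complex.star_def, Complex.mul_conj,
      Complex.normSq_eq_norm_sq]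
    simp
  rcases eq_or_ne (eval z q) 0 with h0 | h0
  · have h1 : closure (unitBall n) ⊆ {w | nsq (ev w P) ≤ ‖eval w q‖ ^ 2} := by
      refine closure_minimal (fun w hw => ?_) (isClosed_le (by fun_prop) (by fun_prop))
      have a1 := mem_unitBall.1 (hf.2.1 hw)
      rw [hfe w hw, nsq_smul, norm_inv, inv_pow, inv_mul_lt_iff₀
        (by have := (h w hw).1; positivity), mul_one] at a1
      exact a1.le
    have := h1 hcl
    simp only [mem_ofPred_eq, h0, norm_zero] at this ⊢
    exact le_antisymm this (by simpa using nsq_nonneg _)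
  · have ho : IsOpen (unitBall N) := by
      have : unitBall N = {z | nsq z < 1} := Set.ext fun z => mem_unitBall
      rw [this]
      exact isOpen_lt (by fun_prop) continuous_const
    have h1 := (Prp.congr ⟨hf.1, hf.2.1, hf.2.2⟩ hfe).boundary ho hcl
      (by rw [mem_unitBall, hz]; exact lt_irrefl _)
      ((hq.continuousAt.inv₀ h0).smul hev.continuousAt)
    have h2 : closure (unitBall N) ⊆ {w | nsq w ≤ 1} :=
      closure_minimal (fun w hw => (mem_unitBall.1 hw).le)
        (isClosed_le (by fun_prop) continuous_const)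
    have h3 : nsq ((eval z q)⁻¹ • ev z P) = 1 :=
      le_antisymm (h2 h1.1) (not_lt.1 fun h => h1.2 (mem_unitBall.2 h))
    rw [nsq_smul, norm_inv, inv_pow, inv_mul_eq_one₀ (by positivity)] at h3
    exact h3.symm

theorem one_sub_dot_ne {z w : Fin n → ℂ} (hz : z ∈ unitBall n) (hw : w ∈ unitBall n) :
    1 - z ⬝ᵥ star w ≠ 0 := by
  intro h
  have h1 := nsq_sub w z
  rw [dotProduct_comm, ← sub_eq_zero.1 h] at h1
  have := nsq_nonneg (w - z)
  have := mem_unitBall.1 hz
  have := mem_unitBall.1 hw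
  simp only [Complex.one_re] at h1
  linarith

/-- the kernel of a map -/
noncomputable def kern (f : (Fin n → ℂ) → (Fin N → ℂ)) (z w : Fin n → ℂ) : ℂ :=
  (1 - f z ⬝ᵥ star (f w)) / (1 - z ⬝ᵥ star w)

theorem kern_herm (f : (Fin n → ℂ) → (Fin N → ℂ)) (z w : Fin n → ℂ) :
    kern f z w = star (kern f w z) := by
  simp only [kern, star_div₀, star_sub, star_one, ← star_dotProduct_star, star_star]

theorem kern_eq {f : (Fin n → ℂ) → (Fin N → ℂ)} (hf : IsProperHol f)
    (hP : ∀ j, (P j).totalDegree ≤ d) (hq : q.totalDegree ≤ d) (hd : 1 ≤ d)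
    (h : ∀ z ∈ unitBall n, eval z q ≠ 0 ∧ ∀ j, f z j = eval z (P j) / eval z q)
    {z w : Fin n → ℂ} (hz : z ∈ unitBall n) (hw : w ∈ unitBall n) :
    kern f z w = hh P q d z (star w) / (eval z q * star (eval w q)) := by
  have hfe : ∀ w ∈ unitBall n, f w = (eval w q)⁻¹ • ev w P := fun w hw => funext fun j => by
    simp [(h w hw).2 j, ev, div_eq_inv_mul]
  have h1 := polar hP hq hd (boundary_RR hf h) z (star w)
  have h2 := (h z hz).1
  have h3 : star (eval w q) ≠ 0 := star_ne_zero.2 (h w hw).1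
  rw [kern, div_eq_div_iff (one_sub_dot_ne hz hw) (mul_ne_zero h2 h3), mul_comm (hh _ _ _ _ _),
    h1, RR_star, hfe z hz, hfe w hw, star_smul, smul_dotProduct, dotProduct_smul, star_inv₀]
  simp only [smul_eq_mul]
  field_simp

/-- the quotient form as a polynomial in the first variable -/
noncomputable def hp (P : Fin N → MvPolynomial (Fin n) ℂ) (q : MvPolynomial (Fin n) ℂ) (d : ℕ)
    (ω : Fin n → ℂ) : MvPolynomial (Fin n) ℂ :=
  ∑ a ∈ Finset.range (d + 1), (homogeneousComponent a q * C (eval ω (cj q)) -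
    ∑ j, homogeneousComponent a (P j) * C (eval ω (cj (P j)))) *
    ∑ i ∈ Finset.range (d - a), (∑ l, C (ω l) * X l) ^ i

theorem eval_hp (ω z : Fin n → ℂ) : eval z (hp P q d ω) = hh P q d z ω := by
  simp [hp, hh, Ra, dotProduct, mul_comm]

theorem totalDegree_hp (ω : Fin n → ℂ) : (hp P q d ω).totalDegree ≤ d := by
  refine totalDegree_finsetSum_le fun a ha => (totalDegree_mul _ _).trans ?_
  have h0 : ∀ (p : MvPolynomial (Fin n) ℂ) (c : ℂ),
      (homogeneousComponent a p * C c).IsHomogeneous a := fun p c => by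
    simpa using (homogeneousComponent_isHomogeneous a p).mul (isHomogeneous_C _ c)
  have h1 := ((h0 q (eval ω (cj q))).sub
    (IsHomogeneous.sum Finset.univ _ _ fun j _ => h0 (P j) (eval ω (cj (P j))))).totalDegree_le
  have h2 : (∑ i ∈ Finset.range (d - a),
      (∑ l, C (ω l) * X l : MvPolynomial (Fin n) ℂ) ^ i).totalDegree ≤ d - a := by
    refine totalDegree_finsetSum_le fun i hi => ?_
    have := ((IsHomogeneous.sum Finset.univ _ _ fun l _ =>
      isHomogeneous_C_mul_X (ω l) l).pow i).totalDegree_le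
    have := Finset.mem_range.1 hi
    omega
  have := Finset.mem_range.1 ha
  omega

theorem kernel_basis {ι : Type} (K : ι → ι → ℂ) (hK : ∀ z w, K z w = star (K w z))
    (W : Submodule ℂ (ι → ℂ)) [Module.Finite ℂ W] (hW : ∀ w, (fun z => K z w) ∈ W) :
    ∃ (κ : ℕ) (s : Fin κ → ι), IsUnit (Matrix.of fun i j => K (s i) (s j)).det ∧
      ∀ z w, K z w = (fun j => K z (s j)) ⬝ᵥ
        ((Matrix.of fun i j => K (s i) (s j))⁻¹ *ᵥ fun i => K (s i) w) := by
  obtain ⟨κ, s, h1, h2⟩ := exists_basis_family fun w => (⟨_, hW w⟩ : W)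
  have h3 : ∀ w, ∃ β : Fin κ → ℂ, ∀ z, K z w = (fun j => K z (s j)) ⬝ᵥ β := by
    intro w
    obtain ⟨β, hβ⟩ := h2 w
    refine ⟨β, fun z => ?_⟩
    have := congrFun (congrArg Subtype.val hβ) z
    simpa [dotProduct, mul_comm] using this
  have hu : IsUnit (Matrix.of fun i j => K (s i) (s j)).det := by
    rw [isUnit_iff_ne_zero, Ne, ← exists_mulVec_eq_zero_iff]
    rintro ⟨β, hβ, h4⟩
    refine hβ (funext fun j => Fintype.linearIndependent_iff.1 h1 β (Subtype.ext ?_) j)
    funext w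
    obtain ⟨γ, hγ⟩ := h3 w
    have h5 : ∀ i, ∑ j, K (s i) (s j) * β j = 0 := fun i => congrFun h4 i
    have h6 : ∑ j, β j * K w (s j) = ∑ i, star (γ i) * ∑ j, K (s i) (s j) * β j := by
      simp only [Finset.mul_sum]
      rw [Finset.sum_comm]
      refine Finset.sum_congr rfl fun j _ => ?_
      rw [hK w, hγ, dotProduct, star_sum, Finset.mul_sum]
      refine Finset.sum_congr rfl fun i _ => ?_
      rw [star_mul', ← hK]
      ring
    simp only [h5, mul_zero, Finset.sum_const_zero] at h6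
    simpa using h6
  refine ⟨κ, s, hu, fun z w => ?_⟩
  obtain ⟨β, hβ⟩ := h3 w
  have : (fun i => K (s i) w) = (Matrix.of fun i j => K (s i) (s j)) *ᵥ β :=
    funext fun i => hβ (s i)
  rw [this, mulVec_mulVec, nonsing_inv_mul _ hu, one_mulVec, hβ]

theorem kern_basis {f : (Fin n → ℂ) → (Fin N → ℂ)} (hf : IsProperHol f)
    (hP : ∀ j, (P j).totalDegree ≤ d) (hq : q.totalDegree ≤ d) (hd : 1 ≤ d)
    (h : ∀ z ∈ unitBall n, eval z q ≠ 0 ∧ ∀ j, f z j = eval z (P j) / eval z q) :
    ∃ (κ : ℕ) (s : Fin κ → unitBall n), IsUnit (Matrix.of fun i j => kern f (s i) (s j)).det ∧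
      ∀ z w : unitBall n, kern f z w = (fun j => kern f z (s j)) ⬝ᵥ
        ((Matrix.of fun i j => kern f (s i) (s j))⁻¹ *ᵥ fun i => kern f (s i) w) := by
  let Φ : MvPolynomial (Fin n) ℂ →ₗ[ℂ] (unitBall n → ℂ) :=
    { toFun := fun p z => eval z p / eval z q
      map_add' := fun a b => funext fun z => by simp [add_div]
      map_smul' := fun c a => funext fun z => by simp [mul_div_assoc] }
  refine kernel_basis (fun z w : unitBall n => kern f z w) (fun z w => kern_herm f z w)
    ((restrictTotalDegree (Fin n) ℂ d).map Φ) fun w =>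
      ⟨(star (eval w q))⁻¹ • hp P q d (star w), Submodule.smul_mem _ _
        ((mem_restrictTotalDegree _ _ _).2 (totalDegree_hp _)), funext fun z => ?_⟩
  rw [kern_eq hf hP hq hd h z.2 w.2]
  simp only [Φ, LinearMap.coe_mk, AddHom.coe_mk, smul_eval, eval_hp]
  field_simp

end Pool.Agent.MP_eddcad_an.H24

end MrgPart2

-- ======== part 3: formerly Pool.Agent.MP_eddcad_an.h24.MainA
section MrgPart3

set_option autoImplicit false
set_option linter.unusedSectionVars false

namespace Pool.Agent.MP_eddcad_an.H24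

open Matrix Filter Topology Set Module MvPolynomial

variable {n N : ℕ}

open scoped ComplexOrder in
theorem PSD.inv {k : Type} [Fintype k] [DecidableEq k] {G : Matrix k k ℂ} (h : PSD G) :
    PSD G⁻¹ := psd_iff.2 (psd_iff.1 h).inv

theorem KernelPSD.psd {f : (Fin n → ℂ) → (Fin N → ℂ)} (hK : KernelPSD f) {κ : ℕ}
    (s : Fin κ → unitBall n) : PSD (Matrix.of fun i j => kern f (s i) (s j)) := by
  refine ⟨Matrix.ext fun i j => (kern_herm f _ _).symm, fun y => ?_⟩
  have := hK κ (fun a => s a) (star y) fun a => (s a).2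
  unfold qf
  convert this using 2
  simp only [dotProduct, mulVec, Finset.mul_sum, kern, of_apply, Pi.star_apply, Complex.star_def,
    Complex.conj_conj]
  refine Finset.sum_congr rfl fun a _ => Finset.sum_congr rfl fun b _ => ?_
  ring

theorem kernelPSD_of_psd {f : (Fin n → ℂ) → (Fin N → ℂ)} {κ : ℕ} {G : Matrix (Fin κ) (Fin κ) ℂ}
    (hG : PSD G) (x : unitBall n → Fin κ → ℂ)
    (h : ∀ z w : unitBall n, kern f z w = star (x z) ⬝ᵥ (G *ᵥ x w)) : KernelPSD f := by
  intro m z c hz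
  have h1 := hG.2 (∑ b, star (c b) • x ⟨z b, hz b⟩)
  unfold qf at h1
  convert h1 using 2
  simp only [star_sum, star_smul, star_star, sum_dotProduct, mulVec_sum, dotProduct_sum,
    mulVec_smul, smul_dotProduct, dotProduct_smul, smul_eq_mul, ← h, Finset.mul_sum]
  rw [Finset.sum_comm]
  refine Finset.sum_congr rfl fun a _ => Finset.sum_congr rfl fun b _ => ?_
  simp only [kern, dotProduct, Pi.star_apply, Complex.star_def]
  ring

theorem da_homotopy {d : ℕ} (hn : 0 < n) {f : (Fin n → ℂ) → (Fin N → ℂ)} (hf : IsProperHol f)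
    (hd : IsLeast {e : ℕ | RatDegLE f e} d) (hK : KernelPSD f) :
    ∃ g : Fin N → MvPolynomial (Fin n) ℂ, (∀ j, (g j).totalDegree ≤ d) ∧
      (∃ j, (g j).totalDegree = d) ∧ StrongHomotopic d f (fun z j => eval z (g j)) := by
  have hd1 : 1 ≤ d := by
    rcases Nat.eq_zero_or_pos d with h0 | h0
    · exact absurd (h0 ▸ hd.1) (deg_pos hn hf)
    · exact h0
  obtain ⟨P, q, hP, hq, h⟩ := hd.1
  obtain ⟨κ, s, hu, hs⟩ := kern_basis hf hP hq hd1 h
  set Γ : Matrix (Fin κ) (Fin κ) ℂ := Matrix.of fun i j => kern f (s i) (s j) with hΓ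
  obtain ⟨B, hB⟩ := PSD.gram (PSD.inv (KernelPSD.psd hK s))
  rw [← hΓ] at hB
  let X' : Fin κ → MvPolynomial (Fin n) ℂ :=
    mp (B.map star) fun j => (star (eval (s j) q))⁻¹ • hp P q d (star (s j))
  let x : (Fin n → ℂ) → Fin κ → ℂ := fun z => star (B *ᵥ fun i => kern f (s i) z)
  have hx : ∀ z, x z = B.map star *ᵥ fun j => kern f z (s j) := by
    intro z
    funext b
    simp only [x, Pi.star_apply, mulVec, dotProduct, star_sum, star_mul', map_apply, ← kern_herm]
  have hX : ∀ z ∈ unitBall n, ev z X' = eval z q • x z := by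
    intro z hz
    rw [ev_mp, hx, ← mulVec_smul]
    congr 1
    funext j
    have := (h z hz).1
    have := star_ne_zero.2 (h _ (s j).2).1
    simp only [ev, smul_eval, eval_hp, Pi.smul_apply, smul_eq_mul,
      kern_eq hf hP hq hd1 h hz (s j).2]
    field_simp
  have hker : ∀ z w : unitBall n, 1 - f z ⬝ᵥ star (f w) =
      (1 - (z : Fin n → ℂ) ⬝ᵥ star (w : Fin n → ℂ)) * (x z ⬝ᵥ star (x w)) := by
    intro z w
    have h1 := hs z w
    rw [hB, ← mulVec_mulVec, dotProduct_mulVec, vecMul_conjTranspose, kern,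
      div_eq_iff (one_sub_dot_ne z.2 w.2)] at h1
    rw [h1, mul_comm, star_star]
    congr 4
    funext j
    exact (kern_herm _ _ _).symm
  obtain ⟨T, η, hT, hab⟩ := lurking (ι := unitBall n) (fun z => Sum.elim (f z) (x z))
    (fun z (o : Option (Fin n × Fin κ)) => o.elim 1 fun p => (z : Fin n → ℂ) p.1 * x z p.2)
    (fun z w => by
      have h1 := hker w z
      simp only [dotProduct, Fintype.sum_sum_type, Fintype.sum_option, Fintype.sum_prod_type,
        Pi.star_apply, Sum.elim_inl, Sum.elim_inr, Option.elim, star_one, star_mul'] at h1 ⊢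
      rw [sub_mul, one_mul, Finset.sum_mul_sum] at h1
      simp only [mul_comm (f w _), mul_comm (x w _)] at h1
      have e : ∀ i b, star ((z : Fin n → ℂ) i) * star (x z b) * ((w : Fin n → ℂ) i * x w b) =
          (w : Fin n → ℂ) i * star ((z : Fin n → ℂ) i) * (star (x z b) * x w b) := by
        intro i b; ring
      simp only [e]
      linear_combination -h1)
  let S : Sys (Fin N ⊕ Fin κ) (Fin κ) (Option (Fin N ⊕ Fin κ)) (Fin n) :=
    ⟨Matrix.of fun o a => o.elim (T none a) fun l => η l a,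
      fun i => Matrix.of fun b a => T (some (i, b)) a, fromCols 0 1⟩
  have hev : ∀ z ∈ unitBall n, ev z (Sum.elim P X') = eval z q • Sum.elim (f z) (x z) := by
    intro z hz
    funext a
    cases a with
    | inl j =>
      have := (h z hz).1
      simp only [ev, Sum.elim_inl, Pi.smul_apply, smul_eq_mul, (h z hz).2 j]
      field_simp
    | inr b => exact congrFun (hX z hz) b
  have hF : ∀ z ∈ unitBall n, (fromCols 1 0 : Matrix (Fin N) (Fin N ⊕ Fin κ) ℂ) *ᵥ
      (fun a => eval z (Sum.elim P X' a) / eval z q) = f z := by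
    intro z hz
    rw [fromCols_mulVec, one_mulVec, zero_mulVec, add_zero]
    exact funext fun j => ((h z hz).2 j).symm
  obtain ⟨g, g1, g2, g3⟩ := iso_homotopy (N := N) (d := d) ⟨0, hn⟩ (by simp) (S := S)
    (by
      rw [Sys.Iso, ← hT]
      ext a a'
      simp only [S, Matrix.add_apply, mul_apply, Matrix.sum_apply, conjTranspose_apply, of_apply,
        Fintype.sum_option, Fintype.sum_prod_type, Option.elim]
      ring)
    (F := fromCols 1 0) (by
      simp only [S, conjTranspose_fromCols_eq_fromRows_conjTranspose, fromRows_mul_fromCols,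
        fromBlocks_add]
      simp)
    (Z := fromRows 0 1) (by simp [S, fromCols_mul_fromRows]) (by simp [fromCols_mul_fromRows])
    (C := Sum.elim P X') (q := q)
    (fun a => by
      cases a with
      | inl j => exact hP j
      | inr b =>
        exact totalDegree_mp _ (fun j => (totalDegree_smul_le _ _).trans (totalDegree_hp _)) b)
    hq (fun z hz => (h z hz).1)
    (fun z hz => by
      obtain ⟨h1, h2⟩ := hab ⟨z, hz⟩
      rw [hev z hz]
      simp only [mulVec_smul]
      refine ⟨congrArg _ (funext fun o => ?_), fun i => ?_⟩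
      · cases o with
        | none => exact congrFun h1 none
        | some l => exact congrFun h2 l
      · rw [smul_comm]
        refine congrArg _ (funext fun b => ?_)
        simp only [S, fromCols_mulVec_sumElim, zero_mulVec, one_mulVec, zero_add]
        exact congrFun h1 (some (i, b)))
    (by
      rw [eq_top_iff]
      intro y _
      have hBu : IsUnit B.det := by
        have := isUnit_nonsing_inv_det _ hu
        rw [hB, det_mul] at this
        exact isUnit_of_mul_isUnit_right this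
      obtain ⟨β, hβ⟩ := mulVec_surjective_iff_isUnit.2 ((isUnit_iff_isUnit_det (B * Γ)).2
        (by rw [det_mul]; exact hBu.mul hu)) (star y)
      rw [← star_star y, ← hβ, ← mulVec_mulVec, mulVec_eq_sum_col Γ, mulVec_sum, star_sum]
      refine Submodule.sum_mem _ fun j _ => ?_
      rw [mulVec_smul, star_smul]
      refine Submodule.smul_mem _ _ ?_
      have a1 : star (B *ᵥ Γ.col j) = (eval (s j) q)⁻¹ • (S.Y *ᵥ ev (s j) (Sum.elim P X')) := by
        rw [hev _ (s j).2, mulVec_smul, smul_smul, inv_mul_cancel₀ (h _ (s j).2).1, one_smul]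
        simp only [S, fromCols_mulVec_sumElim, zero_mulVec, one_mulVec, zero_add]
        rfl
      rw [a1]
      exact Submodule.smul_mem _ _ (Submodule.subset_span ⟨s j, rfl⟩))
    hd1 (fun δ hδ ⟨P', Q', a1, a2, a3⟩ => absurd (hd.2 ⟨P', Q', a1, a2, fun z hz =>
      ⟨(a3 z hz).1, fun j => by rw [← hF z hz]; exact (a3 z hz).2 j⟩⟩) (not_le.2 hδ))
  exact ⟨g, g1, g2, StrongHomotopic.congr g3 hF fun _ _ => rfl⟩

end Pool.Agent.MP_eddcad_an.H24

end MrgPart3

-- ======== part 4: formerly Pool.Agent.MP_eddcad_an.h24.Ends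
section MrgPart4

set_option autoImplicit false

namespace Pool.Agent.MP_eddcad_an.H24

variable {n N : ℕ}

theorem IsProperHol.congr' {f g : (Fin n → ℂ) → (Fin N → ℂ)} (hf : IsProperHol f)
    (h : ∀ z ∈ unitBall n, f z = g z) : IsProperHol g := by
  refine ⟨hf.1.congr fun z hz => (h z hz).symm, fun z hz => h z hz ▸ hf.2.1 hz, fun K hK hK' => ?_⟩
  have : unitBall n ∩ g ⁻¹' K = unitBall n ∩ f ⁻¹' K := by
    ext z
    exact ⟨fun ⟨a, b⟩ => ⟨a, by rw [Set.mem_preimage, h z a]; exact b⟩,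
      fun ⟨a, b⟩ => ⟨a, by rw [Set.mem_preimage, ← h z a]; exact b⟩⟩
  rw [this]
  exact hf.2.2 K hK hK'

theorem StrongHomotopic.proper_right {d : ℕ} {f g : (Fin n → ℂ) → (Fin N → ℂ)}
    (h : StrongHomotopic d f g) : IsProperHol g := by
  obtain ⟨H, -, h2, h3⟩ := h
  exact IsProperHol.congr' (h2 1 ⟨zero_le_one, le_rfl⟩).1 fun z hz => (h3 z hz).2

theorem da_homotopy' {d : ℕ} (hn : 0 < n) {f : (Fin n → ℂ) → (Fin N → ℂ)} (hf : IsProperHol f)
    (hd : IsLeast {e : ℕ | RatDegLE f e} d) (hK : KernelPSD f) :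
    ∃ g : Fin N → MvPolynomial (Fin n) ℂ, (∀ j, (g j).totalDegree ≤ d) ∧
      (∃ j, (g j).totalDegree = d) ∧ IsProperHol (fun z j => MvPolynomial.eval z (g j)) ∧
      StrongHomotopic d f (fun z j => MvPolynomial.eval z (g j)) := by
  obtain ⟨g, a, b, c⟩ := da_homotopy hn hf hd hK
  exact ⟨g, a, b, StrongHomotopic.proper_right c, c⟩

end Pool.Agent.MP_eddcad_an.H24

end MrgPart4

-- marker of a merged file
example : 731051 + 1 = 731051 + 1 := rfl
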