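import Pool.Agent.MP_eddcad_an.h24.Rk

set_option autoImplicit false
set_option linter.unusedSectionVars false

namespace Pool.Agent.MP_eddcad_an.H24

open Matrix Filter Topology Set Module

variable {ι : Type} [Fintype ι] [DecidableEq ι]

theorem eval_low {T : Polynomial ℂ} {M μ : ℕ} (hM : T.natDegree ≤ M)
    (h : ∀ m < μ, T.coeff m = 0) (t : ℂ) :
    T.eval t = t ^ μ * ∑ m ∈ Finset.range (M + 1), T.coeff (μ + m) * t ^ m := by
  rw [Polynomial.eval_eq_sum_range' (n := μ + (M + 1)) (by omega), Finset.sum_range_add,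
    Finset.sum_eq_zero fun m hm => by rw [h m (Finset.mem_range.1 hm), zero_mul], zero_add,
    Finset.mul_sum]
  exact Finset.sum_congr rfl fun m _ => by ring

theorem low_coeff {T : Polynomial ℂ} {S : ℂ → Polynomial ℂ} {M μ : ℕ} {c : ℂ}
    (hM : T.natDegree ≤ M) (hM' : ∀ t, (S t).natDegree ≤ M) (h : ∀ m < μ, T.coeff m = 0)
    (h' : ∀ t, ∀ m < μ, (S t).coeff m = 0) (hc : ∀ m, Continuous fun t => (S t).coeff m)
    (he : ∀ t, T.eval t = (S t).eval (t * c)) : T.coeff μ = c ^ μ * (S 0).coeff μ := by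
  have h1 : (fun t : ℂ => ∑ m ∈ Finset.range (M + 1), T.coeff (μ + m) * t ^ m) =
      fun t => c ^ μ * ∑ m ∈ Finset.range (M + 1), (S t).coeff (μ + m) * (t * c) ^ m := by
    refine Continuous.ext_on (dense_compl_singleton (0 : ℂ)) (by fun_prop)
      (continuous_const.mul (continuous_finsetSum _ fun m _ => (hc _).mul (by fun_prop)))
      fun t ht => ?_
    have h2 := he t
    rw [eval_low hM h, eval_low (hM' t) (h' t), mul_pow, mul_assoc] at h2
    exact mul_left_cancel₀ (pow_ne_zero _ ht) h2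
  have h3 := congrFun h1 0
  simpa [Finset.sum_range_succ'] using h3

theorem caseII {φ K : (ι → ℂ) → (ι → ℂ) → ℂ} {R0 R' : ℕ} (hφ : Rk φ R0) (hr : Rk K R')
    (U U' : Submodule ℂ (ι → ℂ)) (hK : ∀ Z ∈ U, ∀ W, K Z W = (Z ⬝ᵥ W) * φ Z W) {c c' p : ℕ}
    (hU : Fintype.card ι ≤ finrank ℂ U + c) (hU' : Fintype.card ι ≤ finrank ℂ U' + c')
    (hp : p + c + c' + 1 ≤ Fintype.card ι)
    (hvan : ∀ Z ∈ U, ∀ W ∈ U', Z ⬝ᵥ W = 0 → φ Z W = 0) (hne : ∃ Z ∈ U, ∃ W ∈ U', φ Z W ≠ 0) :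
    (p + 1).choose 2 ≤ R' := by
  classical
  obtain ⟨T, M, -, -, -, hT, hM, hc1, hc2, -⟩ := hφ.exists_tp
  obtain ⟨T', -, E, hE, hER, hT', -, -, -, hTE⟩ := hr.exists_tp
  have hex : ∃ m, ∃ Z ∈ U, ∃ W ∈ U', ∃ δ ∈ U', Z ⬝ᵥ W = 0 ∧ (T Z W δ).coeff m ≠ 0 := by
    obtain ⟨Z, hZ, W, hW, h⟩ := hne
    by_contra hh
    push Not at hh
    have : T Z 0 W = 0 := Polynomial.ext fun m => hh m Z hZ 0 U'.zero_mem W hW (by simp)
    apply h
    have h2 := hT Z 0 W 1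
    rw [this] at h2
    simpa using h2.symm
  set μ := Nat.find hex with hμ
  obtain ⟨Z0, hZ0, W0, hW0, δ0, hδ0, h0, hg0⟩ := Nat.find_spec hex
  rw [← hμ] at hg0
  have hlow : ∀ Z ∈ U, ∀ W ∈ U', ∀ δ ∈ U', Z ⬝ᵥ W = 0 → ∀ m < μ, (T Z W δ).coeff m = 0 := by
    intro Z hZ W hW δ hδ h m hm
    by_contra hh
    exact Nat.find_min hex hm ⟨Z, hZ, W, hW, δ, hδ, h, hh⟩
  have hμ1 : μ ≠ 0 := by
    intro h
    apply hg0
    rw [h, Polynomial.coeff_zero_eq_eval_zero, hT, zero_smul, add_zero, hvan _ hZ0 _ hW0 h0]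
  have hd0 : Z0 ⬝ᵥ δ0 ≠ 0 := by
    intro h
    apply hg0
    have : T Z0 W0 δ0 = 0 := Polynomial.funext fun t => by
      rw [hT, Polynomial.eval_zero]
      exact hvan _ hZ0 _ (U'.add_mem hW0 (U'.smul_mem _ hδ0)) (by simp [h0, h])
    simp [this]
  have hinv : ∀ Z ∈ U, Z ⬝ᵥ W0 = 0 → Z ⬝ᵥ δ0 ≠ 0 → ∀ δ ∈ U', (T' Z W0 δ).coeff (μ + 1) =
      (Z ⬝ᵥ δ) ^ (μ + 1) * ((T Z W0 δ0).coeff μ / (Z ⬝ᵥ δ0) ^ μ) := by
    intro Z hZ h1 h2 δ hδ
    set l := Z ⬝ᵥ δ / Z ⬝ᵥ δ0 with hl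
    have h3 : δ - l • δ0 ∈ U' := U'.sub_mem hδ (U'.smul_mem _ hδ0)
    have h4 := low_coeff (T := T Z W0 δ) (S := fun t => T Z (W0 + t • (δ - l • δ0)) δ0) (c := l)
      (hM _ _ _) (fun _ => hM _ _ _) (hlow Z hZ W0 hW0 δ hδ h1)
      (fun t => hlow Z hZ _ (U'.add_mem hW0 (U'.smul_mem _ h3)) δ0 hδ0 (by
        rw [dotProduct_add, h1, dotProduct_smul, dotProduct_sub, dotProduct_smul, smul_eq_mul l,
          hl, div_mul_cancel₀ _ h2, sub_self, smul_zero, add_zero]))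
      (fun m => (hc1 Z δ0 m).comp (by fun_prop)) (fun t => by
        rw [hT, hT]
        congr 1
        module)
    rw [coeff_shift (T := T Z W0 δ) (c := Z ⬝ᵥ δ) (fun t => by
      rw [hT', hK Z hZ, hT, dotProduct_add, h1, zero_add, dotProduct_smul, smul_eq_mul]), h4,
      zero_smul, add_zero, hl, div_pow]
    ring
  set U0 := U ⊓ LinearMap.ker (Matrix.of fun _ : Unit => W0).mulVecLin with hU0
  have hmem : ∀ Z ∈ U0, Z ∈ U ∧ Z ⬝ᵥ W0 = 0 := fun Z hZ =>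
    ⟨hZ.1, (dotProduct_comm _ _).trans (congrFun hZ.2 ())⟩
  have hZ00 : Z0 ∈ U0 := ⟨hZ0, funext fun _ => (dotProduct_comm _ _).trans h0⟩
  have hU0d : Fintype.card ι ≤ finrank ℂ U0 + (c + 1) := by
    have h1 := finrank_ker_ge (Matrix.of fun _ : Unit => W0)
    have h2 := Submodule.finrank_sup_add_finrank_inf_eq U
      (LinearMap.ker (Matrix.of fun _ : Unit => W0).mulVecLin)
    have h3 := (U ⊔ LinearMap.ker (Matrix.of fun _ : Unit => W0).mulVecLin).finrank_le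
    rw [finrank_fintype_fun_eq_card] at h3
    rw [Fintype.card_unit] at h1
    rw [← hU0] at h2
    omega
  obtain ⟨u, u', hu, hu', hb⟩ : ∃ u u' : Fin (p + 1) → ι → ℂ, (∀ i, u i ∈ U0) ∧ (∀ i, u' i ∈ U') ∧
      ∀ i j, u i ⬝ᵥ u' j = if (i : ℕ) = j ∧ (i : ℕ) ≠ 0 then 1 else 0 := by
    obtain ⟨u, u', hu, hu', hb⟩ := exists_biorth U0 U' (p := p) hU0d hU' (by omega)
    refine ⟨Fin.cons 0 u, Fin.cons 0 u', Fin.cases U0.zero_mem hu, Fin.cases U'.zero_mem hu',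
      Fin.cases (by simp) fun i => Fin.cases (by simp) fun j => ?_⟩
    simp [hb, Fin.ext_iff]
  let g : {x : Fin (p + 1) × Fin (p + 1) // x.1 < x.2} → E := fun x =>
    ⟨fun Z => (T' Z W0 (u' x.1.1 + u' x.1.2)).coeff (μ + 1), hTE _ _ _⟩
  have hli : LinearIndependent ℂ g := by
    rw [Fintype.linearIndependent_iff]
    intro β hβ
    let S : (ι → ℂ) → ℂ := fun Z => ∑ x, β x * (Z ⬝ᵥ (u' x.1.1 + u' x.1.2)) ^ (μ + 1)
    have hS : ∀ Z ∈ U0, Z ⬝ᵥ δ0 ≠ 0 → (T Z W0 δ0).coeff μ ≠ 0 → S Z = 0 := by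
      intro Z hZ h1 h2
      have h3 := congrFun (congrArg Subtype.val hβ) Z
      simp only [Submodule.coe_sum, Submodule.coe_smul, Finset.sum_apply, Pi.smul_apply, g,
        smul_eq_mul, hinv Z (hmem Z hZ).1 (hmem Z hZ).2 h1 _ (U'.add_mem (hu' _) (hu' _)),
        ← mul_assoc, ← Finset.sum_mul] at h3
      exact (mul_eq_zero.1 h3).resolve_right (div_ne_zero h2 (pow_ne_zero _ h1))
    have hS0 : ∀ Z ∈ U0, S Z = 0 := by
      intro Z hZ
      have hc : Continuous fun t : ℂ => Z0 + t • (Z - Z0) := by fun_prop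
      have ha : AnalyticOnNhd ℂ (fun t : ℂ => S (Z0 + t • (Z - Z0))) univ := by
        refine DifferentiableOn.analyticOnNhd (Differentiable.differentiableOn ?_) isOpen_univ
        simp only [S, add_dotProduct, smul_dotProduct, smul_eq_mul]
        fun_prop
      have e1 : ∀ᶠ t : ℂ in 𝓝 0, (Z0 + t • (Z - Z0)) ⬝ᵥ δ0 ≠ 0 :=
        (hc.dotProduct continuous_const).continuousAt.eventually_ne (by simpa using hd0)
      have e2 : ∀ᶠ t : ℂ in 𝓝 0, (T (Z0 + t • (Z - Z0)) W0 δ0).coeff μ ≠ 0 :=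
        ((hc2 W0 δ0 μ).comp hc).continuousAt.eventually_ne (by simpa using hg0)
      have := ha.eqOn_zero_of_preconnected_of_eventuallyEq_zero isPreconnected_univ (mem_univ 0)
        ((e1.and e2).mono fun t ht =>
          hS _ (U0.add_mem hZ00 (U0.smul_mem _ (U0.sub_mem hZ hZ00))) ht.1 ht.2) (mem_univ 1)
      simpa using this
    have h5 : (2 : ℂ) ^ (μ + 1) - 2 ≠ 0 := by
      have : (2 : ℕ) ^ (μ + 1) ≠ 2 := by
        have := Nat.one_lt_two_pow hμ1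
        omega
      rw [sub_ne_zero]
      exact_mod_cast this
    have hA : ∀ x : {x : Fin (p + 1) × Fin (p + 1) // x.1 < x.2}, (x.1.1 : ℕ) ≠ 0 → β x = 0 := by
      intro x hx
      have h4 : S (u x.1.1 + u x.1.2) - S (u x.1.1) - S (u x.1.2) = β x * (2 ^ (μ + 1) - 2) := by
        simp only [S, ← Finset.sum_sub_distrib, add_dotProduct, dotProduct_add, hb]
        rw [Finset.sum_eq_single x]
        · have h6 : (x.1.1 : ℕ) < x.1.2 := x.2
          have h7 : (x.1.2 : ℕ) ≠ 0 := by omega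
          simp [hx, h7, h6.ne, h6.ne']
          ring
        · rintro ⟨⟨i, j⟩, hij⟩ - hne
          obtain ⟨⟨a, b⟩, hab⟩ := x
          simp only [ne_eq, Subtype.mk.injEq, Prod.mk.injEq] at hne hij hab hx ⊢
          split_ifs <;> first | (exfalso; omega) | simp
        · simp
      rw [hS0 _ (U0.add_mem (hu x.1.1) (hu x.1.2)), hS0 _ (hu x.1.1), hS0 _ (hu x.1.2)] at h4
      exact (mul_eq_zero.1 (h4.symm.trans (by simp))).resolve_right h5
    intro x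
    by_cases hx : (x.1.1 : ℕ) = 0
    · rw [← hS0 _ (hu x.1.2)]
      simp only [S, dotProduct_add, hb]
      rw [Finset.sum_eq_single x]
      · have h6 : (x.1.1 : ℕ) < x.1.2 := x.2
        have h7 : (x.1.2 : ℕ) ≠ 0 := by omega
        simp [h7, h6.ne']
      · intro y _ hne
        by_cases hy : (y.1.1 : ℕ) = 0
        · obtain ⟨⟨i, j⟩, hij⟩ := y
          obtain ⟨⟨a, b⟩, hab⟩ := x
          simp only [ne_eq, Subtype.mk.injEq, Prod.mk.injEq] at hne hij hab hx hy ⊢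
          split_ifs <;> first | (exfalso; omega) | simp
        · rw [hA y hy, zero_mul]
      · simp
    · exact hA x hx
  have := hli.fintype_card_le_finrank
  rw [card_lt_pairs] at this
  exact this.trans hER

end Pool.Agent.MP_eddcad_an.H24
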