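import Mathlib.Data.Int.Star
import Mathlib.Topology.Algebra.MvPolynomial
import Pool.Agent.MP_eddcad_an.h24.CaseII
import Pool.Agent.MP_eddcad_an.h24.Ends

-- ======== part 0: formerly Pool.Agent.MP_eddcad_an.h24.StepII
section MrgPart0

set_option autoImplicit false
set_option linter.unusedSectionVars false

namespace Pool.Agent.MP_eddcad_an.H24

open Matrix Filter Topology Set Module

variable {ι : Type} [Fintype ι] [DecidableEq ι]

theorem det_update_expand {h : (ι → ℂ) → (ι → ℂ) → ℂ} {R0 : ℕ} (hh : Rk h R0) {κ : ℕ}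
    (Z W : Fin (κ + 1) → ι → ℂ) (i0 l0 : Fin (κ + 1)) :
    ∃ γ : Fin κ → (ι → ℂ) → ℂ, (∀ l, IsPF (γ l)) ∧ ∀ Z' W',
      (Matrix.of fun i l => h (Function.update Z i0 Z' i) (Function.update W l0 W' l)).det =
        ((-1) ^ ((i0 : ℕ) + l0) *
          (Matrix.of fun a b => h (Z (i0.succAbove a)) (W (l0.succAbove b))).det) * h Z' W' +
          ∑ l, h Z' (W (l0.succAbove l)) * γ l W' := by
  refine ⟨fun l W' => (-1) ^ ((i0 : ℕ) + (l0.succAbove l : Fin (κ + 1))) *
      (Matrix.of fun a b => h (Z (i0.succAbove a))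
        (Function.update W l0 W' ((l0.succAbove l).succAbove b))).det,
    fun l => (IsPF.const _).mul (IsPF.det fun a b => ?_), fun Z' W' => ?_⟩
  · simp only [of_apply]
    by_cases hb : (l0.succAbove l).succAbove b = l0
    · simp only [hb, Function.update_self]
      exact hh.isPF _
    · simp only [Function.update_of_ne hb]
      exact IsPF.const _
  · rw [det_succ_row _ i0, Fin.sum_univ_succAbove _ l0]
    congr 1
    · simp only [of_apply, Function.update_self]
      rw [mul_right_comm]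
      congr 3
      ext a b
      simp
    · refine Finset.sum_congr rfl fun l _ => ?_
      simp only [of_apply, Function.update_self, Function.update_of_ne (Fin.succAbove_ne l0 l)]
      rw [mul_comm (_ ^ _), mul_assoc]
      congr 3
      ext a b
      simp

theorem exists_minor {α β : Type} (K : α → β → ℂ) {b m : ℕ} (hb : b ≤ m) (s : Fin m → α)
    (s' : Fin m → β) (hdet : (Matrix.of fun i l => K (s i) (s' l)).det ≠ 0) :
    ∃ (a : Fin b → α) (a' : Fin b → β), (Matrix.of fun i l => K (a i) (a' l)).det ≠ 0 := by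
  induction m, hb using Nat.le_induction with
  | base => exact ⟨s, s', hdet⟩
  | succ m _ ih =>
    rw [det_succ_row_zero] at hdet
    obtain ⟨j, -, hj⟩ := Finset.exists_ne_zero_of_sum_ne_zero hdet
    exact ih (fun i => s i.succ) (fun l => s' (j.succAbove l)) (right_ne_zero_of_mul hj)

theorem Rk.orth_ext {h : (ι → ℂ) → (ι → ℂ) → ℂ} {R0 R : ℕ} (hh : Rk h R0)
    (hr : Rk (fun Z W => (Z ⬝ᵥ W) * h Z W) R) {κ : ℕ} (W : Fin κ → ι → ℂ) (D : ℂ)
    {γ : Fin κ → (ι → ℂ) → ℂ} (hγ : ∀ l, IsPF (γ l)) :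
    ∃ K, Rk K R ∧ ∀ Z, (∀ l, Z ⬝ᵥ W l = 0) → ∀ W',
      K Z W' = (Z ⬝ᵥ W') * (D * h Z W' + ∑ l, h Z (W l) * γ l W') := by
  obtain ⟨T, -, -, -, -, hT, -⟩ := hh.exists_tp
  obtain ⟨τ, _, a, b, h1, h2, h3⟩ := hr
  beta_reduce at h3
  choose g hg using hγ
  refine ⟨_, ⟨τ, inferInstance, a, fun j => MvPolynomial.C D * b j + ∑ l, g l * ∑ i,
    MvPolynomial.X i * MvPolynomial.C ((lp (b j) (W l) (Pi.single i 1)).coeff (0 + 1)), h1, h2,
    fun _ _ => rfl⟩, fun Z hZ W' => ?_⟩
  have e : ∀ l i, ∑ j, a j Z * (lp (b j) (W l) (Pi.single i 1)).coeff (0 + 1) =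
      Z i * h Z (W l) := by
    intro l i
    have := coeff_shift (T := T Z (W l) (Pi.single i 1)) (c := Z i)
      (T' := ∑ j, Polynomial.C (a j Z) * lp (b j) (W l) (Pi.single i 1)) (fun t => by
        simp only [Polynomial.eval_finsetSum, Polynomial.eval_mul, Polynomial.eval_C, eval_lp,
          ← h3, hT, dotProduct_add, hZ, zero_add, dotProduct_smul, dotProduct_single, mul_one,
          smul_eq_mul]) 0
    rw [Polynomial.coeff_zero_eq_eval_zero, hT, zero_smul, add_zero] at this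
    rw [← this]
    simp only [Polynomial.finsetSum_coeff, Polynomial.coeff_C_mul]
  simp only [map_add, map_mul, map_sum, MvPolynomial.eval_C, MvPolynomial.eval_X, ← hg, mul_add,
    Finset.sum_add_distrib]
  congr 1
  · rw [mul_left_comm, h3, Finset.mul_sum]
    exact Finset.sum_congr rfl fun j _ => by ring
  · simp only [Finset.mul_sum]
    rw [Finset.sum_comm]
    refine Finset.sum_congr rfl fun l _ => ?_
    rw [Finset.sum_comm, dotProduct, Finset.sum_mul]
    refine Finset.sum_congr rfl fun i _ => ?_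
    rw [show Z i * W' i * (h Z (W l) * γ l W') = γ l W' * W' i * (Z i * h Z (W l)) by ring, ← e,
      Finset.mul_sum]
    exact Finset.sum_congr rfl fun j _ => by ring

theorem add_row {h : (ι → ℂ) → (ι → ℂ) → ℂ} {R0 R : ℕ} (hh : Rk h R0)
    (hr : Rk (fun Z W => (Z ⬝ᵥ W) * h Z W) R) {κ p : ℕ} (hp : p + 2 * κ + 1 ≤ Fintype.card ι)
    (hR : R < (p + 1).choose 2) (S : Fin (κ + 1) → Fin (κ + 1) → Prop) (i0 l0 : Fin (κ + 1))
    (h0 : ∀ l, l ≠ l0 → S i0 l) (Z W : Fin (κ + 1) → ι → ℂ)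
    (hdet : (Matrix.of fun i l => h (Z i) (W l)).det ≠ 0) (hS : ∀ i l, S i l → Z i ⬝ᵥ W l = 0) :
    ∃ Z W : Fin (κ + 1) → ι → ℂ, (Matrix.of fun i l => h (Z i) (W l)).det ≠ 0 ∧
      ∀ i l, (S i l ∨ i = i0 ∧ l = l0) → Z i ⬝ᵥ W l = 0 := by
  classical
  obtain ⟨γ, hγ, hΔ⟩ := det_update_expand hh Z W i0 l0
  generalize (-1) ^ ((i0 : ℕ) + l0) *
    (Matrix.of fun a b => h (Z (i0.succAbove a)) (W (l0.succAbove b))).det = D at hΔ
  let A : Matrix (Fin κ) ι ℂ := Matrix.of fun l => W (l0.succAbove l)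
  let A' : Matrix (Fin κ) ι ℂ :=
    Matrix.of fun i => if S (i0.succAbove i) l0 then Z (i0.succAbove i) else 0
  have hA : ∀ Z', Z' ∈ LinearMap.ker A.mulVecLin ↔ ∀ l, Z' ⬝ᵥ W (l0.succAbove l) = 0 := by
    intro Z'
    rw [LinearMap.mem_ker, funext_iff]
    refine forall_congr' fun l => ?_
    rw [dotProduct_comm]
    rfl
  have hA' : ∀ W', W' ∈ LinearMap.ker A'.mulVecLin ↔
      ∀ i, S (i0.succAbove i) l0 → Z (i0.succAbove i) ⬝ᵥ W' = 0 := by
    intro W'
    rw [LinearMap.mem_ker, funext_iff]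
    refine forall_congr' fun i => ?_
    change (if S (i0.succAbove i) l0 then Z (i0.succAbove i) else 0) ⬝ᵥ W' = 0 ↔ _
    split_ifs with hl <;> simp [hl]
  by_cases hv : ∀ Z' ∈ LinearMap.ker A.mulVecLin, ∀ W' ∈ LinearMap.ker A'.mulVecLin,
      Z' ⬝ᵥ W' = 0 → D * h Z' W' + ∑ l, h Z' (W (l0.succAbove l)) * γ l W' = 0
  · exfalso
    have r1 := (hh.const_mul D).add
      (Rk.sum Finset.univ fun l => Rk.single (hh.continuous (W (l0.succAbove l))) (hγ l))
    obtain ⟨K, r2, r3⟩ := hh.orth_ext hr (fun l => W (l0.succAbove l)) D hγ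
    have h1 := finrank_ker_ge A
    have h2 := finrank_ker_ge A'
    rw [Fintype.card_fin] at h1 h2
    refine absurd (caseII (p := p) r1 r2 _ _ (fun Z' hZ' => r3 Z' ((hA _).1 hZ')) h1 h2 (by omega)
      hv ⟨Z i0, (hA _).2 fun l => hS _ _ (h0 _ (Fin.succAbove_ne _ _)), W l0,
        (hA' _).2 fun i hi => hS _ _ hi, ?_⟩) (not_le.2 hR)
    rw [← hΔ]
    simpa using hdet
  · push Not at hv
    obtain ⟨Z', hZ', W', hW', h1, h2⟩ := hv
    refine ⟨Function.update Z i0 Z', Function.update W l0 W', by rw [hΔ]; exact h2, ?_⟩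
    intro i l hx
    rcases Fin.eq_self_or_eq_succAbove i0 i with rfl | ⟨i, rfl⟩ <;>
      rcases Fin.eq_self_or_eq_succAbove l0 l with rfl | ⟨l, rfl⟩
    · simpa using h1
    · simpa using (hA _).1 hZ' l
    · simpa using (hA' _).1 hW' i (by simpa using hx)
    · simpa using hS _ _ (by simpa using hx)

theorem exists_extend {h : (ι → ℂ) → (ι → ℂ) → ℂ} {R0 : ℕ} (hh : Rk h R0) {κ : ℕ}
    (Z W : Fin κ → ι → ℂ) (hdet : (Matrix.of fun i l => h (Z i) (W l)).det ≠ 0)
    (Z1 W1 : Fin (κ + 1) → ι → ℂ) (hdet1 : (Matrix.of fun i l => h (Z1 i) (W1 l)).det ≠ 0) :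
    ∃ Z' W', (Matrix.of fun i l : Fin (κ + 1) =>
      h (Fin.cons (α := fun _ => ι → ℂ) Z' Z i) (Fin.cons (α := fun _ => ι → ℂ) W' W l)).det ≠ 0 := by
  by_contra hc
  push Not at hc
  obtain ⟨γ, -, hΔ⟩ := det_update_expand hh (Fin.cons 0 Z) (Fin.cons 0 W) 0 0
  simp only [Fin.update_cons_zero, hc, Fin.succAbove_zero, Fin.cons_succ, Fin.val_zero, add_zero,
    pow_zero, one_mul] at hΔ
  set D := (Matrix.of fun i l => h (Z i) (W l)).det
  have e : (Matrix.of fun i l => h (Z1 i) (W1 l)) =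
      (Matrix.of fun i l => h (Z1 i) (W l)) * Matrix.of fun l j => -γ l (W1 j) / D := by
    ext i j
    have := hΔ (Z1 i) (W1 j)
    simp only [mul_apply, of_apply, ← mul_div_assoc, ← Finset.sum_div, mul_neg,
      Finset.sum_neg_distrib]
    rw [eq_div_iff hdet]
    linear_combination -this
  have h1 := rank_of_isUnit _ ((isUnit_iff_isUnit_det _).2 (isUnit_iff_ne_zero.2 hdet1))
  have h2 := (rank_mul_le_left (Matrix.of fun i l => h (Z1 i) (W l))
    (Matrix.of fun l j => -γ l (W1 j) / D)).trans (rank_le_width _)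
  rw [← e, h1, Fintype.card_fin] at h2
  omega

theorem stepII {h : (ι → ℂ) → (ι → ℂ) → ℂ} {R0 R : ℕ} (hh : Rk h R0)
    (hh' : Rk (fun W Z => h Z W) R0) (hr : Rk (fun Z W => (Z ⬝ᵥ W) * h Z W) R)
    (hr' : Rk (fun W Z => (W ⬝ᵥ Z) * h Z W) R) {κ p : ℕ} (Z W : Fin (κ + 1) → ι → ℂ)
    (hdet : (Matrix.of fun i l => h (Z i) (W l)).det ≠ 0) (hp : p + 2 * κ + 1 ≤ Fintype.card ι) :
    (κ + 1) * Fintype.card ι + (κ + 1) ≤ R + (κ + 1) * (κ + 1) ∨ (p + 1).choose 2 ≤ R := by
  classical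
  rw [or_iff_not_imp_right, not_le]
  intro hR
  have key : ∀ b ≤ κ + 1, ∃ Z W : Fin b → ι → ℂ,
      (Matrix.of fun i l => h (Z i) (W l)).det ≠ 0 ∧ ∀ i l, Z i ⬝ᵥ W l = 0 := by
    intro b hb
    induction b with
    | zero => exact ⟨Fin.elim0, Fin.elim0, by simp, fun i => i.elim0⟩
    | succ b ih =>
      obtain ⟨Z0, W0, hd0, ho0⟩ := ih (by omega)
      obtain ⟨Z1, W1, hd1⟩ := exists_minor h hb Z W hdet
      obtain ⟨Z', W', hd⟩ := exists_extend hh Z0 W0 hd0 Z1 W1 hd1
      have hp' : p + 2 * b + 1 ≤ Fintype.card ι := by omega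
      have k1 : ∀ A : Finset (Fin (b + 1) × Fin (b + 1)), (0, 0) ∉ A →
          ∃ Z W : Fin (b + 1) → ι → ℂ, (Matrix.of fun i l => h (Z i) (W l)).det ≠ 0 ∧
            ∀ i l, ((i ≠ 0 ∧ l ≠ 0) ∨ (i, l) ∈ A) → Z i ⬝ᵥ W l = 0 := by
        intro A
        induction A using Finset.induction_on with
        | empty =>
          refine fun _ => ⟨_, _, hd, Fin.cases (by simp) fun i => Fin.cases (by simp) fun l _ => ?_⟩
          simpa using ho0 i l
        | insert x A _ ih =>
          intro hx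
          rw [Finset.mem_insert, not_or] at hx
          obtain ⟨Z, W, h1, h2⟩ := ih hx.2
          obtain ⟨i0, l0⟩ := x
          by_cases hi : i0 = 0
          · have hl : l0 ≠ 0 := fun hl => hx.1 (by rw [hi, hl])
            obtain ⟨W2, Z2, h3, h4⟩ := add_row hh' hr' hp' hR
              (fun l i => (i ≠ 0 ∧ l ≠ 0) ∨ (i, l) ∈ A) l0 i0
              (fun i hi' => Or.inl ⟨hi ▸ hi', hl⟩) W Z (by rw [← det_transpose]; exact h1)
              fun l i hS => (dotProduct_comm _ _).trans (h2 i l hS)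
            refine ⟨Z2, W2, by rw [← det_transpose]; exact h3, fun i l hS =>
              (dotProduct_comm _ _).trans (h4 l i ?_)⟩
            rw [Finset.mem_insert, Prod.mk.injEq] at hS
            tauto
          · by_cases hl : l0 = 0
            · obtain ⟨Z2, W2, h3, h4⟩ := add_row hh hr hp' hR
                (fun i l => (i ≠ 0 ∧ l ≠ 0) ∨ (i, l) ∈ A) i0 l0
                (fun l hl' => Or.inl ⟨hi, hl ▸ hl'⟩) Z W h1 h2
              refine ⟨Z2, W2, h3, fun i l hS => h4 i l ?_⟩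
              rw [Finset.mem_insert, Prod.mk.injEq] at hS
              tauto
            · refine ⟨Z, W, h1, fun i l hS => h2 i l ?_⟩
              rw [Finset.mem_insert, Prod.mk.injEq] at hS
              rcases hS with hS | ⟨rfl, rfl⟩ | hS
              exacts [Or.inl hS, Or.inl ⟨hi, hl⟩, Or.inr hS]
      obtain ⟨Z2, W2, h1, h2⟩ := k1 (Finset.univ.erase (0, 0)) (by simp)
      obtain ⟨Z3, W3, h3, h4⟩ := add_row hh hr hp' hR (fun i l => ¬(i = 0 ∧ l = 0)) 0 0
        (fun l hl h => hl h.2) Z2 W2 h1 fun i l hS => h2 i l (Or.inr (by simpa using hS))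
      exact ⟨Z3, W3, h3, fun i l => h4 i l (em' _)⟩
  obtain ⟨Z, W, hdet, hS⟩ := key _ le_rfl
  exact caseI hh hr Z W hS hdet

end Pool.Agent.MP_eddcad_an.H24

end MrgPart0

-- ======== part 1: formerly Pool.Agent.MP_eddcad_an.h24.Hom
section MrgPart1

set_option autoImplicit false
set_option linter.unusedSectionVars false

namespace Pool.Agent.MP_eddcad_an.H24

open Matrix Filter Topology Set Module MvPolynomial

variable {n N : ℕ}

/-- homogenization to degree `D` in the variable `ε * X none` -/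
noncomputable def hom (ε : ℂ) (D : ℕ) (p : MvPolynomial (Fin n) ℂ) :
    MvPolynomial (Option (Fin n)) ℂ :=
  ∑ a ∈ Finset.range (D + 1), (C ε * X none) ^ (D - a) * rename some (homogeneousComponent a p)

theorem eval_hom {ε : ℂ} {D : ℕ} {p : MvPolynomial (Fin n) ℂ} (hp : p.totalDegree ≤ D)
    {Z : Option (Fin n) → ℂ} (hZ : ε * Z none ≠ 0) : eval Z (hom ε D p) =
      (ε * Z none) ^ D * eval ((ε * Z none)⁻¹ • fun i => Z (some i)) p := by
  rw [eval_smul_sum hp, hom, map_sum, Finset.mul_sum]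
  refine Finset.sum_congr rfl fun a ha => ?_
  have h1 : a ≤ D := Nat.lt_succ_iff.1 (Finset.mem_range.1 ha)
  rw [map_mul, map_pow, map_mul, eval_C, eval_X, eval_rename, pow_sub₀ _ hZ h1, inv_pow, mul_assoc]
  rfl

theorem ext_none {F G : (Option (Fin n) → ℂ) → ℂ} (hF : Continuous F) (hG : Continuous G)
    (h : ∀ Z, Z none ≠ 0 → F Z = G Z) (Z : Option (Fin n) → ℂ) : F Z = G Z := by
  have hc : Continuous fun t : ℂ => Function.update Z none t :=
    continuous_const.update none continuous_id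
  have := Continuous.ext_on (dense_compl_singleton (0 : ℂ)) (hF.comp hc) (hG.comp hc)
    fun t ht => h _ (by simpa using ht)
  simpa using congrFun this (Z none)

theorem rk_of_poly {ι τ : Type} [Fintype ι] [DecidableEq ι] [Fintype τ]
    {K : (ι → ℂ) → (ι → ℂ) → ℂ} (a b : τ → MvPolynomial ι ℂ)
    (h : ∀ Z W, K Z W = ∑ j, eval Z (a j) * eval W (b j)) :
    Rk K (Fintype.card τ) ∧ Rk (fun W Z => K Z W) (Fintype.card τ) :=
  ⟨⟨τ, inferInstance, fun j Z => eval Z (a j), b, le_rfl,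
      fun _ => MvPolynomial.continuous_eval _, h⟩,
    ⟨τ, inferInstance, fun j W => eval W (b j), a, le_rfl,
      fun _ => MvPolynomial.continuous_eval _, fun W Z => by simp only [h, mul_comm]⟩⟩

theorem hom_step {τ τ' : Type} [Fintype τ] [Fintype τ'] (a b : τ → MvPolynomial (Fin n) ℂ)
    (a' b' : τ' → MvPolynomial (Fin n) ℂ)
    (h : ∀ z ω, (1 - z ⬝ᵥ ω) * ∑ j, eval z (a j) * eval ω (b j) =
      ∑ j, eval z (a' j) * eval ω (b' j)) :
    ∃ (H : (Option (Fin n) → ℂ) → (Option (Fin n) → ℂ) → ℂ) (R0 : ℕ),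
      (Rk H R0 ∧ Rk (fun W Z => H Z W) R0) ∧
      (Rk (fun Z W => (Z ⬝ᵥ W) * H Z W) (Fintype.card τ') ∧
        Rk (fun W Z => (Z ⬝ᵥ W) * H Z W) (Fintype.card τ')) ∧
      ∀ z ω, H (fun o => o.elim 1 z) (fun o => o.elim (-1) ω) =
        ∑ j, eval z (a j) * eval ω (b j) := by
  obtain ⟨D, hD⟩ : ∃ D, (∀ j, (a j).totalDegree ≤ D ∧ (b j).totalDegree ≤ D) ∧
      ∀ j, (a' j).totalDegree ≤ D + 1 ∧ (b' j).totalDegree ≤ D + 1 := by
    refine ⟨(∑ j, ((a j).totalDegree + (b j).totalDegree)) +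
      ∑ j, ((a' j).totalDegree + (b' j).totalDegree), fun j => ?_, fun j => ?_⟩
    · have := Finset.single_le_sum (f := fun j => (a j).totalDegree + (b j).totalDegree)
        (fun _ _ => Nat.zero_le _) (Finset.mem_univ j)
      omega
    · have := Finset.single_le_sum (f := fun j => (a' j).totalDegree + (b' j).totalDegree)
        (fun _ _ => Nat.zero_le _) (Finset.mem_univ j)
      omega
  refine ⟨fun Z W => ∑ j, eval Z (hom 1 D (a j)) * eval W (hom (-1) D (b j)), Fintype.card τ,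
    rk_of_poly _ _ fun _ _ => rfl, rk_of_poly (fun j => -hom 1 (D + 1) (a' j))
      (fun j => hom (-1) (D + 1) (b' j)) fun Z W => ?_, fun z ω => ?_⟩
  · have hc := fun p : MvPolynomial (Option (Fin n)) ℂ => MvPolynomial.continuous_eval p
    revert Z
    refine ext_none (by fun_prop) (by fun_prop) fun Z hZ => ?_
    revert W
    refine ext_none (by fun_prop) (by fun_prop) fun W hW => ?_
    have h1 : (1 : ℂ) * Z none ≠ 0 := by simpa using hZ
    have h2 : (-1 : ℂ) * W none ≠ 0 := by simpa using hW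
    have h3 := h ((1 * Z none)⁻¹ • fun i => Z (some i)) ((-1 * W none)⁻¹ • fun i => W (some i))
    have h4 : Z ⬝ᵥ W = -((1 * Z none) * (-1 * W none)) * (1 - ((1 * Z none)⁻¹ • fun i => Z (some i))
        ⬝ᵥ ((-1 * W none)⁻¹ • fun i => W (some i))) := by
      rw [smul_dotProduct, dotProduct_smul, dotProduct, Fintype.sum_option, dotProduct]
      simp only [smul_eq_mul]
      field_simp
      ring
    simp only [map_neg, eval_hom (hD.1 _).1 h1, eval_hom (hD.1 _).2 h2, eval_hom (hD.2 _).1 h1,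
      eval_hom (hD.2 _).2 h2]
    rw [h4]
    generalize (1 * Z none)⁻¹ • (fun i => Z (some i)) = z at h3 ⊢
    generalize (-1 * W none)⁻¹ • (fun i => W (some i)) = ω at h3 ⊢
    generalize 1 * Z none = u
    generalize -1 * W none = v
    have e1 : ∑ j, u ^ D * eval z (a j) * (v ^ D * eval ω (b j)) =
        u ^ D * v ^ D * ∑ j, eval z (a j) * eval ω (b j) := by
      rw [Finset.mul_sum]
      exact Finset.sum_congr rfl fun j _ => by ring
    have e2 : ∑ j, -(u ^ (D + 1) * eval z (a' j)) * (v ^ (D + 1) * eval ω (b' j)) =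
        -(u ^ (D + 1) * v ^ (D + 1)) * ∑ j, eval z (a' j) * eval ω (b' j) := by
      rw [Finset.mul_sum]
      exact Finset.sum_congr rfl fun j _ => by ring
    rw [e1, e2, ← h3]
    ring
  · refine Finset.sum_congr rfl fun j _ => ?_
    rw [eval_hom (hD.1 _).1 (by simp), eval_hom (hD.1 _).2 (by simp)]
    simp

theorem hh_sep (P : Fin N → MvPolynomial (Fin n) ℂ) (q : MvPolynomial (Fin n) ℂ) (d : ℕ) :
    ∃ (τ : Type) (_ : Fintype τ) (a b : τ → MvPolynomial (Fin n) ℂ),
      ∀ z ω, hh P q d z ω = ∑ j, eval z (a j) * eval ω (b j) := by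
  let F : MvPolynomial (Fin n) (MvPolynomial (Fin n) ℂ) :=
    ∑ a ∈ Finset.range (d + 1), (MvPolynomial.map C (homogeneousComponent a q) * C (cj q) -
      ∑ j, MvPolynomial.map C (homogeneousComponent a (P j)) * C (cj (P j))) *
      ∑ i ∈ Finset.range (d - a), (∑ l, X l * C (X l)) ^ i
  refine ⟨F.support, inferInstance, fun α => monomial α 1, fun α => coeff α F, fun z ω => ?_⟩
  have h1 : ∀ p : MvPolynomial (Fin n) ℂ,
      eval₂Hom (eval ω) z (MvPolynomial.map C p) = eval z p := by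
    intro p
    induction p using MvPolynomial.induction_on with
    | C a => simp
    | add p q hp hq => rw [map_add, map_add, hp, hq, map_add]
    | mul_X p i hp => rw [map_mul, map_mul, hp, map_mul, map_X, eval₂Hom_X', eval_X]
  have h2 : eval₂Hom (eval ω) z F = hh P q d z ω := by
    simp only [F, hh, Ra, map_sum, map_mul, map_sub, map_pow, h1, eval₂Hom_C, eval₂Hom_X', eval_X,
      dotProduct]
  rw [← h2, coe_eval₂Hom, eval₂_eq, ← Finset.sum_coe_sort]
  refine Finset.sum_congr rfl fun α _ => ?_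
  rw [eval_monomial, one_mul, mul_comm]
  rfl

theorem rank_bound {P : Fin N → MvPolynomial (Fin n) ℂ} {q : MvPolynomial (Fin n) ℂ} {d : ℕ}
    (hpol : ∀ z ω, (1 - z ⬝ᵥ ω) * hh P q d z ω = RR P q z ω) {κ : ℕ}
    (s s' : Fin (κ + 1) → Fin n → ℂ)
    (hdet : (Matrix.of fun i l => hh P q d (s i) (s' l)).det ≠ 0) (hn : 2 * κ ≤ n) :
    (κ + 1) * (n + 1 - κ) ≤ N + 1 ∨ (n + 1 - 2 * κ).choose 2 ≤ N + 1 := by
  obtain ⟨τ, _, a, b, h⟩ := hh_sep P q d
  obtain ⟨H, R0, h1, h2, h3⟩ := hom_step a b (τ' := Option (Fin N)) (fun o => o.elim q P)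
    (fun o => o.elim (cj q) fun j => -cj (P j)) (fun z ω => by
      rw [← h, hpol, RR, Fintype.sum_option]
      simp [sub_eq_add_neg])
  have := stepII (p := n - 2 * κ) h1.1 h1.2 h2.1 (by simpa only [dotProduct_comm] using h2.2)
    (fun i o => o.elim 1 (s i)) (fun l o => o.elim (-1) (s' l))
    (by simpa only [h3, ← h] using hdet) (by simp; omega)
  simp only [Fintype.card_option, Fintype.card_fin] at this
  rw [show n + 1 - 2 * κ = n - 2 * κ + 1 by omega]
  refine this.imp_left fun h4 => ?_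
  obtain ⟨m, hm⟩ : ∃ m, n + 1 = m + κ := ⟨n + 1 - κ, by omega⟩
  rw [hm] at h4
  rw [hm, Nat.add_sub_cancel]
  nlinarith

end Pool.Agent.MP_eddcad_an.H24

end MrgPart1

-- ======== part 2: formerly Pool.Agent.MP_eddcad_an.h24.StepI
section MrgPart2

set_option autoImplicit false
set_option linter.unusedSectionVars false

namespace Pool.Agent.MP_eddcad_an.H24

open Matrix Filter Topology Set Module MvPolynomial

variable {n N : ℕ}

theorem neg_dim {τ α : Type} [Fintype τ] [DecidableEq τ] (ω : τ → ℝ) (ψ : α → τ → ℂ)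
    (v : α → Fin N → ℂ)
    (h : ∀ a b, star (ψ a) ⬝ᵥ (diagonal (fun t => (ω t : ℂ)) *ᵥ ψ b) = -(star (v a) ⬝ᵥ v b)) :
    finrank ℂ (Submodule.span ℂ (range ψ)) ≤ Fintype.card {t // ω t ≤ 0} := by
  let π : Submodule.span ℂ (range ψ) →ₗ[ℂ] ({t // ω t ≤ 0} → ℂ) :=
    (LinearMap.funLeft ℂ ℂ Subtype.val).comp (Submodule.subtype _)
  rw [← finrank_fintype_fun_eq_card ℂ]
  refine LinearMap.finrank_le_finrank_of_injective (f := π)
    ((injective_iff_map_eq_zero π).2 fun e he => Subtype.ext ?_)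
  obtain ⟨e, hmem⟩ := e
  obtain ⟨c, hc⟩ := Finsupp.mem_span_range_iff_exists_finsupp.1 hmem
  have h1 : star e ⬝ᵥ (diagonal (fun t => (ω t : ℂ)) *ᵥ e) =
      -(star (c.sum fun a r => r • v a) ⬝ᵥ c.sum fun a r => r • v a) := by
    rw [← hc]
    simp only [Finsupp.sum, star_sum, star_smul, sum_dotProduct, mulVec_sum, dotProduct_sum,
      mulVec_smul, smul_dotProduct, dotProduct_smul, h, smul_neg, Finset.sum_neg_distrib]
  have h2 : star e ⬝ᵥ (diagonal (fun t => (ω t : ℂ)) *ᵥ e) = ((∑ t, ω t * ‖e t‖ ^ 2 : ℝ) : ℂ) := by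
    simp only [dotProduct, mulVec_diagonal, Pi.star_apply, Complex.ofReal_sum, Complex.ofReal_mul]
    refine Finset.sum_congr rfl fun t _ => ?_
    rw [mul_left_comm, Complex.star_def, ← Complex.normSq_eq_conj_mul_self,
      Complex.normSq_eq_norm_sq]
  rw [h2, star_dot_self, ← Complex.ofReal_neg, Complex.ofReal_inj] at h1
  have h3 : ∀ t, ω t ≤ 0 → e t = 0 := fun t ht => congrFun he ⟨t, ht⟩
  have h4 : ∀ t ∈ Finset.univ, 0 ≤ ω t * ‖e t‖ ^ 2 := fun t _ => by
    rcases le_or_gt (ω t) 0 with ht | ht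
    · simp [h3 t ht]
    · positivity
  have h5 := (Finset.sum_eq_zero_iff_of_nonneg h4).1
    (le_antisymm (h1.trans_le (neg_nonpos.2 (nsq_nonneg _))) (Finset.sum_nonneg h4))
  funext t
  rcases le_or_gt (ω t) 0 with ht | ht
  · exact h3 t ht
  · simpa [ht.ne'] using h5 t (Finset.mem_univ t)

theorem card_neg {κ : ℕ} (hn : 0 < n) (l : Fin κ → ℝ) (hl : ∀ a, l a ≠ 0) {a0 : Fin κ}
    (h0 : l a0 < 0) : Fintype.card {t : Option (Fin n) × Fin κ //
      t.1.elim (l t.2) (fun _ => -l t.2) ≤ 0} + n ≤ 1 + n * κ := by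
  rw [Fintype.card_subtype, Finset.card_filter, Fintype.sum_prod_type_right,
    ← Finset.add_sum_erase _ _ (Finset.mem_univ a0)]
  have h1 := Finset.sum_le_card_nsmul (Finset.univ.erase a0) (fun a => ∑ o : Option (Fin n),
    if o.elim (l a) (fun _ => -l a) ≤ 0 then 1 else 0) n fun a _ => by
      rw [Fintype.sum_option]
      rcases lt_or_gt_of_ne (hl a) with h | h
      · simp [h.le, h.not_ge, Nat.succ_le_iff.2 hn]
      · simp [h.le, h.not_ge]
  rw [Finset.card_erase_of_mem (Finset.mem_univ _), Finset.card_univ, Fintype.card_fin,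
    smul_eq_mul] at h1
  have h2 : (∑ o : Option (Fin n), if o.elim (l a0) (fun _ => -l a0) ≤ 0 then 1 else 0) = 1 := by
    rw [Fintype.sum_option]
    simp [h0.le, h0.not_ge]
  obtain ⟨k, rfl⟩ : ∃ k, κ = k + 1 := ⟨κ - 1, by have := a0.pos; omega⟩
  simp only [h2]
  rw [Nat.add_sub_cancel] at h1
  nlinarith

theorem isOpen_unitBall' : IsOpen (unitBall n) :=
  isOpen_lt (by fun_prop) continuous_const

theorem stepI_core {κ : ℕ} (hn : 0 < n) (f : (Fin n → ℂ) → Fin N → ℂ)
    (x : (Fin n → ℂ) → Fin κ → ℂ) (l : Fin κ → ℝ) (hl : ∀ a, l a ≠ 0) {a0 : Fin κ}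
    (h0 : l a0 < 0)
    (h : ∀ z ∈ unitBall n, ∀ w ∈ unitBall n, (1 - z ⬝ᵥ star w) *
      (star (x z) ⬝ᵥ (diagonal (fun a => (l a : ℂ)) *ᵥ x w)) = 1 - f z ⬝ᵥ star (f w))
    (s : Fin κ → unitBall n) (hc : ∀ i, ContinuousAt x (s i))
    (hdet : (Matrix.of fun i j => x (s i) j).det ≠ 0) : n + κ ≤ κ.choose 2 + 2 := by
  let ω : Option (Fin n) × Fin κ → ℝ := fun t => t.1.elim (l t.2) fun _ => -l t.2
  let ψ : (Fin n → ℂ) → Option (Fin n) × Fin κ → ℂ :=
    fun w t => t.1.elim 1 (star w) * x w t.2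
  have hψ : ∀ z ∈ unitBall n, ∀ w ∈ unitBall n,
      star (ψ z) ⬝ᵥ (diagonal (fun t => (ω t : ℂ)) *ᵥ ψ w) = 1 - f z ⬝ᵥ star (f w) := by
    intro z hz w hw
    rw [← h z hz w hw]
    simp only [dotProduct, mulVec_diagonal, Fintype.sum_prod_type, Fintype.sum_option, ψ, ω,
      Option.elim, Pi.star_apply, star_mul', star_star, star_one, one_mul,
      Finset.sum_mul_sum, Complex.ofReal_neg, sub_eq_add_neg, add_mul, neg_mul,
      ← Finset.sum_neg_distrib]
    congr 1
    exact Finset.sum_congr rfl fun i _ => Finset.sum_congr rfl fun a _ => by ring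
  have hz0 : (0 : Fin n → ℂ) ∈ unitBall n := by simp [unitBall]
  have h1 := neg_dim ω (fun w : unitBall n => ψ w - ψ 0) (fun w => star (f w - f 0)) fun a b => by
    simp only [star_sub, mulVec_sub, sub_dotProduct, dotProduct_sub, hψ _ a.2 _ b.2,
      hψ _ a.2 _ hz0, hψ _ hz0 _ b.2, hψ _ hz0 _ hz0, star_star]
    ring
  have h2 := card_neg hn l hl h0
  set S := Submodule.span ℂ (range fun w : unitBall n => ψ w - ψ 0) ⊔ Submodule.span ℂ {ψ 0}
    with hS
  have h3 : finrank ℂ S ≤ _ := Submodule.finrank_add_le_finrank_add_finrank _ _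
  have h4 : finrank ℂ (Submodule.span ℂ {ψ 0}) ≤ 1 := by
    simpa using finrank_span_le_card (R := ℂ) ({ψ 0} : Set _)
  have h5 := Subspace.finrank_add_finrank_dualAnnihilator_eq S
  rw [finrank_fintype_fun_eq_card, Fintype.card_prod, Fintype.card_option, Fintype.card_fin,
    Fintype.card_fin] at h5
  have hmem : ∀ w ∈ unitBall n, ψ w ∈ S := fun w hw => by
    rw [← sub_add_cancel (ψ w) (ψ 0)]
    exact Submodule.add_mem_sup (Submodule.subset_span ⟨⟨w, hw⟩, rfl⟩)
      (Submodule.mem_span_singleton_self _)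
  have h6 : finrank ℂ S.dualAnnihilator ≤ κ.choose 2 := by
    refine syz_bound (V := Fin n → ℂ) (fun ζ => x (star ζ)) (fun i => star (s i))
      (fun i => ContinuousAt.comp (by simpa using hc i) continuous_star.continuousAt)
      (by simpa using hdet)
      { toFun := fun φ ζ a => ∑ o : Option (Fin n), o.elim 1 ζ * φ.1 (Pi.single (o, a) 1)
        map_add' := fun _ _ => by ext; simp [mul_add, Finset.sum_add_distrib]
        map_smul' := fun _ _ => by ext; simp [Finset.mul_sum, mul_left_comm, mul_add] }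
      (fun φ ζ u t => ?_) (fun φ hφ => ?_) fun φ i => ?_
    · funext a
      simp only [LinearMap.coe_mk, AddHom.coe_mk, Fintype.sum_option, Option.elim, Pi.add_apply,
        Pi.smul_apply, Pi.sub_apply, smul_eq_mul, add_mul, Finset.sum_add_distrib, mul_assoc,
        ← Finset.mul_sum]
      ring
    · have e0 : ∀ a, φ.1 (Pi.single (none, a) 1) = 0 := fun a => by
        simpa [Fintype.sum_option] using congrFun (congrFun hφ 0) a
      refine Subtype.ext ((Pi.basisFun ℂ _).ext fun ⟨o, a⟩ => ?_)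
      rw [Pi.basisFun_apply]
      cases o with
      | none => exact e0 a
      | some i =>
        simpa [Fintype.sum_option, e0, Pi.single_apply] using
          congrFun (congrFun hφ (Pi.single i 1)) a
    · have : ∀ᶠ ζ : Fin n → ℂ in 𝓝 (star (s i)), star ζ ∈ unitBall n :=
        continuous_star.continuousAt.eventually_mem
          (isOpen_unitBall'.mem_nhds (by simp))
      refine this.mono fun ζ hζ => ?_
      have e := (Submodule.mem_dualAnnihilator _).1 φ.2 _ (hmem _ hζ)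
      rw [← e]
      conv_rhs => rw [pi_eq_sum_univ' (ψ (star ζ)), map_sum, Fintype.sum_prod_type_right]
      simp only [dotProduct, LinearMap.coe_mk, AddHom.coe_mk, Finset.sum_mul, map_smul, ψ,
        star_star, smul_eq_mul]
      exact Finset.sum_congr rfl fun a _ => Finset.sum_congr rfl fun o _ => by ring
  have h7 : (n + 1) * κ = n * κ + κ := by ring
  change finrank ℂ _ ≤ Fintype.card {t : Option (Fin n) × Fin κ //
      t.1.elim (l t.2) (fun _ => -l t.2) ≤ 0} at h1
  omega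

theorem continuousAt_kern {f : (Fin n → ℂ) → (Fin N → ℂ)} (hf : IsProperHol f)
    {z w : Fin n → ℂ} (hz : z ∈ unitBall n) (hw : w ∈ unitBall n) :
    ContinuousAt (kern f z) w := by
  have h1 : ContinuousAt f w := hf.1.continuousOn.continuousAt (isOpen_unitBall'.mem_nhds hw)
  have h2 : Continuous fun y : Fin N → ℂ => 1 - f z ⬝ᵥ star y := by fun_prop
  have h3 : Continuous fun y : Fin n → ℂ => 1 - z ⬝ᵥ star y := by fun_prop
  exact (h2.continuousAt.comp h1).div h3.continuousAt (one_sub_dot_ne hz hw)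

theorem stepI {κ : ℕ} (hn : 0 < n) {f : (Fin n → ℂ) → (Fin N → ℂ)} (hf : IsProperHol f)
    (s : Fin κ → unitBall n) (hu : IsUnit (Matrix.of fun i j => kern f (s i) (s j)).det)
    (hs : ∀ z w : unitBall n, kern f z w = (fun j => kern f z (s j)) ⬝ᵥ
        ((Matrix.of fun i j => kern f (s i) (s j))⁻¹ *ᵥ fun i => kern f (s i) w))
    (hκ : (κ - 1).choose 2 + 1 < n) : KernelPSD f := by
  set Γ : Matrix (Fin κ) (Fin κ) ℂ := Matrix.of fun i j => kern f (s i) (s j) with hΓ
  have hH : Γ⁻¹.IsHermitian :=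
    IsHermitian.inv (Matrix.ext fun i j => (kern_herm f _ _).symm)
  obtain ⟨U, hU, hG⟩ : ∃ U : Matrix (Fin κ) (Fin κ) ℂ, IsUnit U.det ∧
      Γ⁻¹ = Uᴴ * diagonal (fun a => (hH.eigenvalues a : ℂ)) * U := by
    refine ⟨star (hH.eigenvectorUnitary : Matrix _ _ ℂ), ?_, ?_⟩
    · rw [← isUnit_iff_isUnit_det]
      exact (Unitary.isUnit_coe (U := hH.eigenvectorUnitary)).star
    · conv_lhs => rw [hH.spectral_theorem, Unitary.conjStarAlgAut_apply]
      rw [star_eq_conjTranspose, conjTranspose_conjTranspose]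
      rfl
  have hl : ∀ a, hH.eigenvalues a ≠ 0 := by
    intro a ha
    have h1 := (isUnit_nonsing_inv_det _ hu).ne_zero
    rw [hH.det_eq_prod_eigenvalues] at h1
    exact h1 (Finset.prod_eq_zero (Finset.mem_univ a) (by simp [ha]))
  generalize hH.eigenvalues = l at hG hl
  have hk : ∀ z w : unitBall n, kern f z w = star (U *ᵥ fun i => kern f (s i) z) ⬝ᵥ
      (diagonal (fun a => (l a : ℂ)) *ᵥ (U *ᵥ fun i => kern f (s i) w)) := by
    intro z w
    rw [hs, hG, ← dot_conj]
    congr 1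
    exact funext fun j => kern_herm _ _ _
  by_cases hpos : ∀ a, 0 ≤ l a
  · refine kernelPSD_of_psd ?_ _ hk
    open scoped ComplexOrder in
    exact psd_iff.2 (posSemidef_diagonal_iff.2 fun a => by exact_mod_cast hpos a)
  · exfalso
    push Not at hpos
    obtain ⟨a0, h0⟩ := hpos
    have := stepI_core hn f (fun w => U *ᵥ fun i => kern f (s i) w) l hl h0
      (fun z hz w hw => by
        rw [← hk ⟨z, hz⟩ ⟨w, hw⟩, kern, mul_div_cancel₀ _ (one_sub_dot_ne hz hw)]) s
      (fun i => (continuous_const.matrix_mulVec continuous_id).continuousAt.comp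
        (continuousAt_pi.2 fun j => continuousAt_kern hf (s j).2 (s i).2)) (by
        have : (Matrix.of fun i j => (U *ᵥ fun a => kern f (s a) (s i)) j) = (U * Γ)ᵀ := rfl
        rw [this, det_transpose, det_mul]
        exact (hU.mul hu).ne_zero)
    obtain ⟨k, rfl⟩ : ∃ k, κ = k + 1 := ⟨κ - 1, by have := a0.pos; omega⟩
    rw [Nat.add_sub_cancel] at hκ
    rw [Nat.choose_succ_succ' k 1, Nat.choose_one_right, show 1 + 1 = 2 from rfl] at this
    omega

theorem kernelPSD_of_range {κ : ℕ} {f : (Fin n → ℂ) → (Fin N → ℂ)} (hf : IsProperHol f) {d : ℕ}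
    (hd : RatDegLE f d) (h1 : (κ - 1).choose 2 + 1 < n)
    (h2 : N + 1 < (κ + 1) * (n + 1 - κ)) (h3 : N + 1 < (n + 1 - 2 * κ).choose 2) :
    KernelPSD f := by
  have hn : 0 < n := by omega
  have hd1 : 1 ≤ d := by
    rcases Nat.eq_zero_or_pos d with h0 | h0
    · exact absurd (h0 ▸ hd) (deg_pos hn hf)
    · exact h0
  obtain ⟨P, q, hP, hq, h⟩ := hd
  obtain ⟨κ0, s, hu, hs⟩ := kern_basis hf hP hq hd1 h
  rcases le_or_gt κ0 κ with hk | hk
  · exact stepI hn hf s hu hs
      (lt_of_le_of_lt (Nat.succ_le_succ (Nat.choose_le_choose 2 (by omega))) h1)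
  · exfalso
    obtain ⟨a, a', ha⟩ := exists_minor (fun z w : unitBall n => kern f z w) (b := κ + 1) hk s s
      hu.ne_zero
    have hn2 : 2 * κ ≤ n := by
      by_contra hh
      rw [Nat.sub_eq_zero_of_le (by omega : n + 1 ≤ 2 * κ)] at h3
      simp at h3
    have := rank_bound (polar hP hq hd1 (boundary_RR hf h)) (fun i => a i) (fun l => star (a' l))
      (fun h0 => ha (by
        have e : (Matrix.of fun i l => kern f (a i) (a' l)) =
            diagonal (fun i => (eval (a i) q)⁻¹) * (Matrix.of fun i l =>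
              hh P q d (a i) (star (a' l))) * diagonal fun l => (star (eval (a' l) q))⁻¹ := by
          ext i l
          rw [mul_diagonal, diagonal_mul, of_apply, of_apply,
            kern_eq hf hP hq hd1 h (a i).2 (a' l).2]
          ring
        rw [e, det_mul, det_mul, h0, mul_zero, zero_mul])) hn2
    omega

end Pool.Agent.MP_eddcad_an.H24

end MrgPart2

-- marker of a merged file
example : 731051 + 395739 = 731051 + 395739 := rfl
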