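import Mathlib.LinearAlgebra.Matrix.FiniteDimensional
import Pool.Agent.MP_eddcad_an.h24.Ends

-- ======== part 0: formerly Pool.Agent.MP_eddcad_an.h24.Syz
section MrgPart0

set_option autoImplicit false
set_option linter.unusedSectionVars false

namespace Pool.Agent.MP_eddcad_an.H24

open Matrix Filter Topology Set Module

theorem card_lt_pairs (b : ℕ) : Fintype.card {x : Fin b × Fin b // x.1 < x.2} = b.choose 2 := by
  rw [Fintype.card_subtype, Fintype.card_product_filter_lt, Fintype.card_fin]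

theorem syz_bound' {V : Type} [NormedAddCommGroup V] [NormedSpace ℂ V] {b : ℕ}
    (a : V → Fin b → ℂ) (p : Fin b → V) (hc : ∀ l, ContinuousAt a (p l))
    (hδ : ∀ l, a (p l) = Pi.single l 1) {T : Type} [AddCommGroup T] [Module ℂ T]
    (σ : T →ₗ[ℂ] (V → Fin b → ℂ))
    (haff : ∀ s Z u (t : ℂ), σ s (Z + t • u) = σ s Z + t • (σ s (Z + u) - σ s Z))
    (hinj : ∀ s, σ s = 0 → s = 0) (hrel : ∀ s l, ∀ᶠ Z in 𝓝 (p l), σ s Z ⬝ᵥ a Z = 0) :
    finrank ℂ T ≤ b.choose 2 := by
  let Ψ : T →ₗ[ℂ] ({x : Fin b × Fin b // x.1 < x.2} → ℂ) :=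
    LinearMap.pi fun x => (LinearMap.proj x.1.1).comp ((LinearMap.proj (p x.1.2)).comp σ)
  rw [← card_lt_pairs, ← finrank_fintype_fun_eq_card ℂ]
  refine LinearMap.finrank_le_finrank_of_injective (f := Ψ) ?_
  rw [← LinearMap.ker_eq_bot, LinearMap.ker_eq_bot']
  intro s hs
  refine hinj s (funext fun Z => funext fun j => ?_)
  revert Z
  induction j using WellFoundedGT.induction with
  | ind j ih =>
    have h1 : σ s (p j) = 0 := by
      funext i
      rcases lt_trichotomy i j with h | h | h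
      · exact congrFun hs ⟨(i, j), h⟩
      · have := (hrel s j).self_of_nhds
        rw [hδ, dotProduct_single, mul_one] at this
        rw [h]; exact this
      · exact ih i h _
    intro Z
    obtain ⟨u, rfl⟩ : ∃ u, Z = p j + u := ⟨Z - p j, by abel⟩
    have ht : Tendsto (fun t : ℂ => p j + t • u) (𝓝[≠] 0) (𝓝 (p j)) := by
      have : Continuous fun t : ℂ => p j + t • u := by fun_prop
      simpa using (this.tendsto 0).mono_left (nhdsWithin_le_nhds (s := {0}ᶜ))
    have h2 : Tendsto (fun t : ℂ => σ s (p j + u) ⬝ᵥ a (p j + t • u)) (𝓝[≠] 0)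
        (𝓝 (σ s (p j + u) ⬝ᵥ a (p j))) := by
      have : Continuous fun y : Fin b → ℂ => σ s (p j + u) ⬝ᵥ y := by fun_prop
      exact (this.tendsto _).comp ((hc j).tendsto.comp ht)
    have h3 : ∀ᶠ t : ℂ in 𝓝[≠] 0, σ s (p j + u) ⬝ᵥ a (p j + t • u) = 0 := by
      filter_upwards [ht.eventually (hrel s j), self_mem_nhdsWithin] with t h ht0
      rw [haff, h1, zero_add, sub_zero, smul_dotProduct] at h
      exact (smul_eq_zero.1 h).resolve_left ht0
    have h4 := tendsto_nhds_unique h2 (tendsto_const_nhds.congr' (h3.mono fun _ h => h.symm))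
    rwa [hδ, dotProduct_single, mul_one] at h4

theorem syz_bound {V : Type} [NormedAddCommGroup V] [NormedSpace ℂ V] {b : ℕ}
    (a : V → Fin b → ℂ) (p : Fin b → V) (hc : ∀ l, ContinuousAt a (p l))
    (hδ : (Matrix.of fun l j => a (p l) j).det ≠ 0) {T : Type} [AddCommGroup T] [Module ℂ T]
    (σ : T →ₗ[ℂ] (V → Fin b → ℂ))
    (haff : ∀ s Z u (t : ℂ), σ s (Z + t • u) = σ s Z + t • (σ s (Z + u) - σ s Z))
    (hinj : ∀ s, σ s = 0 → s = 0) (hrel : ∀ s l, ∀ᶠ Z in 𝓝 (p l), σ s Z ⬝ᵥ a Z = 0) :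
    finrank ℂ T ≤ b.choose 2 := by
  set M : Matrix (Fin b) (Fin b) ℂ := Matrix.of fun l j => a (p l) j with hM
  have hu : IsUnit M.det := isUnit_iff_ne_zero.2 hδ
  refine syz_bound' (fun Z => a Z ᵥ* M⁻¹) p (fun l => ?_) (fun l => ?_)
    ((M.mulVecLin.compLeft V).comp σ) (fun s Z u t => ?_) (fun s hs => hinj s ?_) fun s l => ?_
  · have : Continuous fun y : Fin b → ℂ => y ᵥ* M⁻¹ := by fun_prop
    exact this.continuousAt.comp (hc l)
  · have : a (p l) = Pi.single l 1 ᵥ* M := by
      rw [single_one_vecMul]; rfl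
    rw [this, vecMul_vecMul, mul_nonsing_inv _ hu, vecMul_one]
  · change M *ᵥ σ s _ = M *ᵥ σ s _ + t • (M *ᵥ σ s _ - M *ᵥ σ s _)
    rw [haff, mulVec_add, mulVec_smul, mulVec_sub]
  · funext Z
    have : M *ᵥ σ s Z = 0 := congrFun hs Z
    rw [← one_mulVec (σ s Z), ← nonsing_inv_mul _ hu, ← mulVec_mulVec, this, mulVec_zero]
    rfl
  · filter_upwards [hrel s l] with Z hZ
    change (M *ᵥ σ s Z) ⬝ᵥ (a Z ᵥ* M⁻¹) = 0
    rw [dotProduct_comm, ← dotProduct_mulVec, mulVec_mulVec, nonsing_inv_mul _ hu, one_mulVec,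
      dotProduct_comm, hZ]

variable {ι : Type} [Fintype ι] [DecidableEq ι]

theorem dual_eq_dot (L : Submodule ℂ (ι → ℂ)) (φ : Dual ℂ L) :
    ∃ δ : ι → ℂ, ∀ Z : L, φ Z = (Z : ι → ℂ) ⬝ᵥ δ := by
  obtain ⟨f, hf⟩ := LinearMap.exists_extend φ
  refine ⟨fun i => f (Pi.single i 1), fun Z => ?_⟩
  rw [← hf, LinearMap.comp_apply, Submodule.subtype_apply, LinearMap.pi_apply_eq_sum_univ f,
    dotProduct]
  refine Finset.sum_congr rfl fun i _ => ?_
  rw [smul_eq_mul]
  congr 2
  funext j
  simp [Pi.single_apply, eq_comm]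

theorem finrank_ker_ge {κ : Type} [Fintype κ] (M : Matrix κ ι ℂ) :
    Fintype.card ι ≤ finrank ℂ (LinearMap.ker M.mulVecLin) + Fintype.card κ := by
  have h1 := LinearMap.finrank_range_add_finrank_ker M.mulVecLin
  have h2 := (LinearMap.range M.mulVecLin).finrank_le
  rw [finrank_fintype_fun_eq_card] at h1 h2
  omega

theorem exists_biorth (U U' : Submodule ℂ (ι → ℂ)) {c c' p : ℕ}
    (hU : Fintype.card ι ≤ finrank ℂ U + c) (hU' : Fintype.card ι ≤ finrank ℂ U' + c')
    (hp : p + c + c' ≤ Fintype.card ι) :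
    ∃ u u' : Fin p → ι → ℂ, (∀ i, u i ∈ U) ∧ (∀ i, u' i ∈ U') ∧
      ∀ i j, u i ⬝ᵥ u' j = if i = j then 1 else 0 := by
  let D : (ι → ℂ) →ₗ[ℂ] Dual ℂ U :=
    LinearMap.mk₂ ℂ (fun δ (Z : U) => (Z : ι → ℂ) ⬝ᵥ δ) (fun _ _ _ => dotProduct_add _ _ _)
      (fun _ _ _ => dotProduct_smul _ _ _) (fun _ _ _ => add_dotProduct _ _ _)
      fun _ _ _ => smul_dotProduct _ _ _
  have hD : LinearMap.range D = ⊤ := by
    rw [LinearMap.range_eq_top]
    intro φ
    obtain ⟨δ, hδ⟩ := dual_eq_dot U φ
    exact ⟨δ, LinearMap.ext fun Z => (hδ Z).symm⟩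
  have h1 := LinearMap.finrank_range_add_finrank_ker D
  rw [hD, finrank_top, Subspace.dual_finrank_eq, finrank_fintype_fun_eq_card] at h1
  have h2 := LinearMap.finrank_range_add_finrank_ker (D.domRestrict U')
  have h3 : finrank ℂ (LinearMap.ker (D.domRestrict U')) ≤ finrank ℂ (LinearMap.ker D) := by
    refine LinearMap.finrank_le_finrank_of_injective
      (f := (U'.subtype.domRestrict _).codRestrict (LinearMap.ker D) fun x => x.2) ?_
    intro x y hxy
    have h := congrArg Subtype.val hxy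
    exact Subtype.ext (Subtype.ext h)
  have h4 : p ≤ finrank ℂ (LinearMap.range (D.domRestrict U')) := by omega
  let φ : Fin p → LinearMap.range (D.domRestrict U') := fun i => finBasis ℂ _ (Fin.castLE h4 i)
  have hφ : LinearIndependent ℂ φ :=
    (finBasis ℂ _).linearIndependent.comp _ (Fin.castLE_injective h4)
  choose u' hu' using fun i => (φ i).2
  let E : U →ₗ[ℂ] (Fin p → ℂ) := LinearMap.pi fun i => (φ i : Dual ℂ U)
  have hE : ∀ y, ∃ Z, E Z = y := by
    intro y
    by_contra hy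
    obtain ⟨a, ha, ha0⟩ := exists_functional (LinearMap.range E) (y0 := y) hy
    have : ∑ i, a i • φ i = 0 := by
      refine Subtype.ext (LinearMap.ext fun Z => ?_)
      have := ha _ (LinearMap.mem_range_self E Z)
      simpa [E, dotProduct] using this
    refine ha0 ?_
    rw [show a = 0 from funext (Fintype.linearIndependent_iff.1 hφ a this), zero_dotProduct]
  choose u hu using fun i => hE (Pi.single i 1)
  refine ⟨fun i => u i, fun i => u' i, fun i => (u i).2, fun i => (u' i).2, fun i j => ?_⟩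
  have h5 := congrFun (hu i) j
  have h6 := LinearMap.congr_fun (hu' j) (u i)
  rw [Pi.single_apply] at h5
  rw [show ((u i : ι → ℂ) ⬝ᵥ (u' j : ι → ℂ)) = (φ j : Dual ℂ U) (u i) from h6]
  rw [show (φ j : Dual ℂ U) (u i) = _ from h5]
  simp only [eq_comm]

end Pool.Agent.MP_eddcad_an.H24

end MrgPart0

-- ======== part 1: formerly Pool.Agent.MP_eddcad_an.h24.Rk
section MrgPart1

set_option autoImplicit false
set_option linter.unusedSectionVars false

namespace Pool.Agent.MP_eddcad_an.H24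

open Matrix Filter Topology Set Module MvPolynomial

variable {ι : Type} [Fintype ι] [DecidableEq ι]

/-- kernel of rank at most `R`, continuous in the first and polynomial in the second variable -/
def Rk (K : (ι → ℂ) → (ι → ℂ) → ℂ) (R : ℕ) : Prop :=
  ∃ (τ : Type) (_ : Fintype τ) (a : τ → (ι → ℂ) → ℂ) (b : τ → MvPolynomial ι ℂ),
    Fintype.card τ ≤ R ∧ (∀ j, Continuous (a j)) ∧ ∀ Z W, K Z W = ∑ j, a j Z * eval W (b j)

/-- polynomial function -/
def IsPF (γ : (ι → ℂ) → ℂ) : Prop := ∃ p : MvPolynomial ι ℂ, ∀ W, γ W = eval W p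

theorem IsPF.const (c : ℂ) : IsPF fun _ : ι → ℂ => c := ⟨C c, fun _ => by simp⟩

theorem IsPF.mul {γ γ' : (ι → ℂ) → ℂ} (h : IsPF γ) (h' : IsPF γ') : IsPF fun W => γ W * γ' W := by
  obtain ⟨p, hp⟩ := h
  obtain ⟨p', hp'⟩ := h'
  exact ⟨p * p', fun W => by simp [hp, hp']⟩

theorem IsPF.sum {α : Type} (s : Finset α) {γ : α → (ι → ℂ) → ℂ} (h : ∀ i, IsPF (γ i)) :
    IsPF fun W => ∑ i ∈ s, γ i W := by
  choose p hp using h
  exact ⟨∑ i ∈ s, p i, fun W => by simp [hp]⟩

theorem IsPF.prod {α : Type} (s : Finset α) {γ : α → (ι → ℂ) → ℂ} (h : ∀ i, IsPF (γ i)) :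
    IsPF fun W => ∏ i ∈ s, γ i W := by
  choose p hp using h
  exact ⟨∏ i ∈ s, p i, fun W => by simp [hp]⟩

theorem IsPF.det {α : Type} [Fintype α] [DecidableEq α] {M : (ι → ℂ) → Matrix α α ℂ}
    (h : ∀ i j, IsPF fun W => M W i j) : IsPF fun W => (M W).det := by
  simp only [det_apply']
  exact IsPF.sum _ fun σ => (IsPF.const _).mul (IsPF.prod _ fun i => h _ _)

variable {K K' : (ι → ℂ) → (ι → ℂ) → ℂ} {R R' : ℕ}

theorem Rk.isPF (h : Rk K R) (Z : ι → ℂ) : IsPF (K Z) := by
  obtain ⟨τ, _, a, b, -, -, h⟩ := h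
  exact ⟨∑ j, C (a j Z) * b j, fun W => by simp [h]⟩

theorem Rk.continuous (h : Rk K R) (W : ι → ℂ) : Continuous fun Z => K Z W := by
  obtain ⟨τ, _, a, b, -, ha, h⟩ := h
  simp only [h]
  fun_prop

theorem Rk.mono (h : Rk K R) (hR : R ≤ R') : Rk K R' := by
  obtain ⟨τ, i, a, b, h1, h2⟩ := h
  exact ⟨τ, i, a, b, h1.trans hR, h2⟩

theorem Rk.add (h : Rk K R) (h' : Rk K' R') : Rk (fun Z W => K Z W + K' Z W) (R + R') := by
  obtain ⟨τ, _, a, b, h1, h2, h3⟩ := h
  obtain ⟨τ', _, a', b', h1', h2', h3'⟩ := h'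
  refine ⟨τ ⊕ τ', inferInstance, Sum.elim a a', Sum.elim b b', by simp; omega, ?_, fun Z W => ?_⟩
  · rintro (j | j)
    exacts [h2 j, h2' j]
  · simp [h3, h3']

theorem Rk.single {a : (ι → ℂ) → ℂ} {γ : (ι → ℂ) → ℂ} (ha : Continuous a) (hγ : IsPF γ) :
    Rk (fun Z W => a Z * γ W) 1 := by
  obtain ⟨p, hp⟩ := hγ
  exact ⟨Unit, inferInstance, fun _ => a, fun _ => p, by simp, fun _ => ha, fun Z W => by simp [hp]⟩

theorem Rk.const_mul (h : Rk K R) (c : ℂ) : Rk (fun Z W => c * K Z W) R := by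
  obtain ⟨τ, i, a, b, h1, h2, h3⟩ := h
  exact ⟨τ, i, fun j Z => c * a j Z, b, h1, fun j => continuous_const.mul (h2 j),
    fun Z W => by simp [h3, Finset.mul_sum, mul_assoc]⟩

theorem Rk.sum {α : Type} (s : Finset α) {K : α → (ι → ℂ) → (ι → ℂ) → ℂ}
    (h : ∀ i, Rk (K i) R) : Rk (fun Z W => ∑ i ∈ s, K i Z W) (s.card * R) := by
  classical
  induction s using Finset.induction_on with
  | empty => exact ⟨Empty, inferInstance, Empty.elim, Empty.elim, by simp, (·.elim), by simp⟩
  | insert a s ha ih =>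
    simp only [Finset.sum_insert ha, Finset.card_insert_of_notMem ha]
    exact ((h a).add ih).mono (le_of_eq (by ring))

theorem Rk.dot_mul (h : Rk K R) : Rk (fun Z W => (Z ⬝ᵥ W) * K Z W) (Fintype.card ι * R) := by
  obtain ⟨τ, _, a, b, h1, h2, h3⟩ := h
  refine ⟨ι × τ, inferInstance, fun x Z => Z x.1 * a x.2 Z, fun x => X x.1 * b x.2, ?_,
    fun x => (continuous_apply x.1).mul (h2 x.2), fun Z W => ?_⟩
  · rw [Fintype.card_prod]
    exact Nat.mul_le_mul_left _ h1
  · simp only [h3, dotProduct, Finset.sum_mul_sum, Fintype.sum_prod_type, map_mul, eval_X]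
    exact Finset.sum_congr rfl fun i _ => Finset.sum_congr rfl fun j _ => by ring

/-- restriction of a polynomial to a line -/
noncomputable def lp (b : MvPolynomial ι ℂ) (W δ : ι → ℂ) : Polynomial ℂ :=
  aeval (fun i => Polynomial.C (W i) + Polynomial.C (δ i) * Polynomial.X) b

theorem eval_lp (b : MvPolynomial ι ℂ) (W δ : ι → ℂ) (t : ℂ) :
    (lp b W δ).eval t = eval (W + t • δ) b := by
  induction b using MvPolynomial.induction_on with
  | C a => simp [lp]
  | add p q hp hq => simp only [lp, map_add, Polynomial.eval_add] at hp hq ⊢; rw [hp, hq]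
  | mul_X p i hp =>
    simp only [lp, map_mul, Polynomial.eval_mul] at hp ⊢
    rw [hp]
    simp only [aeval_X, Polynomial.eval_add, Polynomial.eval_C, Polynomial.eval_mul,
      Polynomial.eval_X, MvPolynomial.eval_X, Pi.add_apply, Pi.smul_apply, smul_eq_mul]
    ring

theorem natDegree_lp (b : MvPolynomial ι ℂ) : ∃ M, ∀ W δ, (lp b W δ).natDegree ≤ M := by
  induction b using MvPolynomial.induction_on with
  | C a => exact ⟨0, fun W δ => by simp [lp]⟩
  | add p q hp hq =>
    obtain ⟨M, hM⟩ := hp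
    obtain ⟨M', hM'⟩ := hq
    refine ⟨max M M', fun W δ => ?_⟩
    rw [lp, map_add]
    exact (Polynomial.natDegree_add_le _ _).trans (max_le_max (hM W δ) (hM' W δ))
  | mul_X p i hp =>
    obtain ⟨M, hM⟩ := hp
    refine ⟨M + 1, fun W δ => ?_⟩
    rw [lp, map_mul, aeval_X]
    refine Polynomial.natDegree_mul_le.trans (add_le_add (hM W δ) ?_)
    compute_degree

theorem continuous_coeff_lp (b : MvPolynomial ι ℂ) (δ : ι → ℂ) (m : ℕ) :
    Continuous fun W => (lp b W δ).coeff m := by
  induction b using MvPolynomial.induction_on generalizing m with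
  | C a => simp only [lp, aeval_C]; exact continuous_const
  | add p q hp hq =>
    simp only [lp, map_add, Polynomial.coeff_add] at hp hq ⊢
    exact (hp m).add (hq m)
  | mul_X p i hp =>
    have e : ∀ W, (lp (p * X i) W δ).coeff m = (lp p W δ).coeff m * W i +
        δ i * if 1 ≤ m then (lp p W δ).coeff (m - 1) else 0 := by
      intro W
      have e0 : lp (p * X i) W δ =
          lp p W δ * (Polynomial.C (W i) + Polynomial.C (δ i) * Polynomial.X ^ 1) := by
        rw [lp, map_mul, aeval_X, lp, pow_one]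
      rw [e0, mul_add, Polynomial.coeff_add, Polynomial.coeff_mul_C,
        mul_left_comm, Polynomial.coeff_C_mul, Polynomial.coeff_mul_X_pow']
    simp only [e]
    refine ((hp m).mul (continuous_apply i)).add (continuous_const.mul ?_)
    split_ifs
    · exact hp _
    · exact continuous_const

theorem Rk.exists_tp (h : Rk K R) :
    ∃ (T : (ι → ℂ) → (ι → ℂ) → (ι → ℂ) → Polynomial ℂ) (M : ℕ) (E : Submodule ℂ ((ι → ℂ) → ℂ)),
      Module.Finite ℂ E ∧ finrank ℂ E ≤ R ∧ (∀ Z W δ t, (T Z W δ).eval t = K Z (W + t • δ)) ∧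
      (∀ Z W δ, (T Z W δ).natDegree ≤ M) ∧ (∀ Z δ m, Continuous fun W => (T Z W δ).coeff m) ∧
      (∀ W δ m, Continuous fun Z => (T Z W δ).coeff m) ∧
      ∀ W δ m, (fun Z => (T Z W δ).coeff m) ∈ E := by
  obtain ⟨τ, _, a, b, h1, h2, h3⟩ := h
  choose M hM using fun j => natDegree_lp (b j)
  have e : ∀ Z W δ m, (∑ j, Polynomial.C (a j Z) * lp (b j) W δ).coeff m =
      ∑ j, a j Z * (lp (b j) W δ).coeff m := fun Z W δ m => by simp
  refine ⟨fun Z W δ => ∑ j, Polynomial.C (a j Z) * lp (b j) W δ, Finset.univ.sup M,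
    Submodule.span ℂ (range a), Module.Finite.span_of_finite ℂ (finite_range a),
    (finrank_range_le_card a).trans h1, fun Z W δ t => ?_, fun Z W δ => ?_, fun Z δ m => ?_,
    fun W δ m => ?_, fun W δ m => ?_⟩
  · simp [h3, Polynomial.eval_finsetSum, eval_lp]
  · refine Polynomial.natDegree_sum_le_of_forall_le _ _ fun j _ =>
      (Polynomial.natDegree_C_mul_le _ _).trans ((hM j W δ).trans ?_)
    exact Finset.le_sup (Finset.mem_univ j)
  · simp only [e]
    exact continuous_finsetSum _ fun j _ => continuous_const.mul (continuous_coeff_lp _ _ _)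
  · simp only [e]
    exact continuous_finsetSum _ fun j _ => (h2 j).mul continuous_const
  · have : (fun Z => (∑ j, Polynomial.C (a j Z) * lp (b j) W δ).coeff m) =
        ∑ j, (lp (b j) W δ).coeff m • a j := by
      funext Z
      simp [mul_comm]
    rw [this]
    exact Submodule.sum_mem _ fun j _ =>
      Submodule.smul_mem _ _ (Submodule.subset_span (mem_range_self j))

theorem coeff_shift {T T' : Polynomial ℂ} {c : ℂ} (h : ∀ t, T'.eval t = t * c * T.eval t) (m : ℕ) :
    T'.coeff (m + 1) = c * T.coeff m := by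
  have : T' = Polynomial.C c * (Polynomial.X * T) := Polynomial.funext fun t => by
    rw [h]; simp; ring
  rw [this, Polynomial.coeff_C_mul, Polynomial.coeff_X_mul]

theorem finrank_map_add_inf {A B : Type} [AddCommGroup A] [Module ℂ A] [AddCommGroup B]
    [Module ℂ B] (F : Submodule ℂ A) [Module.Finite ℂ F] (ρ : A →ₗ[ℂ] B) :
    finrank ℂ (F.map ρ) + finrank ℂ ↥(F ⊓ LinearMap.ker ρ) = finrank ℂ F := by
  rw [← LinearMap.finrank_range_add_finrank_ker (ρ.domRestrict F), LinearMap.range_domRestrict,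
    LinearMap.ker_domRestrict, ← Submodule.map_comap_subtype, Submodule.finrank_map_subtype_eq]

/-- restriction of functions to a subspace -/
def res (L : Submodule ℂ (ι → ℂ)) : ((ι → ℂ) → ℂ) →ₗ[ℂ] (L → ℂ) :=
  LinearMap.funLeft ℂ ℂ Subtype.val

theorem mem_ker_res {L : Submodule ℂ (ι → ℂ)} {g : (ι → ℂ) → ℂ} :
    g ∈ LinearMap.ker (res L) ↔ ∀ Z ∈ L, g Z = 0 :=
  ⟨fun h Z hZ => congrFun h ⟨Z, hZ⟩, fun h => funext fun Z => h Z Z.2⟩

/-- common orthogonal complement of the first `k` vectors -/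
def orth {b : ℕ} (W : Fin b → ι → ℂ) (k : ℕ) : Submodule ℂ (ι → ℂ) where
  carrier := {Z | ∀ l : Fin b, (l : ℕ) < k → Z ⬝ᵥ W l = 0}
  add_mem' := fun h h' l hl => by rw [add_dotProduct, h l hl, h' l hl, add_zero]
  zero_mem' := fun _ _ => zero_dotProduct _
  smul_mem' := fun c _ h l hl => by rw [smul_dotProduct, h l hl, smul_zero]

theorem finrank_orth_succ {b : ℕ} (W : Fin b → ι → ℂ) (k : Fin b) :
    finrank ℂ (orth W k) ≤ finrank ℂ (orth W (k + 1)) + 1 := by
  have h1 := finrank_map_add_inf (orth W k) (Matrix.of fun _ : Unit => W k).mulVecLin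
  have h2 := ((orth W k).map (Matrix.of fun _ : Unit => W k).mulVecLin).finrank_le
  rw [finrank_fintype_fun_eq_card, Fintype.card_unit] at h2
  have h3 : orth W k ⊓ LinearMap.ker (Matrix.of fun _ : Unit => W k).mulVecLin ≤
      orth W (k + 1) := fun Z hZ l hl => by
    rcases Nat.lt_succ_iff_lt_or_eq.1 hl with h | h
    · exact hZ.1 l h
    · rw [Fin.ext h]
      exact (dotProduct_comm _ _).trans (congrFun hZ.2 ())
  have := Submodule.finrank_mono h3
  omega

theorem caseI {h : (ι → ℂ) → (ι → ℂ) → ℂ} {R0 : ℕ} (hh : Rk h R0)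
    (hr : Rk (fun Z W => (Z ⬝ᵥ W) * h Z W) R) {b : ℕ} (Z W : Fin b → ι → ℂ)
    (horth : ∀ i l, Z i ⬝ᵥ W l = 0) (hdet : (Matrix.of fun i l => h (Z i) (W l)).det ≠ 0) :
    b * Fintype.card ι + b ≤ R + b * b := by
  obtain ⟨T, -, -, -, -, hT, -⟩ := hh.exists_tp
  obtain ⟨T', -, E, hE, hER, hT', -, -, -, hTE⟩ := hr.exists_tp
  have hco : ∀ Z W δ, Z ⬝ᵥ W = 0 → (T' Z W δ).coeff (0 + 1) = (Z ⬝ᵥ δ) * h Z W := by
    intro Z W δ h0
    rw [coeff_shift (T := T Z W δ) (c := Z ⬝ᵥ δ) (fun t => by
      rw [hT', hT, dotProduct_add, h0, zero_add, dotProduct_smul, smul_eq_mul]),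
      Polynomial.coeff_zero_eq_eval_zero, hT, zero_smul, add_zero]
  have key : ∀ k ≤ b, (k + 1).choose 2 + b * Fintype.card ι ≤
      finrank ℂ ↥(E ⊓ LinearMap.ker (res (orth W k))) + b * finrank ℂ (orth W k) + b * k := by
    intro k hk
    induction k with
    | zero =>
      have : orth W 0 = ⊤ := eq_top_iff.2 fun Z _ l hl => absurd hl (Nat.not_lt_zero _)
      rw [this, finrank_top, finrank_fintype_fun_eq_card]
      simp
    | succ k ih =>
      have ih := ih (by omega)
      have hc : (k + 1 + 1).choose 2 = (k + 1).choose 2 + (k + 1) := by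
        rw [Nat.choose_succ_succ' (k + 1) 1, Nat.choose_one_right, add_comm]
      have hle : orth W (k + 1) ≤ orth W k := fun Z hZ l hl => hZ l (by omega)
      let k' : Fin b := ⟨k, hk⟩
      by_cases hd : ∀ Z ∈ orth W k, Z ⬝ᵥ W k' = 0
      · have : orth W (k + 1) = orth W k := le_antisymm hle fun Z hZ l hl => by
          rcases Nat.lt_succ_iff_lt_or_eq.1 hl with h | h
          · exact hZ l h
          · rw [show l = k' from Fin.ext h]
            exact hd Z hZ
        rw [this, mul_add b k]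
        omega
      · push Not at hd
        obtain ⟨Z1, hZ1, hd⟩ := hd
        set F := E ⊓ LinearMap.ker (res (orth W (k + 1))) with hF
        have : Module.Finite ℂ F := Submodule.finiteDimensional_of_le inf_le_left
        have h1 := finrank_map_add_inf F (res (orth W k))
        have h2 : E ⊓ LinearMap.ker (res (orth W k)) ≤ F ⊓ LinearMap.ker (res (orth W k)) :=
          fun g hg => ⟨⟨hg.1, mem_ker_res.2 fun Z hZ => mem_ker_res.1 hg.2 Z (hle hZ)⟩, hg.2⟩
        have h3 := Submodule.finrank_mono h2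
        have hg : ∀ l : Fin (k + 1), ∃ g ∈ E, ∀ Z ∈ orth W k,
            g Z = (Z ⬝ᵥ W k') * h Z (W (l.castLE hk)) := by
          intro l
          rcases Nat.lt_succ_iff_lt_or_eq.1 l.2 with hl | hl
          · exact ⟨_, hTE (W (l.castLE hk)) (W k') (0 + 1), fun Z hZ => hco _ _ _ (hZ _ hl)⟩
          · refine ⟨_, hTE (W k') 0 0, fun Z _ => ?_⟩
            rw [show l.castLE hk = k' from Fin.ext hl]
            simp only [Polynomial.coeff_zero_eq_eval_zero, hT', zero_smul, add_zero]
        choose g hgE hg using hg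
        let g' : Fin (k + 1) → F.map (res (orth W k)) := fun l => ⟨res _ (g l), g l,
          ⟨hgE l, mem_ker_res.2 fun Z hZ => by
            rw [hg l Z (hle hZ), hZ k' (Nat.lt_succ_self k), zero_mul]⟩, rfl⟩
        have hli : LinearIndependent ℂ g' := by
          rw [Fintype.linearIndependent_iff]
          intro c hc
          refine Fintype.linearIndependent_iff.1 ((linearIndependent_cols_of_det_ne_zero hdet).comp
            (Fin.castLE hk) (Fin.castLE_injective hk)) c (funext fun i => ?_)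
          have h4 : (fun t : ℂ => ∑ l, c l * h (Z i + t • Z1) (W (l.castLE hk))) = fun _ => 0 := by
            refine Continuous.ext_on (dense_compl_singleton (0 : ℂ)) (continuous_finsetSum _
              fun l _ => continuous_const.mul ((hh.continuous _).comp (by fun_prop)))
              continuous_const fun t ht => ?_
            have hm : Z i + t • Z1 ∈ orth W k :=
              (orth W k).add_mem (fun l _ => horth i l) ((orth W k).smul_mem _ hZ1)
            have h5 := congrArg Subtype.val hc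
            rw [Submodule.coe_sum] at h5
            replace h5 : ∑ l, c l * g l (Z i + t • Z1) = 0 :=
              (Finset.sum_apply _ _ _).symm.trans (congrFun h5 ⟨_, hm⟩)
            simp only [hg _ _ hm, mul_left_comm (c _), ← Finset.mul_sum] at h5
            refine (mul_eq_zero.1 h5).resolve_left ?_
            rw [add_dotProduct, horth, zero_add, smul_dotProduct]
            exact mul_ne_zero ht hd
          simpa using congrFun h4 0
        have h6 := hli.fintype_card_le_finrank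
        rw [Fintype.card_fin] at h6
        have h7 := Nat.mul_le_mul_left b (finrank_orth_succ W k')
        simp only [k', mul_add, mul_one] at h7 ⊢
        omega
  set L := orth W b with hL
  have hLW : ∀ Z : L, ∀ l, (Z : ι → ℂ) ⬝ᵥ W l = 0 := fun Z l => Z.2 l l.2
  have h1 := key b le_rfl
  have h1' := finrank_map_add_inf E (res L)
  rw [← hL] at h1
  let Λ : (Fin b → Dual ℂ L) →ₗ[ℂ] (L → ℂ) :=
    { toFun := fun σ Z => ∑ l, σ l Z * h Z (W l)
      map_add' := fun σ σ' => funext fun Z => by simp [add_mul, Finset.sum_add_distrib]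
      map_smul' := fun c σ => funext fun Z => by simp [Finset.mul_sum, mul_assoc] }
  have h2 := LinearMap.finrank_range_add_finrank_ker Λ
  rw [Module.finrank_pi_fintype, Finset.sum_const, Finset.card_univ, Fintype.card_fin,
    Subspace.dual_finrank_eq, smul_eq_mul] at h2
  have h3 : LinearMap.range Λ ≤ E.map (res L) := by
    rintro _ ⟨σ, rfl⟩
    choose δ hδ using fun l => dual_eq_dot L (σ l)
    refine ⟨∑ l, fun Z => (T' Z (W l) (δ l)).coeff (0 + 1), Submodule.sum_mem _ fun l _ =>
      hTE _ _ _, funext fun Z => ?_⟩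
    simp only [res, LinearMap.funLeft_apply, Finset.sum_apply, Λ, LinearMap.coe_mk, AddHom.coe_mk]
    exact Finset.sum_congr rfl fun l _ => by rw [hco _ _ _ (hLW Z l), hδ]
  have h4 := Submodule.finrank_mono h3
  have h5 : finrank ℂ (LinearMap.ker Λ) ≤ b.choose 2 := by
    refine syz_bound (V := L) (fun Z l => h Z (W l)) (fun i => ⟨Z i, fun l _ => horth i l⟩)
      (fun l => (continuous_pi fun l => (hh.continuous _).comp continuous_subtype_val).continuousAt)
      hdet
      { toFun := fun s Z l => s.1 l Z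
        map_add' := fun _ _ => rfl
        map_smul' := fun _ _ => rfl } (fun s Z u t => ?_) (fun s hs => ?_) fun s l => ?_
    · funext l
      simp
    · exact Subtype.ext (funext fun l => LinearMap.ext fun Z => congrFun (congrFun hs Z) l)
    · exact Eventually.of_forall fun Z => congrFun s.2 Z
  have hc : (b + 1).choose 2 = b.choose 2 + b := by
    rw [Nat.choose_succ_succ' b 1, Nat.choose_one_right, add_comm]
  omega

end Pool.Agent.MP_eddcad_an.H24

end MrgPart1

-- marker of a merged file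
example : 731051 + 226593 = 731051 + 226593 := rfl
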